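import Pool.Agent.H16V.Sel

/-!
Classes of `y + a s`, `s² = D`, when `y² = D a² + c l^m`.
-/

set_option autoImplicit false

open IsDedekindDomain NumberField

namespace Pool.Agent.H16V

section cnt

variable {k : Type} [Field k] [NumberField k]

theorem cnt_mul (v : HeightOneSpectrum (𝓞 k)) (a b : 𝓞 k) (ha : a ≠ 0) (hb : b ≠ 0) :
    (UniqueFactorizationMonoid.normalizedFactors (Ideal.span {a * b})).count v.asIdeal =
      (UniqueFactorizationMonoid.normalizedFactors (Ideal.span {a})).count v.asIdeal +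
      (UniqueFactorizationMonoid.normalizedFactors (Ideal.span {b})).count v.asIdeal := by
  rw [← Ideal.span_singleton_mul_span_singleton,
    UniqueFactorizationMonoid.normalizedFactors_mul (by simpa using ha) (by simpa using hb),
    Multiset.count_add]

theorem cnt_pow (v : HeightOneSpectrum (𝓞 k)) (a : 𝓞 k) (n : ℕ) :
    (UniqueFactorizationMonoid.normalizedFactors (Ideal.span {a ^ n})).count v.asIdeal =
      n * (UniqueFactorizationMonoid.normalizedFactors (Ideal.span {a})).count v.asIdeal := by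
  rw [← Ideal.span_singleton_pow, UniqueFactorizationMonoid.normalizedFactors_pow,
    Multiset.count_nsmul]

theorem cnt_zero (v : HeightOneSpectrum (𝓞 k)) (a : 𝓞 k) (h : a ∉ v.asIdeal) :
    (UniqueFactorizationMonoid.normalizedFactors (Ideal.span {a})).count v.asIdeal = 0 := by
  rw [Multiset.count_eq_zero]
  intro h1
  exact h (Ideal.dvd_span_singleton.1 (UniqueFactorizationMonoid.dvd_of_mem_normalizedFactors h1))

/-- a rational integer in a prime ideal is divisible by a prime number in the ideal -/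
theorem prime_below (v : HeightOneSpectrum (𝓞 k)) (n : ℤ) (hn : n ≠ 0)
    (h : (n : 𝓞 k) ∈ v.asIdeal) : ∃ p : ℕ, p.Prime ∧ (p : ℤ) ∣ n ∧ (p : 𝓞 k) ∈ v.asIdeal := by
  have h1 : ((n.natAbs : ℕ) : 𝓞 k) ∈ v.asIdeal := by
    rcases Int.natAbs_eq n with h2 | h2
    · rw [h2] at h
      simpa using h
    · rw [h2] at h
      simpa using h
  have h2 : n.natAbs ≠ 0 := Int.natAbs_ne_zero.2 hn
  have h3 : ∀ L : List ℕ, ((L.prod : ℕ) : 𝓞 k) ∈ v.asIdeal → ∃ p ∈ L, (p : 𝓞 k) ∈ v.asIdeal := by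
    intro L
    induction L with
    | nil =>
      intro h4
      rw [List.prod_nil, Nat.cast_one] at h4
      exact absurd ((Ideal.eq_top_iff_one _).2 h4) v.isPrime.ne_top
    | cons a L ih =>
      intro h4
      rw [List.prod_cons, Nat.cast_mul] at h4
      rcases v.isPrime.mem_or_mem h4 with h5 | h5
      · exact ⟨a, List.mem_cons_self, h5⟩
      · obtain ⟨p, hp, hp'⟩ := ih h5
        exact ⟨p, List.mem_cons_of_mem _ hp, hp'⟩
  rw [← Nat.prod_primeFactorsList h2] at h1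
  obtain ⟨p, hp, hpv⟩ := h3 _ h1
  refine ⟨p, Nat.prime_of_mem_primeFactorsList hp, ?_, hpv⟩
  rw [Int.natCast_dvd]
  exact Nat.dvd_of_mem_primeFactorsList hp

/-- the order of `y + a s` is divisible by `m` outside a finite set -/
theorem cnt_dvd (S : Finset ℕ) (D : ℤ) (s : 𝓞 k) (hs : s ^ 2 = (D : 𝓞 k)) (m : ℕ)
    (v : HeightOneSpectrum (𝓞 k))
    (hv : ((2 * D * ∏ p ∈ S, (p : ℤ) : ℤ) : 𝓞 k) ∉ v.asIdeal)
    (y a c l : ℤ) (hc : c ≠ 0) (hl : l ≠ 0) (hy : y ^ 2 = D * a ^ 2 + c * l ^ m)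
    (hcS : ∀ p : ℕ, p.Prime → (p : ℤ) ∣ c → p ∈ S)
    (hal : ∀ p : ℕ, p.Prime → p ∉ S → (p : ℤ) ∣ l → ¬ (p : ℤ) ∣ a) :
    m ∣ (UniqueFactorizationMonoid.normalizedFactors
      (Ideal.span {(y : 𝓞 k) + a * s})).count v.asIdeal := by
  have hpv : ∀ p ∈ S, (p : 𝓞 k) ∉ v.asIdeal := by
    intro p hp h1
    apply hv
    obtain ⟨q, hq⟩ : (p : ℤ) ∣ 2 * D * ∏ p ∈ S, (p : ℤ) :=
      (Finset.dvd_prod_of_mem _ hp).mul_left _
    rw [hq]
    push_cast
    exact Ideal.mul_mem_right _ _ h1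
  have h2D : ((2 * D : ℤ) : 𝓞 k) ∉ v.asIdeal := by
    intro h1
    apply hv
    rw [Int.cast_mul]
    exact Ideal.mul_mem_right _ _ h1
  have hcv : (c : 𝓞 k) ∉ v.asIdeal := by
    intro h1
    obtain ⟨p, hp, hpc, hpm⟩ := prime_below v c hc h1
    exact hpv p (hcS p hp hpc) hpm
  have hprod : ((y : 𝓞 k) + a * s) * ((y : 𝓞 k) - a * s) = c * l ^ m := by
    have h1 : (y : 𝓞 k) ^ 2 = D * a ^ 2 + c * l ^ m := by exact_mod_cast congrArg (Int.cast : ℤ → 𝓞 k) hy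
    linear_combination h1 - (a : 𝓞 k) ^ 2 * hs
  have hc0 : (c : 𝓞 k) ≠ 0 := by exact_mod_cast hc
  have hl0 : (l : 𝓞 k) ≠ 0 := by exact_mod_cast hl
  have hr0 : (c : 𝓞 k) * l ^ m ≠ 0 := mul_ne_zero hc0 (pow_ne_zero _ hl0)
  have hp0 : (y : 𝓞 k) + a * s ≠ 0 := by
    intro h1; rw [h1, zero_mul] at hprod; exact hr0 hprod.symm
  have hm0 : (y : 𝓞 k) - a * s ≠ 0 := by
    intro h1; rw [h1, mul_zero] at hprod; exact hr0 hprod.symm
  have hcount := cnt_mul v _ _ hp0 hm0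
  rw [hprod, cnt_mul v _ _ hc0 (pow_ne_zero _ hl0), cnt_zero v _ hcv, cnt_pow, zero_add] at hcount
  by_cases h1 : (y : 𝓞 k) + a * s ∈ v.asIdeal
  · by_cases h2 : (y : 𝓞 k) - a * s ∈ v.asIdeal
    · exfalso
      have h3 : ((2 * D : ℤ) : 𝓞 k) * a ∈ v.asIdeal := by
        have h4 : ((2 * D : ℤ) : 𝓞 k) * a = s * (((y : 𝓞 k) + a * s) - (y - a * s)) := by
          push_cast
          rw [← hs]; ring
        rw [h4]
        exact Ideal.mul_mem_left _ _ (Ideal.sub_mem _ h1 h2)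
      have h5 : (a : 𝓞 k) ∈ v.asIdeal := (v.isPrime.mem_or_mem h3).resolve_left h2D
      have h6 : (l : 𝓞 k) ∈ v.asIdeal := by
        have h7 : (c : 𝓞 k) * l ^ m ∈ v.asIdeal := by
          rw [← hprod]; exact Ideal.mul_mem_right _ _ h1
        exact v.isPrime.mem_of_pow_mem _ ((v.isPrime.mem_or_mem h7).resolve_left hcv)
      have h7 : ((Int.gcd a l : ℤ) : 𝓞 k) ∈ v.asIdeal := by
        rw [Int.gcd_eq_gcd_ab a l]
        push_cast
        exact Ideal.add_mem _ (Ideal.mul_mem_right _ _ h5) (Ideal.mul_mem_right _ _ h6)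
      have h8 : (Int.gcd a l : ℤ) ≠ 0 := by
        intro h9
        have h10 : Int.gcd a l = 0 := by exact_mod_cast h9
        rw [Int.gcd_eq_zero_iff] at h10
        exact hl h10.2
      obtain ⟨p, hp, hpg, hpv'⟩ := prime_below v _ h8 h7
      have h11 : p ∉ S := fun h12 => hpv p h12 hpv'
      exact hal p hp h11 (hpg.trans (Int.gcd_dvd_right _ _)) (hpg.trans (Int.gcd_dvd_left _ _))
    · rw [cnt_zero v _ h2, add_zero] at hcount
      exact ⟨_, hcount.symm⟩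
  · rw [cnt_zero v _ h1]
    exact dvd_zero _

/-- finitely many classes -/
theorem classes (k : Type) [Field k] [NumberField k] (S : Finset ℕ) (hS : ∀ p ∈ S, p ≠ 0)
    (D : ℤ) (hD : D ≠ 0) (s : k)
    (hs : s ^ 2 = (D : k)) (m : ℕ) (hm : 0 < m) :
    ∃ T : Finset k, (∀ t ∈ T, t ≠ 0) ∧ ∀ y a c l : ℤ, c ≠ 0 → l ≠ 0 →
      y ^ 2 = D * a ^ 2 + c * l ^ m → (∀ p : ℕ, p.Prime → (p : ℤ) ∣ c → p ∈ S) →
      (∀ p : ℕ, p.Prime → p ∉ S → (p : ℤ) ∣ l → ¬ (p : ℤ) ∣ a) →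
      ∃ t ∈ T, ∃ w : k, (y : k) + a * s = t * w ^ m := by
  classical
  have his : IsIntegral ℤ s := by
    apply IsIntegral.of_pow (n := 2) (by norm_num)
    rw [hs]; exact isIntegral_algebraMap (R := ℤ) (x := D)
  obtain ⟨s', hs'⟩ : ∃ s' : 𝓞 k, algebraMap (𝓞 k) k s' = s := ⟨⟨s, his⟩, rfl⟩
  have hs2 : s' ^ 2 = (D : 𝓞 k) := by
    apply RingOfIntegers.coe_injective
    rw [map_pow, hs', hs]; simp
  obtain ⟨n, hn⟩ : ∃ n : ℤ, n = 2 * D * ∏ p ∈ S, (p : ℤ) := ⟨_, rfl⟩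
  have hn0 : n ≠ 0 := by
    rw [hn]
    refine mul_ne_zero (mul_ne_zero two_ne_zero hD) (Finset.prod_ne_zero_iff.2 ?_)
    intro p hp
    exact_mod_cast hS p hp
  have hfin : {v : HeightOneSpectrum (𝓞 k) | (n : 𝓞 k) ∈ v.asIdeal}.Finite := by
    have h1 : {v : HeightOneSpectrum (𝓞 k) | v.asIdeal ∣ Ideal.span {(n : 𝓞 k)}}.Finite := by
      apply Ideal.finite_factors
      have : (n : 𝓞 k) ≠ 0 := by exact_mod_cast hn0
      simpa using this
    exact h1.subset fun v hv => Ideal.dvd_span_singleton.2 hv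
  obtain ⟨T, hT0, hT⟩ := sel_int (K := k) m hm _ hfin
  refine ⟨T.image (algebraMap (𝓞 k) k), ?_, ?_⟩
  · intro t ht
    obtain ⟨t', ht', rfl⟩ := Finset.mem_image.1 ht
    have := hT0 t' ht'
    simpa using this
  · intro y a c l hc hl hy hcS hal
    have hprod : ((y : 𝓞 k) + a * s') * ((y : 𝓞 k) - a * s') = c * l ^ m := by
      have h1 : (y : 𝓞 k) ^ 2 = D * a ^ 2 + c * l ^ m := by
        exact_mod_cast congrArg (Int.cast : ℤ → 𝓞 k) hy
      linear_combination h1 - (a : 𝓞 k) ^ 2 * hs2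
    have hc0 : (c : 𝓞 k) ≠ 0 := by exact_mod_cast hc
    have hl0 : (l : 𝓞 k) ≠ 0 := by exact_mod_cast hl
    have hr0 : (c : 𝓞 k) * l ^ m ≠ 0 := mul_ne_zero hc0 (pow_ne_zero _ hl0)
    have hp0 : (y : 𝓞 k) + a * s' ≠ 0 := by
      intro h1; rw [h1, zero_mul] at hprod; exact hr0 hprod.symm
    obtain ⟨t, ht, x1, y1, hx1, hy1, hxy⟩ := hT ((y : 𝓞 k) + a * s') hp0 (by
      intro v hv
      exact cnt_dvd S D s' hs2 m v (by rw [← hn]; exact hv) y a c l hc hl hy hcS hal)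
    refine ⟨algebraMap (𝓞 k) k t, Finset.mem_image_of_mem _ ht,
      algebraMap (𝓞 k) k y1 / algebraMap (𝓞 k) k x1, ?_⟩
    have hx1' : algebraMap (𝓞 k) k x1 ≠ 0 := by simpa using hx1
    have h2 := congrArg (algebraMap (𝓞 k) k) hxy
    rw [map_mul, map_mul, map_pow, map_pow, map_add, map_mul, hs'] at h2
    simp only [map_intCast] at h2
    rw [div_pow]
    field_simp
    linear_combination h2

end cnt

end Pool.Agent.H16V
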