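import Pool.Agent.H16V.Kum
import Pool.Agent.H16V.Loc

/-!
The bound for all points with a coprimality condition, `D` fixed.
-/

set_option autoImplicit false

open Polynomial Pool.Agent.H322R2 IntermediateField NumberField

namespace Pool.Agent.H16V

/-- the hypotheses on the family -/
structure Hyp (m : ℕ) (D : ℤ) (f A B : ℤ[X]) (c e r : ℤ) (M : ℕ) : Prop where
  hc : c ≠ 0
  he : e ≠ 0
  hcM : c.natAbs ≤ M
  heM : e.natAbs ≤ M
  hrM : r.natAbs ≤ M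
  hAM : ∀ i, (A.coeff i).natAbs ≤ M
  hfac : B ^ 2 * f = C D * A ^ 2 + C c * (C e * X + C r) ^ m
  hAd : 2 * A.natDegree < m
  hsq : Squarefree (f.map (Int.castRingHom ℚ))
  hpr : ∀ p : ℕ, p.Prime → p ∣ m → ∀ (t g : ℂ[X]) (ε : ℂ), g ≠ 0 → ε ≠ 0 →
        t ^ 2 ≠ g ^ 2 * f.map (Int.castRingHom ℂ) + C ε * (C (e : ℂ) * X + C (r : ℂ)) ^ (m / p)

theorem kummerQ (m : ℕ) (hm : Odd m) (hm1 : 1 < m) (D : ℤ) (hD : D ≠ 0) (t1 t2 : ℚ)
    (ht : t1 ^ 2 - D * t2 ^ 2 ≠ 0) :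
    ∃ K : ℕ, 1 ≤ K ∧ ∀ (f A B : ℤ[X]) (c e r : ℤ) (M : ℕ), Hyp m D f A B c e r M →
      ∀ (x y : ℤ) (u v : ℚ), y ^ 2 = D * (A.eval x) ^ 2 + c * (e * x + r) ^ m →
      (∀ s : ℂ, s ^ 2 = D → ((t1 : ℂ) + t2 * s) * (u + v * s) ^ m
        = y + (A.eval x : ℤ) * s) →
      x.natAbs ≤ (K * M) ^ ((m + 1) ^ 2 * kE m) := by
  obtain ⟨n3, hn3⟩ : ∃ n3 : ℤ, n3 = t1.den * t2.den := ⟨_, rfl⟩
  obtain ⟨n1, hn1⟩ : ∃ n1 : ℤ, n1 = t1.num * t2.den := ⟨_, rfl⟩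
  obtain ⟨n2, hn2⟩ : ∃ n2 : ℤ, n2 = t2.num * t1.den := ⟨_, rfl⟩
  have hd1 : (t1.den : ℤ) ≠ 0 := by exact_mod_cast t1.den_ne_zero
  have hd2 : (t2.den : ℤ) ≠ 0 := by exact_mod_cast t2.den_ne_zero
  have h3 : n3 ≠ 0 := by rw [hn3]; exact mul_ne_zero hd1 hd2
  have e1 : (n1 : ℚ) = n3 * t1 := by
    rw [hn1, hn3]; push_cast
    nth_rewrite 3 [← Rat.num_div_den t1]
    have : (t1.den : ℚ) ≠ 0 := by exact_mod_cast t1.den_ne_zero
    field_simp
  have e2 : (n2 : ℚ) = n3 * t2 := by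
    rw [hn2, hn3]; push_cast
    nth_rewrite 3 [← Rat.num_div_den t2]
    have : (t2.den : ℚ) ≠ 0 := by exact_mod_cast t2.den_ne_zero
    field_simp
  have hN : n1 ^ 2 - D * n2 ^ 2 ≠ 0 := by
    intro h0
    have h4 : (n1 : ℚ) ^ 2 - D * (n2 : ℚ) ^ 2 = 0 := by exact_mod_cast h0
    rw [e1, e2] at h4
    have h5 : (n3 : ℚ) ^ 2 * (t1 ^ 2 - D * t2 ^ 2) = 0 := by linear_combination h4
    rcases mul_eq_zero.1 h5 with h6 | h6
    · exact pow_ne_zero 2 (by exact_mod_cast h3) h6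
    · exact ht h6
  obtain ⟨K, hK1, hK⟩ := kummer m hm hm1 D hD n1 n2 n3 h3 hN
  refine ⟨K, hK1, ?_⟩
  intro f A B c e r M H x y u v hy hcl
  apply hK f A B c e r M H.hc H.he H.hcM H.heM H.hrM H.hAM H.hfac H.hAd H.hsq H.hpr x y u v hy
  intro s hs
  have e1' : (n1 : ℂ) = n3 * t1 := by exact_mod_cast congrArg (fun r : ℚ => (r : ℂ)) e1
  have e2' : (n2 : ℂ) = n3 * t2 := by exact_mod_cast congrArg (fun r : ℚ => (r : ℂ)) e2
  rw [e1', e2', ← hcl s hs]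
  ring

/-- finitely many classes, as pairs of rational numbers -/
theorem classesQ (S : Finset ℕ) (hS : ∀ p ∈ S, p ≠ 0) (D : ℤ) (hD : D ≠ 0) (m : ℕ) (hm : 0 < m) :
    ∃ T : Finset (ℚ × ℚ), (∀ t ∈ T, t.1 ^ 2 - D * t.2 ^ 2 ≠ 0) ∧ ∀ y a c l : ℤ, c ≠ 0 → l ≠ 0 →
      y ^ 2 = D * a ^ 2 + c * l ^ m → (∀ p : ℕ, p.Prime → (p : ℤ) ∣ c → p ∈ S) →
      (∀ p : ℕ, p.Prime → p ∉ S → (p : ℤ) ∣ l → ¬ (p : ℤ) ∣ a) →
      ∃ t ∈ T, ∃ u v : ℚ, ∀ s : ℂ, s ^ 2 = D →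
        ((t.1 : ℂ) + t.2 * s) * (u + v * s) ^ m = y + a * s := by
  classical
  by_cases hsq : IsSquare D
  · obtain ⟨δ, hδ⟩ := hsq
    have hδ0 : δ ≠ 0 := by rintro rfl; exact hD (by rw [hδ, mul_zero])
    have hδq : (δ : ℚ) ≠ 0 := by exact_mod_cast hδ0
    have hDq : (D : ℚ) = δ ^ 2 := by rw [hδ]; push_cast; ring
    obtain ⟨T1, hT10, hT1⟩ := classes ℚ S hS D hD (δ : ℚ) hDq.symm m hm
    obtain ⟨T2, hT20, hT2⟩ := classes ℚ S hS D hD (-δ : ℚ) (by rw [neg_sq]; exact hDq.symm) m hm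
    refine ⟨(T1 ×ˢ T2).image (fun t => ((t.1 + t.2) / 2, (t.1 - t.2) / (2 * δ))), ?_, ?_⟩
    · intro t ht
      obtain ⟨⟨a, b⟩, hab, rfl⟩ := Finset.mem_image.1 ht
      rw [Finset.mem_product] at hab
      simp only
      rw [hDq]
      have h1 : ((a + b) / 2) ^ 2 - (δ : ℚ) ^ 2 * ((a - b) / (2 * δ)) ^ 2 = a * b := by
        field_simp; ring
      rw [h1]
      exact mul_ne_zero (hT10 a hab.1) (hT20 b hab.2)
    · intro y a c l hc hl hy hcS hal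
      obtain ⟨a1, ha1, w1, hw1⟩ := hT1 y a c l hc hl hy hcS hal
      obtain ⟨b1, hb1, w2, hw2⟩ := hT2 y a c l hc hl hy hcS hal
      refine ⟨((a1 + b1) / 2, (a1 - b1) / (2 * δ)),
        Finset.mem_image.2 ⟨(a1, b1), Finset.mem_product.2 ⟨ha1, hb1⟩, rfl⟩,
        (w1 + w2) / 2, (w1 - w2) / (2 * δ), ?_⟩
      intro s hs
      have hδc : (δ : ℂ) ≠ 0 := by exact_mod_cast hδ0
      have hss : (s - δ) * (s + δ) = 0 := by
        have : (D : ℂ) = δ ^ 2 := by rw [hδ]; push_cast; ring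
        linear_combination hs + this
      have hw1' : (y : ℂ) + a * δ = a1 * w1 ^ m := by
        exact_mod_cast congrArg (fun r : ℚ => (r : ℂ)) hw1
      have hw2' : (y : ℂ) + a * -δ = b1 * w2 ^ m := by
        exact_mod_cast congrArg (fun r : ℚ => (r : ℂ)) hw2
      rcases mul_eq_zero.1 hss with h | h
      · have hsd : s = δ := sub_eq_zero.1 h
        rw [hsd, hw1']
        push_cast
        congr 1
        · field_simp; ring
        · congr 1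
          field_simp; ring
      · have hsd : s = -δ := eq_neg_of_add_eq_zero_left h
        rw [hsd, hw2']
        push_cast
        congr 1
        · field_simp; ring
        · congr 1
          field_simp; ring
  · have hF : Fact (∀ r : ℚ, r ^ 2 ≠ (D : ℚ) + 0 * r) := by
      refine ⟨fun r hr => hsq ?_⟩
      rw [← Rat.isSquare_intCast_iff]
      exact ⟨r, by rw [← sq, hr]; ring⟩
    have hNF : NumberField (QuadraticAlgebra ℚ (D : ℚ) 0) := by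
      constructor
    obtain ⟨T, hT0, hT⟩ := classes (QuadraticAlgebra ℚ (D : ℚ) 0) S hS D hD
      QuadraticAlgebra.omega (by
        rw [sq, QuadraticAlgebra.omega_mul_omega_eq_mk]
        ext <;> simp) m hm
    refine ⟨T.image (fun t => (t.re, t.im)), ?_, ?_⟩
    · intro t ht
      obtain ⟨z, hz, rfl⟩ := Finset.mem_image.1 ht
      have h1 : QuadraticAlgebra.norm z ≠ 0 := by
        intro h2
        rw [QuadraticAlgebra.norm_eq_zero_iff_eq_zero] at h2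
        exact hT0 z hz h2
      rw [QuadraticAlgebra.norm_def] at h1
      intro h3
      apply h1
      simp only at h3
      linear_combination h3
    · intro y a c l hc hl hy hcS hal
      obtain ⟨t, ht, w, hw⟩ := hT y a c l hc hl hy hcS hal
      refine ⟨(t.re, t.im), Finset.mem_image.2 ⟨t, ht, rfl⟩, w.re, w.im, ?_⟩
      intro s hs
      let σ : QuadraticAlgebra ℚ (D : ℚ) 0 →ₐ[ℚ] ℂ := QuadraticAlgebra.lift ⟨s, by
        rw [← sq, hs]; simp⟩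
      have hσ : ∀ z : QuadraticAlgebra ℚ (D : ℚ) 0, σ z = z.re + z.im * s := by
        intro z
        change z.re • (1 : ℂ) + z.im • s = _
        rw [Algebra.smul_def, Algebra.smul_def, mul_one]
        rfl
      have h2 := congrArg σ hw
      rw [map_add, map_mul, map_mul, map_pow, hσ t, hσ w, hσ QuadraticAlgebra.omega] at h2
      simp at h2
      rw [← h2]

/-- all points with a coprimality condition, `D` fixed -/
theorem fixedD (m : ℕ) (hm : Odd m) (hm1 : 1 < m) (D : ℤ) (hD : D ≠ 0) (S : Finset ℕ)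
    (hS : ∀ p ∈ S, p ≠ 0) :
    ∃ K : ℕ, 1 ≤ K ∧ ∀ (f A B : ℤ[X]) (c e r : ℤ) (M : ℕ), Hyp m D f A B c e r M →
      (∀ p : ℕ, p.Prime → (p : ℤ) ∣ c → p ∈ S) →
      ∀ (x y : ℤ), y ^ 2 = D * (A.eval x) ^ 2 + c * (e * x + r) ^ m →
      (∀ p : ℕ, p.Prime → p ∉ S → (p : ℤ) ∣ e * x + r → ¬ (p : ℤ) ∣ A.eval x) →
      x.natAbs ≤ (K * M) ^ ((m + 1) ^ 2 * kE m) := by
  obtain ⟨T, hT0, hT⟩ := classesQ S hS D hD m (by omega)
  have hex : ∀ t : ℚ × ℚ, ∃ K : ℕ, 1 ≤ K ∧ (t ∈ T →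
      ∀ (f A B : ℤ[X]) (c e r : ℤ) (M : ℕ), Hyp m D f A B c e r M →
      ∀ (x y : ℤ) (u v : ℚ), y ^ 2 = D * (A.eval x) ^ 2 + c * (e * x + r) ^ m →
      (∀ s : ℂ, s ^ 2 = D → ((t.1 : ℂ) + t.2 * s) * (u + v * s) ^ m
        = y + (A.eval x : ℤ) * s) →
      x.natAbs ≤ (K * M) ^ ((m + 1) ^ 2 * kE m)) := by
    intro t
    by_cases ht : t ∈ T
    · obtain ⟨K, hK1, hK⟩ := kummerQ m hm hm1 D hD t.1 t.2 (hT0 t ht)
      exact ⟨K, hK1, fun _ => hK⟩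
    · exact ⟨1, le_rfl, fun h => absurd h ht⟩
  choose F hF1 hF using hex
  refine ⟨∑ t ∈ T, F t + 1, by omega, ?_⟩
  intro f A B c e r M H hcS x y hy hal
  have hM : 1 ≤ M := by
    have := Int.natAbs_ne_zero.2 H.hc
    have := H.hcM
    omega
  by_cases hl : e * x + r = 0
  · have h1 : x.natAbs ≤ M := by
      have h2 : e * x = -r := by linear_combination hl
      have h3 := congrArg Int.natAbs h2
      rw [Int.natAbs_mul, Int.natAbs_neg] at h3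
      have h4 : x.natAbs ≤ e.natAbs * x.natAbs :=
        Nat.le_mul_of_pos_left _ (Int.natAbs_pos.2 H.he)
      exact (h4.trans h3.le).trans H.hrM
    refine h1.trans ?_
    have h5 : M ≤ (∑ t ∈ T, F t + 1) * M := Nat.le_mul_of_pos_left _ (by omega)
    refine h5.trans (Nat.le_self_pow ?_ _)
    have := kE_pos m
    exact Nat.mul_ne_zero (pow_ne_zero _ (by omega)) (by omega)
  · obtain ⟨t, ht, u, v, huv⟩ := hT y (A.eval x) c (e * x + r) H.hc hl hy hcS hal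
    refine (hF t ht f A B c e r M H x y u v hy huv).trans ?_
    apply Nat.pow_le_pow_left
    apply Nat.mul_le_mul_right
    have h6 : F t ≤ ∑ t ∈ T, F t := Finset.single_le_sum (fun _ _ => Nat.zero_le _) ht
    omega

/-- all points with a coprimality condition, `D` composed of primes of `S` -/
theorem varD (m : ℕ) (hm : Odd m) (hm1 : 1 < m) (S : Finset ℕ) (hS : ∀ p ∈ S, p ≠ 0) :
    ∃ K : ℕ, 1 ≤ K ∧ ∀ (D : ℤ) (f A B : ℤ[X]) (c e r : ℤ) (M : ℕ), D ≠ 0 → D.natAbs ≤ M →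
      Hyp m D f A B c e r M →
      (∀ p : ℕ, p.Prime → (p : ℤ) ∣ D → p ∈ S) →
      (∀ p : ℕ, p.Prime → (p : ℤ) ∣ c → p ∈ S) →
      ∀ (x y : ℤ), y ^ 2 = D * (A.eval x) ^ 2 + c * (e * x + r) ^ m →
      (∀ p : ℕ, p.Prime → p ∉ S → (p : ℤ) ∣ e * x + r → ¬ (p : ℤ) ∣ A.eval x) →
      x.natAbs ≤ (K * M) ^ (2 * (m + 1) ^ 2 * kE m) := by
  obtain ⟨n, hn⟩ : ∃ n : ℕ, n = ∏ p ∈ S, p := ⟨_, rfl⟩
  have hn0 : n ≠ 0 := by rw [hn]; exact Finset.prod_ne_zero_iff.2 hS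
  have hex : ∀ D : ℤ, ∃ K : ℕ, 1 ≤ K ∧ (D ≠ 0 →
      ∀ (f A B : ℤ[X]) (c e r : ℤ) (M : ℕ), Hyp m D f A B c e r M →
      (∀ p : ℕ, p.Prime → (p : ℤ) ∣ c → p ∈ S) →
      ∀ (x y : ℤ), y ^ 2 = D * (A.eval x) ^ 2 + c * (e * x + r) ^ m →
      (∀ p : ℕ, p.Prime → p ∉ S → (p : ℤ) ∣ e * x + r → ¬ (p : ℤ) ∣ A.eval x) →
      x.natAbs ≤ (K * M) ^ ((m + 1) ^ 2 * kE m)) := by
    intro D
    by_cases hD : D = 0
    · exact ⟨1, le_rfl, fun h => absurd hD h⟩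
    · obtain ⟨K, hK1, hK⟩ := fixedD m hm hm1 D hD S hS
      exact ⟨K, hK1, fun _ => hK⟩
  choose F hF1 hF using hex
  refine ⟨∑ D ∈ Finset.Icc (-(n : ℤ)) n, F D + 1, by omega, ?_⟩
  intro D f A B c e r M hD hDM H hDS hcS x y hy hal
  have hM : 1 ≤ M := by
    have := Int.natAbs_ne_zero.2 H.hc
    have := H.hcM
    omega
  -- the squarefree part of D
  obtain ⟨a, b, hab, ha⟩ := Nat.sq_mul_squarefree D.natAbs
  have hDn : D.natAbs ≠ 0 := Int.natAbs_ne_zero.2 hD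
  have hb0 : b ≠ 0 := by
    rintro rfl
    rw [zero_pow two_ne_zero, zero_mul] at hab
    exact hDn hab.symm
  have ha0 : a ≠ 0 := by
    rintro rfl
    rw [mul_zero] at hab
    exact hDn hab.symm
  have han : a ≤ n := by
    have h1 : a ∣ n := by
      rw [← Nat.prod_primeFactors_of_squarefree ha, hn]
      apply Finset.prod_dvd_prod_of_subset
      intro p hp
      apply hDS p (Nat.prime_of_mem_primeFactors hp)
      rw [Int.natCast_dvd, ← hab]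
      exact (Nat.dvd_of_mem_primeFactors hp).mul_left _
    exact Nat.le_of_dvd (Nat.pos_of_ne_zero hn0) h1
  have hbS : ∀ p : ℕ, p.Prime → p ∣ b → p ∈ S := by
    intro p hp hpb
    apply hDS p hp
    rw [Int.natCast_dvd, ← hab]
    exact (hpb.trans (dvd_pow_self _ two_ne_zero)).mul_right _
  have hbM : b ≤ M := by
    have h1 : b ≤ D.natAbs := by
      rw [← hab]
      calc b ≤ b ^ 2 := Nat.le_self_pow two_ne_zero _
        _ ≤ b ^ 2 * a := Nat.le_mul_of_pos_right _ (Nat.pos_of_ne_zero ha0)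
    exact h1.trans hDM
  obtain ⟨D0, hD0, hDD0⟩ : ∃ D0 : ℤ, D = D0 * (b : ℤ) ^ 2 ∧ D0.natAbs = a := by
    refine ⟨D.sign * a, ?_, ?_⟩
    · have h1 : D.sign * (D.natAbs : ℤ) = D := Int.sign_mul_natAbs D
      have h2 : (D.natAbs : ℤ) = (b : ℤ) ^ 2 * a := by rw [← hab]; push_cast; ring
      calc D = D.sign * (D.natAbs : ℤ) := h1.symm
        _ = D.sign * a * (b : ℤ) ^ 2 := by rw [h2]; ring
    · rw [Int.natAbs_mul, Int.natAbs_sign_of_ne_zero hD]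
      simp
  have hD00 : D0 ≠ 0 := by
    rintro rfl
    simp at hDD0
    exact ha0 hDD0.symm
  have hmem : D0 ∈ Finset.Icc (-(n : ℤ)) n := by
    rw [Finset.mem_Icc, ← abs_le]
    have : |D0| = (D0.natAbs : ℤ) := Int.abs_eq_natAbs D0
    rw [this, hDD0]
    exact_mod_cast han
  have H' : Hyp m D0 f (C (b : ℤ) * A) B c e r (M ^ 2) := by
    have hMM : M ≤ M ^ 2 := Nat.le_self_pow two_ne_zero _
    refine ⟨H.hc, H.he, H.hcM.trans hMM, H.heM.trans hMM, H.hrM.trans hMM, ?_, ?_, ?_, H.hsq,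
      H.hpr⟩
    · intro i
      rw [coeff_C_mul, Int.natAbs_mul, Int.natAbs_natCast, sq]
      exact Nat.mul_le_mul hbM (H.hAM i)
    · rw [H.hfac, hD0, C_mul, C_pow]
      ring
    · exact lt_of_le_of_lt (Nat.mul_le_mul_left _ (natDegree_C_mul_le _ _)) H.hAd
  have hfin := hF D0 hD00 f _ B c e r (M ^ 2) H' hcS x y (by
    rw [hy, hD0, eval_mul, eval_C]; ring) (by
    intro p hp hpS hpl hpA
    rw [eval_mul, eval_C] at hpA
    rcases (Nat.prime_iff_prime_int.1 hp).dvd_or_dvd hpA with h1 | h1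
    · exact hpS (hbS p hp (by exact_mod_cast h1))
    · exact hal p hp hpS hpl h1)
  refine hfin.trans ?_
  have hK : F D0 ≤ ∑ D ∈ Finset.Icc (-(n : ℤ)) n, F D + 1 := by
    have h6 : F D0 ≤ ∑ D ∈ Finset.Icc (-(n : ℤ)) n, F D :=
      Finset.single_le_sum (fun _ _ => Nat.zero_le _) hmem
    omega
  obtain ⟨K, hKd⟩ : ∃ K, K = ∑ D ∈ Finset.Icc (-(n : ℤ)) n, F D + 1 := ⟨_, rfl⟩
  rw [← hKd] at hK ⊢
  have hK1 : 1 ≤ K := by omega
  have h7 : F D0 * M ^ 2 ≤ (K * M) ^ 2 := by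
    rw [mul_pow]
    apply Nat.mul_le_mul_right
    exact hK.trans (Nat.le_self_pow two_ne_zero _)
  calc (F D0 * M ^ 2) ^ ((m + 1) ^ 2 * kE m) ≤ ((K * M) ^ 2) ^ ((m + 1) ^ 2 * kE m) :=
        Nat.pow_le_pow_left h7 _
    _ = _ := by rw [← pow_mul, mul_assoc]

end Pool.Agent.H16V
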