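import Pool.Agent.H16V.Pz

/-!
The bound in a Kummer class.
-/

set_option autoImplicit false

open Polynomial Pool.Agent.H322R2 IntermediateField

namespace Pool.Agent.H16V

lemma exists_s (D : ℤ) (hD : D ≠ 0) : ∃ s : ℂ, s ^ 2 = D ∧ s ≠ 0 := by
  obtain ⟨s, hs⟩ := IsAlgClosed.exists_pow_nat_eq (D : ℂ) (n := 2) (by norm_num)
  refine ⟨s, hs, ?_⟩
  rintro rfl
  apply hD
  have : (D : ℂ) = 0 := by rw [← hs]; ring
  exact_mod_cast this

/-- rational algebraic integers in `ℂ` -/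
lemma int_of_integral (r : ℚ) (h : IsIntegral ℤ ((r : ℚ) : ℂ)) : ∃ z : ℤ, r = z := by
  have h1 : IsIntegral ℤ r := by
    have h2 : IsIntegral ℤ (algebraMap ℚ ℂ r) := h
    exact (isIntegral_algebraMap_iff (algebraMap ℚ ℂ).injective).1 h2
  obtain ⟨z, hz⟩ := IsIntegrallyClosed.isIntegral_iff.1 h1
  exact ⟨z, hz.symm⟩

/-- denominators of `u` and `v` -/
lemma denoms (m : ℕ) (hm : 0 < m) (D : ℤ) (n1 n2 n3 a y : ℤ) (u v : ℚ) (s : ℂ)
    (hs : s ^ 2 = D)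
    (h1 : ((n1 : ℂ) + n2 * s) * (u + v * s) ^ m = n3 * (y + a * s))
    (h2 : ((n1 : ℂ) - n2 * s) * (u - v * s) ^ m = n3 * (y - a * s)) :
    (∃ U : ℤ, ((2 * (n1 ^ 2 - D * n2 ^ 2) * D : ℤ) : ℚ) * u = U) ∧
      (∃ V : ℤ, ((2 * (n1 ^ 2 - D * n2 ^ 2) * D : ℤ) : ℚ) * v = V) := by
  have hiz : ∀ z : ℤ, IsIntegral ℤ (z : ℂ) := fun z => isIntegral_algebraMap (R := ℤ) (x := z)
  have his : IsIntegral ℤ s := by
    apply IsIntegral.of_pow (n := 2) (by norm_num)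
    rw [hs]; exact hiz D
  obtain ⟨N1, hN1⟩ : ∃ N1 : ℂ, N1 = ((n1 ^ 2 - D * n2 ^ 2 : ℤ) : ℂ) := ⟨_, rfl⟩
  have hN1' : N1 = ((n1 : ℂ) - n2 * s) * (n1 + n2 * s) := by
    rw [hN1]; push_cast; rw [← hs]; ring
  have hiN : IsIntegral ℤ N1 := by rw [hN1]; exact hiz _
  obtain ⟨k, rfl⟩ : ∃ k, m = k + 1 := ⟨m - 1, by omega⟩
  have i1 : IsIntegral ℤ (N1 * (u + v * s)) := by
    apply IsIntegral.of_pow (n := k + 1) (by omega)
    have : (N1 * (u + v * s)) ^ (k + 1) = N1 ^ k * (((n1 : ℂ) - n2 * s) * (n3 * (y + a * s))) := by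
      rw [← h1, mul_pow, pow_succ N1]
      nth_rewrite 2 [hN1']
      ring
    rw [this]
    exact (hiN.pow _).mul (((hiz _).sub ((hiz _).mul his)).mul
      ((hiz _).mul ((hiz _).add ((hiz _).mul his))))
  have i2 : IsIntegral ℤ (N1 * (u - v * s)) := by
    apply IsIntegral.of_pow (n := k + 1) (by omega)
    have : (N1 * (u - v * s)) ^ (k + 1) = N1 ^ k * (((n1 : ℂ) + n2 * s) * (n3 * (y - a * s))) := by
      rw [← h2, mul_pow, pow_succ N1]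
      nth_rewrite 2 [hN1']
      ring
    rw [this]
    exact (hiN.pow _).mul (((hiz _).add ((hiz _).mul his)).mul
      ((hiz _).mul ((hiz _).sub ((hiz _).mul his))))
  constructor
  · apply int_of_integral
    have : (((((2 * (n1 ^ 2 - D * n2 ^ 2) * D : ℤ) : ℚ) * u : ℚ)) : ℂ)
        = D * (N1 * (u + v * s) + N1 * (u - v * s)) := by
      rw [hN1]; push_cast; ring
    rw [this]
    exact (hiz _).mul (i1.add i2)
  · apply int_of_integral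
    have : (((((2 * (n1 ^ 2 - D * n2 ^ 2) * D : ℤ) : ℚ) * v : ℚ)) : ℂ)
        = s * (N1 * (u + v * s) - N1 * (u - v * s)) := by
      rw [hN1]; push_cast; rw [← hs]; ring
    rw [this]
    exact his.mul (i1.sub i2)

/-- the point of the plane curve -/
lemma point (m : ℕ) (D : ℤ) (hD : D ≠ 0) (n1 n2 n3 : ℤ) (A : ℤ[X]) (x a E y : ℤ) (u v : ℚ)
    (h : ℕ) (p N U V : ℤ) (q : ℕ) (hA : A.natDegree ≤ h) (hN : N ≠ 0) (hq : q ≠ 0)
    (hU : (N : ℚ) * u = U) (hV : (N : ℚ) * v = V)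
    (hx : (x : ℚ) = p / q * (u ^ 2 - D * v ^ 2)) (hAx : A.eval x = E * a)
    (hcl : ∀ s : ℂ, s ^ 2 = D → ((n1 : ℂ) + n2 * s) * (u + v * s) ^ m = n3 * (y + a * s)) :
    MvPolynomial.eval ![U, V]
      (FF D n1 n2 (E * ((q : ℤ) ^ h * N ^ (2 * h))) m (Pz A (n3 * N ^ m) N p q h)) = 0 := by
  obtain ⟨s, hs, hs0⟩ := exists_s D hD
  have hN' : (N : ℂ) ≠ 0 := by exact_mod_cast hN
  have hq' : (q : ℂ) ≠ 0 := by exact_mod_cast hq
  have hU' : (N : ℂ) * u = U := by exact_mod_cast congrArg (fun r : ℚ => (r : ℂ)) hU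
  have hV' : (N : ℂ) * v = V := by exact_mod_cast congrArg (fun r : ℚ => (r : ℂ)) hV
  have hx' : (x : ℂ) = p / q * (u ^ 2 - D * v ^ 2) := by
    exact_mod_cast congrArg (fun r : ℚ => (r : ℂ)) hx
  obtain ⟨ρ, hρ⟩ : ∃ ρ : MvPolynomial (Fin 2) ℤ →+* ℂ,
    ρ = (Int.castRingHom ℂ).comp (MvPolynomial.eval ![U, V]) := ⟨_, rfl⟩
  have hρ0 : ρ (MvPolynomial.X 0) = N * u := by rw [hρ, hU']; simp
  have hρ1 : ρ (MvPolynomial.X 1) = N * v := by rw [hρ, hV']; simp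
  have hρC : ∀ z : ℤ, ρ (MvPolynomial.C z) = z := by intro z; rw [hρ]; simp
  have h1 := Phi_eval ρ D n1 n2 s hs m
  have h2 := hcl s hs
  have h3 := hcl (-s) (by rw [neg_sq]; exact hs)
  rw [hρ0, hρ1] at h1
  have h4 : ((N : ℂ) * u + s * (N * v)) ^ m = N ^ m * (u + v * s) ^ m := by
    rw [← mul_pow]; congr 1; ring
  have h5 : ((N : ℂ) * u - s * (N * v)) ^ m = N ^ m * (u + v * -s) ^ m := by
    rw [← mul_pow]; congr 1; ring
  have h6 : ρ (Phi D n1 n2 m) = N ^ m * n3 * a := by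
    have h7 : 2 * s ≠ 0 := mul_ne_zero two_ne_zero hs0
    apply mul_left_cancel₀ h7
    rw [h1, h4, h5]
    linear_combination (N : ℂ) ^ m * h2 - (N : ℂ) ^ m * h3
  have h8 : ρ (aeval (Qf D) (Pz A (n3 * N ^ m) N p q h))
      = (((n3 * N ^ m : ℤ) : ℂ) * ((q : ℂ) ^ h * (N : ℂ) ^ (2 * h))) * (A.eval x : ℤ) := by
    have h9 : ρ (aeval (Qf D) (Pz A (n3 * N ^ m) N p q h))
        = ((Pz A (n3 * N ^ m) N p q h).map (Int.castRingHom ℂ)).eval (ρ (Qf D)) := by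
      have h10 : ρ.comp (aeval (Qf D) : ℤ[X] →ₐ[ℤ] _).toRingHom
          = (evalRingHom (ρ (Qf D))).comp (mapRingHom (Int.castRingHom ℂ)) := by
        apply Polynomial.ringHom_ext
        · intro a
          simp
        · simp
      exact congrArg (fun g : ℤ[X] →+* ℂ => g (Pz A (n3 * N ^ m) N p q h)) h10
    rw [h9, Pz_map A _ N p q h hA hN hq, eval_mul, eval_C, eval_comp, eval_mul, eval_C, eval_X]
    congr 1
    have h11 : (p : ℂ) / (q * N ^ 2) * ρ (Qf D) = x := by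
      rw [Qf, map_sub, map_mul, map_pow, map_pow, hρ0, hρ1, hρC, hx']
      field_simp
    rw [h11, eval_intCast_map, eq_intCast, Int.cast_id]
  have h12 : ρ (FF D n1 n2 (E * ((q : ℤ) ^ h * N ^ (2 * h))) m
      (Pz A (n3 * N ^ m) N p q h)) = 0 := by
    rw [FF, map_sub, map_mul, hρC, h6, h8, hAx]
    push_cast
    ring
  rw [hρ, RingHom.comp_apply] at h12
  have h13 : ((MvPolynomial.eval ![U, V]
      (FF D n1 n2 (E * ((q : ℤ) ^ h * N ^ (2 * h))) m (Pz A (n3 * N ^ m) N p q h)) : ℤ) : ℂ)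
      = 0 := h12
  exact_mod_cast h13

/-- irreducibility of the curve -/
lemma irr_curve (m : ℕ) (hm : Odd m) (D : ℤ) (hD : D ≠ 0) (n1 n2 n3 c e r : ℤ) (f A B : ℤ[X])
    (he : e ≠ 0) (hN1 : n1 ^ 2 - D * n2 ^ 2 ≠ 0) (h3 : n3 ≠ 0)
    (h : ℕ) (hh : 2 * h < m) (p N : ℤ) (q : ℕ) (hp : p ≠ 0) (hA : A.natDegree ≤ h) (hN : N ≠ 0)
    (hq : q ≠ 0) (hpq : p ^ m * (n3 ^ 2 * c) = (n1 ^ 2 - D * n2 ^ 2) * (q : ℤ) ^ m)
    (hfac : B ^ 2 * f = C D * A ^ 2 + C c * (C e * X + C r) ^ m)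
    (hsq : Squarefree (f.map (Int.castRingHom ℚ)))
    (hpr : ∀ p : ℕ, p.Prime → p ∣ m → ∀ (t g : ℂ[X]) (ε : ℂ), g ≠ 0 → ε ≠ 0 →
      t ^ 2 ≠ g ^ 2 * f.map (Int.castRingHom ℂ) + C ε * (C (e : ℂ) * X + C (r : ℂ)) ^ (m / p)) :
    Irreducible (MvPolynomial.map (Int.castRingHom ℚ)
      (FF D n1 n2 (e ^ h * ((q : ℤ) ^ h * N ^ (2 * h))) m
        (Pz (Ash A e r h) (n3 * N ^ m) N p q h))) := by
  have hN' : (N : ℂ) ≠ 0 := by exact_mod_cast hN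
  have hq' : (q : ℂ) ≠ 0 := by exact_mod_cast hq
  have hp' : (p : ℂ) ≠ 0 := by exact_mod_cast hp
  have h3' : (n3 : ℂ) ≠ 0 := by exact_mod_cast h3
  have he' : (e : ℂ) ≠ 0 := by exact_mod_cast he
  obtain ⟨l, hl⟩ : ∃ l : ℂ, l = (p : ℂ) / (q * N ^ 2) := ⟨_, rfl⟩
  have hl0 : l ≠ 0 := by
    rw [hl]; exact div_ne_zero hp' (mul_ne_zero hq' (pow_ne_zero _ hN'))
  obtain ⟨κ, hκ⟩ : ∃ κ : ℂ, κ = ((n3 * N ^ m : ℤ) : ℂ) * ((q : ℂ) ^ h * (N : ℂ) ^ (2 * h)) :=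
    ⟨_, rfl⟩
  have hκ0 : κ ≠ 0 := by
    rw [hκ]; push_cast
    exact mul_ne_zero (mul_ne_zero h3' (pow_ne_zero _ hN'))
      (mul_ne_zero (pow_ne_zero _ hq') (pow_ne_zero _ hN'))
  obtain ⟨ℓ, hℓ⟩ : ∃ ℓ : ℂ[X], ℓ = C (l / e) * X - C (r / e : ℂ) := ⟨_, rfl⟩
  have hle0 : l / e ≠ 0 := div_ne_zero hl0 he'
  apply irr_FF D hD n1 n2 _ hN1 (mul_ne_zero (pow_ne_zero _ he)
    (mul_ne_zero (pow_ne_zero _ (by exact_mod_cast hq)) (pow_ne_zero _ hN))) m hm _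
    (by have := Pz_natDegree (Ash A e r h) (n3 * N ^ m) N p q h; omega)
    ((κ * (e : ℂ) ^ h) ^ 2) ((B.map (Int.castRingHom ℂ)).comp ℓ)
    ((f.map (Int.castRingHom ℂ)).comp ℓ) (pow_ne_zero _ (mul_ne_zero hκ0 (pow_ne_zero _ he')))
  · rw [Pz_map (Ash A e r h) _ N p q h (Ash_natDegree A e r h) hN hq, ← hκ, ← hl,
      Ash_map A e r h hA he, mul_comp, C_comp, comp_assoc]
    have h0 : (C (1 / (e : ℂ)) * (X - C (r : ℂ))).comp (C l * X) = ℓ := by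
      have e3 : (C (1 / (e : ℂ)) * C l : ℂ[X]) = C (l / e) := by
        rw [← C_mul]; congr 1; field_simp
      have e4 : (C (1 / (e : ℂ)) * C (r : ℂ) : ℂ[X]) = C (r / e : ℂ) := by
        rw [← C_mul]; congr 1; field_simp
      rw [hℓ, mul_comp, sub_comp, X_comp, C_comp, C_comp]
      linear_combination (X : ℂ[X]) * e3 - e4
    rw [h0]
    have h4 := congrArg (fun g : ℤ[X] => (g.map (Int.castRingHom ℂ)).comp ℓ) hfac
    have h41 : (C (e : ℂ) * ℓ + C (r : ℂ)) = C l * X := by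
      have e3 : (C (e : ℂ) * C (l / e) : ℂ[X]) = C l := by
        rw [← C_mul]; congr 1; field_simp
      have e4 : (C (e : ℂ) * C (r / e : ℂ) : ℂ[X]) = C (r : ℂ) := by
        rw [← C_mul]; congr 1; field_simp
      rw [hℓ]
      linear_combination (X : ℂ[X]) * e3 - e4
    simp only [Polynomial.map_mul, Polynomial.map_pow, Polynomial.map_add, map_C, map_X, mul_comp,
      pow_comp, add_comp, C_comp, X_comp] at h4
    have e1 : (Int.castRingHom ℂ) D = (D : ℂ) := rfl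
    have e2 : (Int.castRingHom ℂ) c = (c : ℂ) := rfl
    have e3 : (Int.castRingHom ℂ) e = (e : ℂ) := rfl
    have e4 : (Int.castRingHom ℂ) r = (r : ℂ) := rfl
    rw [e1, e2, e3, e4, h41, mul_pow, ← C_pow] at h4
    have h5 : (κ * (e : ℂ) ^ h) ^ 2 * ((c : ℂ) * l ^ m)
        = ((e ^ h * ((q : ℤ) ^ h * N ^ (2 * h))) ^ 2 * (n1 ^ 2 - D * n2 ^ 2) : ℤ) := by
      have h6 : (p : ℂ) ^ m * (n3 ^ 2 * c) = (n1 ^ 2 - D * n2 ^ 2) * (q : ℂ) ^ m := by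
        exact_mod_cast hpq
      rw [hκ, hl, div_pow, mul_pow (q : ℂ)]
      push_cast
      have h7 : ((N : ℂ) ^ 2) ^ m = (N ^ m) ^ 2 := by ring
      rw [h7]
      field_simp
      linear_combination h6
    have e5 : (C ((κ * (e : ℂ) ^ h) ^ 2) : ℂ[X]) = (C κ * C (e : ℂ) ^ h) ^ 2 := by
      rw [C_pow, C_mul, C_pow]
    rw [← h5, C_mul, C_mul, C_pow, e5]
    linear_combination (-((C κ : ℂ[X]) * C (e : ℂ) ^ h) ^ 2) * h4
  · have := sqf_comp f hsq (l / e) (r / e : ℂ) hle0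
    rw [← hℓ] at this
    exact this
  · intro p' hp1 hp2 t g ε hg hε ht
    obtain ⟨ℓ', hℓ'⟩ : ∃ ℓ' : ℂ[X], ℓ' = C (1 / l) * (C (e : ℂ) * X + C (r : ℂ)) := ⟨_, rfl⟩
    have hc1 : ℓ.comp ℓ' = X := by
      have e3 : (C (l / e) * (C (1 / l) * C (e : ℂ)) : ℂ[X]) = 1 := by
        rw [← C_mul, ← C_mul, ← C_1]; congr 1; field_simp
      have e4 : (C (l / e) * (C (1 / l) * C (r : ℂ)) : ℂ[X]) = C (r / e : ℂ) := by
        rw [← C_mul, ← C_mul]; congr 1; field_simp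
      rw [hℓ, hℓ', sub_comp, mul_comp, C_comp, X_comp, C_comp]
      linear_combination (X : ℂ[X]) * e3 + e4
    have hc2 : ℓ'.comp ℓ = X := by
      have e3 : (C (1 / l) * (C (e : ℂ) * C (l / e)) : ℂ[X]) = 1 := by
        rw [← C_mul, ← C_mul, ← C_1]; congr 1; field_simp
      have e4 : (C (e : ℂ) * C (r / e : ℂ) : ℂ[X]) = C (r : ℂ) := by
        rw [← C_mul]; congr 1; field_simp
      rw [hℓ, hℓ', mul_comp, add_comp, mul_comp, C_comp, C_comp, X_comp, C_comp]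
      linear_combination (X : ℂ[X]) * e3 - (C (1 / l) : ℂ[X]) * e4
    apply hpr p' hp1 hp2 (t.comp ℓ') (g.comp ℓ') (ε * (1 / l) ^ (m / p'))
    · intro h0
      apply hg
      have := congrArg (fun w : ℂ[X] => w.comp ℓ) h0
      simp only [comp_assoc, hc2, comp_X, zero_comp] at this
      exact this
    · exact mul_ne_zero hε (pow_ne_zero _ (one_div_ne_zero hl0))
    · have h6 := congrArg (fun w : ℂ[X] => w.comp ℓ') ht
      simp only [pow_comp, mul_comp, add_comp, comp_assoc, hc1, comp_X, C_comp, X_comp] at h6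
      rw [h6, C_mul, hℓ', mul_pow, C_pow]
      ring

end Pool.Agent.H16V
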