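import Mathlib

/-!
If `f = D A² + c (e X + r)^m`, then `D, A, c, e, r` are polynomially bounded by `f`.
-/

set_option autoImplicit false

open Polynomial

namespace Pool.Agent.H16V

lemma lin_pow_coeff (e r : ℤ) (R : ℕ) (he : e.natAbs ≤ R) (hr : r.natAbs ≤ R) (m i : ℕ) :
    (((C e * X + C r : ℤ[X]) ^ m).coeff i).natAbs ≤ (2 * R) ^ m := by
  induction m generalizing i with
  | zero =>
    rw [pow_zero, pow_zero, coeff_one]
    split_ifs <;> simp
  | succ m ih =>
    have h1 : (C e * X + C r : ℤ[X]) ^ (m + 1)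
        = C e * ((C e * X + C r : ℤ[X]) ^ m * X) + C r * (C e * X + C r : ℤ[X]) ^ m := by ring
    rw [h1, coeff_add, coeff_C_mul, coeff_C_mul]
    refine (Int.natAbs_add_le _ _).trans ?_
    rw [Int.natAbs_mul, Int.natAbs_mul]
    have h2 : (((C e * X + C r : ℤ[X]) ^ m * X).coeff i).natAbs ≤ (2 * R) ^ m := by
      cases i with
      | zero => rw [coeff_mul_X_zero]; simp
      | succ i => rw [coeff_mul_X]; exact ih i
    calc _ ≤ R * (2 * R) ^ m + R * (2 * R) ^ m :=
          Nat.add_le_add (Nat.mul_le_mul he h2) (Nat.mul_le_mul hr (ih i))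
      _ = _ := by rw [pow_succ]; ring

lemma lead_coeff (m : ℕ) (D c e r : ℤ) (he : e ≠ 0) (f A : ℤ[X]) (hAd : 2 * A.natDegree < m)
    (hf : f = C D * A ^ 2 + C c * (C e * X + C r) ^ m) : f.coeff m = c * e ^ m := by
  have h1 : (C D * A ^ 2).coeff m = 0 := by
    apply coeff_eq_zero_of_natDegree_lt
    refine lt_of_le_of_lt (natDegree_C_mul_le _ _) ?_
    rw [natDegree_pow]; exact hAd
  have h2 := coeff_pow_mul_natDegree (C e * X + C r : ℤ[X]) m
  rw [natDegree_linear he, leadingCoeff_linear he, mul_one] at h2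
  rw [hf, coeff_add, h1, zero_add, coeff_C_mul, h2]

theorem r_bound (m : ℕ) (hm3 : 3 ≤ m) (D c e r : ℤ) (hc : c ≠ 0) (he : e ≠ 0)
    (f A : ℤ[X]) (hAd : 2 * A.natDegree < m)
    (hf : f = C D * A ^ 2 + C c * (C e * X + C r) ^ m) (M : ℕ)
    (hfM : ∀ i, (f.coeff i).natAbs ≤ M) :
    c.natAbs ≤ M ∧ e.natAbs ≤ M ∧ r.natAbs ≤ 2 * m * (m + 2) * M ^ 2 := by
  have hlead := lead_coeff m D c e r he f A hAd hf
  have hcM : c.natAbs ≤ M := by
    have h1 := hfM m
    rw [hlead, Int.natAbs_mul] at h1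
    refine le_trans ?_ h1
    exact Nat.le_mul_of_pos_right _ (Int.natAbs_pos.2 (pow_ne_zero _ he))
  have heM : e.natAbs ≤ M := by
    have h1 := hfM m
    rw [hlead, Int.natAbs_mul, Int.natAbs_pow] at h1
    refine le_trans (Nat.le_self_pow (n := m) (by omega) e.natAbs) (le_trans ?_ h1)
    exact Nat.le_mul_of_pos_left _ (Int.natAbs_pos.2 hc)
  have hM1 : 1 ≤ M := by
    have := Int.natAbs_ne_zero.2 hc
    omega
  refine ⟨hcM, heM, ?_⟩
  by_cases hA0 : A.natDegree = 0
  · -- constant A
    obtain ⟨a, ha⟩ : ∃ a, A = C a := ⟨_, eq_C_of_natDegree_eq_zero hA0⟩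
    have h1 : f.coeff 1 = c * (m * r ^ (m - 1) * e) := by
      have h2 : (derivative f).coeff 0 = f.coeff 1 := by
        rw [coeff_derivative]; simp
      rw [← h2, hf, ha, derivative_add, ← C_pow, ← C_mul, derivative_C, zero_add,
        derivative_C_mul, derivative_pow, coeff_zero_eq_eval_zero]
      simp
    by_cases hr : r = 0
    · rw [hr]; simp
    have h3 := hfM 1
    rw [h1, Int.natAbs_mul, Int.natAbs_mul, Int.natAbs_mul, Int.natAbs_pow,
      Int.natAbs_natCast] at h3
    have h4 : r.natAbs ≤ M := by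
      refine le_trans ?_ h3
      calc r.natAbs ≤ r.natAbs ^ (m - 1) := Nat.le_self_pow (by omega) _
        _ = 1 * (1 * r.natAbs ^ (m - 1) * 1) := by ring
        _ ≤ _ := Nat.mul_le_mul (Int.natAbs_pos.2 hc) (Nat.mul_le_mul
            (Nat.mul_le_mul_right _ (by omega)) (Int.natAbs_pos.2 he))
    refine h4.trans ?_
    calc M ≤ M ^ 2 := Nat.le_self_pow two_ne_zero _
      _ = 1 * M ^ 2 := by rw [one_mul]
      _ ≤ _ := Nat.mul_le_mul_right _ (Nat.mul_pos (by omega) (by omega))
  · -- a root of A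
    have hdeg : (A.map (Int.castRingHom ℂ)).degree ≠ 0 := by
      rw [degree_map_eq_of_injective (RingHom.injective_int _)]
      intro h
      exact hA0 (natDegree_eq_of_degree_eq_some h)
    obtain ⟨z, hz⟩ := IsAlgClosed.exists_root _ hdeg
    rw [IsRoot.def] at hz
    obtain ⟨F, hF⟩ : ∃ F : ℂ[X], F = f.map (Int.castRingHom ℂ) := ⟨_, rfl⟩
    have hFe : F = C (D : ℂ) * (A.map (Int.castRingHom ℂ)) ^ 2
        + C (c : ℂ) * (C (e : ℂ) * X + C (r : ℂ)) ^ m := by
      rw [hF, hf]
      simp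
    have hFz : F.eval z = c * (e * z + r) ^ m := by
      rw [hFe]; simp [hz]
    have hFz' : (derivative F).eval z = c * (m * (e * z + r) ^ (m - 1) * e) := by
      rw [hFe, derivative_add, derivative_C_mul, derivative_C_mul, derivative_pow, derivative_pow]
      simp [hz]
    have hrel : (m : ℂ) * e * F.eval z = (e * z + r) * (derivative F).eval z := by
      rw [hFz, hFz']
      obtain ⟨k, rfl⟩ : ∃ k, m = k + 1 := ⟨m - 1, by omega⟩
      rw [Nat.add_sub_cancel, pow_succ]
      ring
    have hFd : F.natDegree < m + 1 := by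
      rw [hF]
      refine lt_of_le_of_lt natDegree_map_le ?_
      rw [hf]
      refine lt_of_le_of_lt (natDegree_add_le _ _) ?_
      rw [Nat.lt_succ_iff]
      apply max_le
      · refine (natDegree_C_mul_le _ _).trans ?_
        rw [natDegree_pow]; omega
      · refine (natDegree_C_mul_le _ _).trans ?_
        rw [natDegree_pow, natDegree_linear he, mul_one]
    have hco : ∀ i, ‖F.coeff i‖ ≤ M := by
      intro i
      rw [hF, coeff_map, eq_intCast, Complex.norm_intCast]
      have := hfM i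
      rw [← Int.cast_abs, Int.abs_eq_natAbs]
      exact_mod_cast this
    have hcm : 1 ≤ ‖F.coeff m‖ := by
      rw [hF, coeff_map, eq_intCast, Complex.norm_intCast, hlead, ← Int.cast_abs]
      have : 0 < |c * e ^ m| := abs_pos.2 (mul_ne_zero hc (pow_ne_zero _ he))
      exact_mod_cast this
    have hev : F.eval z = ∑ i ∈ Finset.range (m + 1), F.coeff i * z ^ i :=
      eval_eq_sum_range' hFd z
    have hev' : z * (derivative F).eval z = ∑ i ∈ Finset.range (m + 1), i * F.coeff i * z ^ i := by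
      rw [derivative_eval, Polynomial.sum_over_range' _ _ _ hFd]
      · rw [Finset.mul_sum]
        apply Finset.sum_congr rfl
        intro i _
        rcases Nat.eq_zero_or_pos i with h | h
        · rw [h]; simp
        · obtain ⟨k, rfl⟩ : ∃ k, i = k + 1 := ⟨i - 1, by omega⟩
          rw [Nat.add_sub_cancel, pow_succ]
          ring
      · intro n; simp
    obtain ⟨N, hN⟩ : ∃ N : ℝ, N = ‖z‖ := ⟨_, rfl⟩
    have hN0 : 0 ≤ N := by rw [hN]; exact norm_nonneg _
    have hMr : (1 : ℝ) ≤ M := by exact_mod_cast hM1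
    have hmr : (3 : ℝ) ≤ m := by exact_mod_cast hm3
    have her : |(e : ℝ)| ≤ M := by
      rw [← Int.cast_abs, Int.abs_eq_natAbs]; exact_mod_cast heM
    have hgoal : |(r : ℝ)| ≤ 2 * m * (m + 2) * (M : ℝ) ^ 2 → r.natAbs ≤ 2 * m * (m + 2) * M ^ 2 := by
      intro h
      rw [← Int.cast_abs, Int.abs_eq_natAbs] at h
      exact_mod_cast h
    apply hgoal
    by_cases hNb : 2 * m * M ≤ N
    · -- large root
      have hNpos : 0 < N := by nlinarith
      have hN1 : 1 ≤ N := by nlinarith
      have h1 : (r : ℂ) * (z * (derivative F).eval z)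
          = e * z * ∑ i ∈ Finset.range m, ((m : ℂ) - i) * F.coeff i * z ^ i := by
        have h2 : ∑ i ∈ Finset.range m, ((m : ℂ) - i) * F.coeff i * z ^ i
            = m * F.eval z - z * (derivative F).eval z := by
          rw [hev, hev', Finset.mul_sum, ← Finset.sum_sub_distrib, Finset.sum_range_succ]
          rw [show (m : ℂ) * (F.coeff m * z ^ m) - m * F.coeff m * z ^ m = 0 by ring, add_zero]
          apply Finset.sum_congr rfl
          intro i _
          ring
        rw [h2]
        linear_combination (-z) * hrel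
      have h3 : ‖∑ i ∈ Finset.range m, ((m : ℂ) - i) * F.coeff i * z ^ i‖
          ≤ m * (m * M * N ^ (m - 1)) := by
        refine (norm_sum_le _ _).trans ?_
        calc _ ≤ ∑ i ∈ Finset.range m, (m : ℝ) * M * N ^ (m - 1) := by
              apply Finset.sum_le_sum
              intro i hi
              rw [Finset.mem_range] at hi
              rw [norm_mul, norm_mul, norm_pow, ← hN]
              have g1 : ‖(m : ℂ) - i‖ ≤ m := by
                have : (m : ℂ) - i = ((m - i : ℕ) : ℂ) := by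
                  rw [Nat.cast_sub hi.le]
                rw [this, Complex.norm_natCast]
                exact_mod_cast Nat.sub_le _ _
              have g2 : N ^ i ≤ N ^ (m - 1) := pow_le_pow_right₀ hN1 (by omega)
              exact mul_le_mul (mul_le_mul g1 (hco i) (norm_nonneg _) (by positivity)) g2
                (by positivity) (by positivity)
          _ = _ := by rw [Finset.sum_const, Finset.card_range, nsmul_eq_mul]
      have h4 : (m : ℝ) * N ^ m - m * (m * M * N ^ (m - 1)) ≤ ‖z * (derivative F).eval z‖ := by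
        rw [hev', Finset.sum_range_succ]
        have g3 : ‖∑ i ∈ Finset.range m, (i : ℂ) * F.coeff i * z ^ i‖
            ≤ m * (m * M * N ^ (m - 1)) := by
          refine (norm_sum_le _ _).trans ?_
          calc _ ≤ ∑ i ∈ Finset.range m, (m : ℝ) * M * N ^ (m - 1) := by
                apply Finset.sum_le_sum
                intro i hi
                rw [Finset.mem_range] at hi
                rw [norm_mul, norm_mul, norm_pow, ← hN, Complex.norm_natCast]
                have g1 : (i : ℝ) ≤ m := by exact_mod_cast hi.le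
                have g2 : N ^ i ≤ N ^ (m - 1) := pow_le_pow_right₀ hN1 (by omega)
                exact mul_le_mul (mul_le_mul g1 (hco i) (norm_nonneg _) (by positivity)) g2
                  (by positivity) (by positivity)
            _ = _ := by rw [Finset.sum_const, Finset.card_range, nsmul_eq_mul]
        have g4 : (m : ℝ) * N ^ m ≤ ‖(m : ℂ) * F.coeff m * z ^ m‖ := by
          rw [norm_mul, norm_mul, norm_pow, ← hN, Complex.norm_natCast]
          have : (m : ℝ) * N ^ m = m * 1 * N ^ m := by ring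
          rw [this]
          apply mul_le_mul_of_nonneg_right _ (by positivity)
          exact mul_le_mul_of_nonneg_left hcm (by positivity)
        have g5 := norm_sub_norm_le ((m : ℂ) * F.coeff m * z ^ m)
          (-(∑ i ∈ Finset.range m, (i : ℂ) * F.coeff i * z ^ i))
        rw [norm_neg, sub_neg_eq_add, add_comm ((m : ℂ) * F.coeff m * z ^ m)] at g5
        linarith
      have h5 := congrArg norm h1
      rw [norm_mul (r : ℂ), norm_mul ((e : ℂ) * z), norm_mul (e : ℂ) z, Complex.norm_intCast,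
        Complex.norm_intCast, ← hN] at h5
      have h6 : N ^ m = N * N ^ (m - 1) := by
        obtain ⟨k, rfl⟩ : ∃ k, m = k + 1 := ⟨m - 1, by omega⟩
        rw [Nat.add_sub_cancel, pow_succ]; ring
      have h7 : (m : ℝ) / 2 * N ^ m ≤ ‖z * (derivative F).eval z‖ := by
        refine le_trans ?_ h4
        rw [h6]
        have g6 : 0 ≤ (m : ℝ) * N ^ (m - 1) * (N / 2 - m * M) :=
          mul_nonneg (by positivity) (by linarith)
        have g7 : (m : ℝ) * (N * N ^ (m - 1)) - m * (m * M * N ^ (m - 1))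
            - m / 2 * (N * N ^ (m - 1)) = m * N ^ (m - 1) * (N / 2 - m * M) := by ring
        linarith
      have h8 : |(r : ℝ)| * ((m : ℝ) / 2 * N ^ m) ≤ (M * N) * (m * (m * M * N ^ (m - 1))) := by
        calc |(r : ℝ)| * ((m : ℝ) / 2 * N ^ m) ≤ |(r : ℝ)| * ‖z * (derivative F).eval z‖ :=
              mul_le_mul_of_nonneg_left h7 (abs_nonneg _)
          _ = |(e : ℝ)| * N * ‖∑ i ∈ Finset.range m, ((m : ℂ) - i) * F.coeff i * z ^ i‖ := by
              rw [← h5]
          _ ≤ _ := mul_le_mul (mul_le_mul_of_nonneg_right her hN0) h3 (norm_nonneg _)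
              (by positivity)
      have h9 : (M * N) * (m * (m * M * N ^ (m - 1))) = (2 * m * (M : ℝ) ^ 2) * ((m : ℝ) / 2 * N ^ m) := by
        rw [h6]; ring
      rw [h9] at h8
      have h10 : 0 < (m : ℝ) / 2 * N ^ m := by positivity
      have h11 := le_of_mul_le_mul_right h8 h10
      refine h11.trans ?_
      have g6 : 0 ≤ 2 * (m : ℝ) * (m + 1) * (M : ℝ) ^ 2 := by positivity
      have g7 : 2 * (m : ℝ) * (m + 2) * (M : ℝ) ^ 2 = 2 * m * M ^ 2 + 2 * m * (m + 1) * M ^ 2 := by
        ring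
      linarith
    · -- small root
      rw [not_le] at hNb
      have h1 : ‖F.eval z‖ ≤ (m + 1) * (M * (2 * m * M) ^ m) := by
        rw [hev]
        refine (norm_sum_le _ _).trans ?_
        calc _ ≤ ∑ i ∈ Finset.range (m + 1), (M : ℝ) * (2 * m * M) ^ m := by
              apply Finset.sum_le_sum
              intro i hi
              rw [Finset.mem_range] at hi
              rw [norm_mul, norm_pow, ← hN]
              have g1 : (1 : ℝ) ≤ 2 * m * M := by nlinarith
              have g2 : N ^ i ≤ (2 * m * M : ℝ) ^ m :=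
                (pow_le_pow_left₀ hN0 hNb.le i).trans (pow_le_pow_right₀ g1 (by omega))
              exact mul_le_mul (hco i) g2 (by positivity) (by positivity)
          _ = _ := by rw [Finset.sum_const, Finset.card_range, nsmul_eq_mul]; push_cast; ring
      have h2 : ‖(e : ℂ) * z + r‖ ^ m ≤ ((m + 1) * M * (2 * m * M)) ^ m := by
        have g1 : ‖(e : ℂ) * z + r‖ ^ m ≤ ‖F.eval z‖ := by
          rw [hFz, norm_mul, norm_pow, Complex.norm_intCast]
          have g2 : (1 : ℝ) ≤ |(c : ℝ)| := by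
            rw [← Int.cast_abs]
            have : 0 < |c| := abs_pos.2 hc
            exact_mod_cast this
          exact le_mul_of_one_le_left (by positivity) g2
        refine g1.trans (h1.trans ?_)
        rw [mul_pow ((m + 1) * M : ℝ), ← mul_assoc]
        apply mul_le_mul_of_nonneg_right _ (by positivity)
        have g3 : (1 : ℝ) ≤ (m + 1) * M := by nlinarith
        exact le_self_pow₀ g3 (by omega)
      have h3 : ‖(e : ℂ) * z + r‖ ≤ (m + 1) * M * (2 * m * M) :=
        le_of_pow_le_pow_left₀ (by omega) (by positivity) h2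
      have h4 : |(r : ℝ)| ≤ ‖(e : ℂ) * z + r‖ + |(e : ℝ)| * N := by
        have g1 := norm_sub_le ((e : ℂ) * z + r) (e * z)
        rw [show (e : ℂ) * z + r - e * z = r by ring, norm_mul, Complex.norm_intCast,
          Complex.norm_intCast, ← hN] at g1
        exact g1
      have h5 : |(e : ℝ)| * N ≤ M * (2 * m * M) := mul_le_mul her hNb.le hN0 (by positivity)
      calc |(r : ℝ)| ≤ (m + 1) * M * (2 * m * M) + M * (2 * m * M) := by linarith
        _ = _ := by ring

/-- all data are bounded in terms of `f` -/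
theorem data_bound (m : ℕ) (hm3 : 3 ≤ m) (D c e r : ℤ) (hD : D ≠ 0) (hc : c ≠ 0) (he : e ≠ 0)
    (f A : ℤ[X]) (hA : A ≠ 0) (hAd : 2 * A.natDegree < m)
    (hf : f = C D * A ^ 2 + C c * (C e * X + C r) ^ m) (M : ℕ)
    (hfM : ∀ i, (f.coeff i).natAbs ≤ M) :
    ∃ M' : ℕ, M' = (2 ^ (m + 1) * (m + 1) * (4 * m * (m + 2)) ^ m) * M ^ (2 * m + 1) ∧
      c.natAbs ≤ M' ∧ e.natAbs ≤ M' ∧ r.natAbs ≤ M' ∧ D.natAbs ≤ M' ∧
      ∀ i, (A.coeff i).natAbs ≤ M' := by
  obtain ⟨hcM, heM, hrM⟩ := r_bound m hm3 D c e r hc he f A hAd hf M hfM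
  have hM1 : 1 ≤ M := by
    have := Int.natAbs_ne_zero.2 hc
    omega
  obtain ⟨R, hR⟩ : ∃ R : ℕ, R = 2 * m * (m + 2) * M ^ 2 := ⟨_, rfl⟩
  rw [← hR] at hrM
  have hMR : M ≤ R := by
    rw [hR]
    calc M ≤ M ^ 2 := Nat.le_self_pow two_ne_zero _
      _ = 1 * M ^ 2 := by rw [one_mul]
      _ ≤ _ := Nat.mul_le_mul_right _ (Nat.mul_pos (by omega) (by omega))
  have hR1 : 1 ≤ R := hM1.trans hMR
  obtain ⟨H, hH⟩ : ∃ H : ℕ, H = 2 * (M * (2 * R) ^ m) := ⟨_, rfl⟩
  have hMH : M ≤ M * (2 * R) ^ m := Nat.le_mul_of_pos_right _ (Nat.pow_pos (by omega))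
  have hH1 : 1 ≤ H := by omega
  have hRH : R ≤ H := by
    calc R ≤ (2 * R) ^ m := (by
            calc R ≤ 2 * R := by omega
              _ ≤ (2 * R) ^ m := Nat.le_self_pow (by omega) _)
      _ ≤ M * (2 * R) ^ m := Nat.le_mul_of_pos_left _ hM1
      _ ≤ H := by omega
  -- the coefficients of D A ^ 2
  have hco : ∀ i, ((C D * A ^ 2).coeff i).natAbs ≤ H := by
    intro i
    have h1 : C D * A ^ 2 = f - C c * (C e * X + C r) ^ m := by rw [hf]; ring
    rw [h1, coeff_sub, coeff_C_mul]
    refine (Int.natAbs_sub_le _ _).trans ?_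
    rw [Int.natAbs_mul]
    have h2 := lin_pow_coeff e r R (heM.trans hMR) hrM m i
    have h3 : c.natAbs * (((C e * X + C r : ℤ[X]) ^ m).coeff i).natAbs ≤ M * (2 * R) ^ m :=
      Nat.mul_le_mul hcM h2
    have h4 := hfM i
    omega
  -- Mahler measure
  obtain ⟨G, hG⟩ : ∃ G : ℂ[X], G = A.map (Int.castRingHom ℂ) := ⟨_, rfl⟩
  have hG0 : G ≠ 0 := by
    rw [hG]
    exact (Polynomial.map_ne_zero_iff (RingHom.injective_int _)).2 hA
  have hGl : 1 ≤ ‖G.leadingCoeff‖ := by
    rw [hG, leadingCoeff_map_of_injective (RingHom.injective_int _), eq_intCast,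
      Complex.norm_intCast, ← Int.cast_abs]
    have : 0 < |A.leadingCoeff| := abs_pos.2 (leadingCoeff_ne_zero.2 hA)
    exact_mod_cast this
  have hG1 : 1 ≤ G.mahlerMeasure := hGl.trans (leadingCoeff_le_mahlerMeasure G)
  have hDG : |(D : ℝ)| * G.mahlerMeasure ^ 2 ≤ (m + 1) * H := by
    have h1 : (C (D : ℂ) * G ^ 2).mahlerMeasure = |(D : ℝ)| * G.mahlerMeasure ^ 2 := by
      rw [mahlerMeasure_mul, mahlerMeasure_const, Complex.norm_intCast, sq, mahlerMeasure_mul, sq]
    rw [← h1]
    refine (mahlerMeasure_le_sum_norm_coeff _).trans ?_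
    have hdeg : (C (D : ℂ) * G ^ 2).natDegree < m + 1 := by
      refine lt_of_le_of_lt (natDegree_C_mul_le _ _) ?_
      rw [natDegree_pow]
      have : G.natDegree ≤ A.natDegree := by rw [hG]; exact natDegree_map_le
      omega
    rw [Polynomial.sum_over_range' _ (fun n => by simp) _ hdeg]
    calc _ ≤ ∑ i ∈ Finset.range (m + 1), (H : ℝ) := by
          apply Finset.sum_le_sum
          intro i _
          have h2 : (C (D : ℂ) * G ^ 2) = (C D * A ^ 2).map (Int.castRingHom ℂ) := by
            rw [hG]; simp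
          rw [h2, coeff_map, eq_intCast, Complex.norm_intCast, ← Int.cast_abs, Int.abs_eq_natAbs]
          exact_mod_cast hco i
      _ = _ := by rw [Finset.sum_const, Finset.card_range, nsmul_eq_mul]; push_cast; ring
  have hD1 : (1 : ℝ) ≤ |(D : ℝ)| := by
    rw [← Int.cast_abs]
    have : 0 < |D| := abs_pos.2 hD
    exact_mod_cast this
  have hsq1 : 1 ≤ G.mahlerMeasure ^ 2 := one_le_pow₀ hG1
  have hDle : |(D : ℝ)| ≤ (m + 1) * H := by nlinarith [abs_nonneg (D : ℝ)]
  have hGle : G.mahlerMeasure ≤ (m + 1) * H := by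
    have h1 : G.mahlerMeasure ≤ G.mahlerMeasure ^ 2 := le_self_pow₀ hG1 two_ne_zero
    nlinarith
  have hDnat : D.natAbs ≤ (m + 1) * H := by
    rw [← Int.cast_abs, Int.abs_eq_natAbs] at hDle
    exact_mod_cast hDle
  have hAnat : ∀ i, (A.coeff i).natAbs ≤ 2 ^ m * ((m + 1) * H) := by
    intro i
    have h1 := norm_coeff_le_choose_mul_mahlerMeasure i G
    rw [hG, coeff_map, eq_intCast, Complex.norm_intCast, ← hG, ← Int.cast_abs,
      Int.abs_eq_natAbs] at h1
    have h2 : ((G.natDegree.choose i : ℕ) : ℝ) ≤ 2 ^ m := by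
      have h3 : G.natDegree.choose i ≤ 2 ^ m := by
        refine (Nat.choose_le_two_pow _ _).trans (Nat.pow_le_pow_right (by norm_num) ?_)
        have : G.natDegree ≤ A.natDegree := by rw [hG]; exact natDegree_map_le
        omega
      exact_mod_cast h3
    have h4 : ((A.coeff i).natAbs : ℝ) ≤ 2 ^ m * ((m + 1) * H) := by
      have h5 : (((A.coeff i).natAbs : ℤ) : ℝ) = ((A.coeff i).natAbs : ℝ) := Int.cast_natCast _
      rw [← h5]
      exact h1.trans (mul_le_mul h2 hGle (by linarith) (by positivity))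
    exact_mod_cast h4
  obtain ⟨M', hM'⟩ : ∃ M' : ℕ,
    M' = (2 ^ (m + 1) * (m + 1) * (4 * m * (m + 2)) ^ m) * M ^ (2 * m + 1) := ⟨_, rfl⟩
  have hM'2 : M' = 2 ^ m * ((m + 1) * H) := by
    rw [hM', hH, hR, pow_succ M (2 * m), pow_mul M 2 m]
    have : (2 * (2 * m * (m + 2) * M ^ 2)) = 4 * m * (m + 2) * M ^ 2 := by ring
    rw [this, mul_pow _ (M ^ 2) m]
    ring
  have h2m : 1 ≤ 2 ^ m := Nat.one_le_two_pow
  have hHM' : (m + 1) * H ≤ M' := by
    rw [hM'2]; exact Nat.le_mul_of_pos_left _ h2m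
  have hHM'' : H ≤ M' := (Nat.le_mul_of_pos_left H (by omega : 0 < m + 1)).trans hHM'
  refine ⟨M', hM', ?_, ?_, ?_, ?_, ?_⟩
  · exact hcM.trans (hMR.trans (hRH.trans hHM''))
  · exact heM.trans (hMR.trans (hRH.trans hHM''))
  · exact hrM.trans (hRH.trans hHM'')
  · exact hDnat.trans hHM'
  · intro i
    rw [hM'2]; exact hAnat i

end Pool.Agent.H16V
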