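import Pool.Agent.H16V.Cls
import Pool.Agent.H16V.Hgt

/-!
Final forms of the bounds.
-/

set_option autoImplicit false

open Polynomial Pool.Agent.H322R2

namespace Pool.Agent.H16V

/-- the exponent -/
def Ex (m : ℕ) : ℕ := 10 ^ 12 * 36 ^ m * (m + 1) ^ 16

lemma ex1 (m : ℕ) : (m + 1) ^ 2 * kE m ≤ Ex m := by
  unfold kE Ex
  calc (m + 1) ^ 2 * (10 ^ 11 * 36 ^ m * (m + 1) ^ 13)
      = 10 ^ 11 * 36 ^ m * (m + 1) ^ 15 := by ring
    _ ≤ 10 ^ 12 * 36 ^ m * (m + 1) ^ 16 := by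
        apply Nat.mul_le_mul
        · exact Nat.mul_le_mul_right _ (by norm_num)
        · exact Nat.pow_le_pow_right (by omega) (by norm_num)

lemma ex2 (m : ℕ) : 2 * (m + 1) ^ 2 * kE m ≤ Ex m := by
  unfold kE Ex
  calc 2 * (m + 1) ^ 2 * (10 ^ 11 * 36 ^ m * (m + 1) ^ 13)
      = (2 * 10 ^ 11) * 36 ^ m * (m + 1) ^ 15 := by ring
    _ ≤ 10 ^ 12 * 36 ^ m * (m + 1) ^ 16 := by
        apply Nat.mul_le_mul
        · exact Nat.mul_le_mul_right _ (by norm_num)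
        · exact Nat.pow_le_pow_right (by omega) (by norm_num)

lemma ex3 (m : ℕ) : (2 * m + 1) * (2 * (m + 1) ^ 2 * kE m) ≤ Ex m := by
  unfold kE Ex
  calc (2 * m + 1) * (2 * (m + 1) ^ 2 * (10 ^ 11 * 36 ^ m * (m + 1) ^ 13))
      ≤ (2 * (m + 1)) * (2 * (m + 1) ^ 2 * (10 ^ 11 * 36 ^ m * (m + 1) ^ 13)) :=
        Nat.mul_le_mul_right _ (by omega)
    _ = (4 * 10 ^ 11) * 36 ^ m * (m + 1) ^ 16 := by ring
    _ ≤ 10 ^ 12 * 36 ^ m * (m + 1) ^ 16 := by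
        apply Nat.mul_le_mul_right
        exact Nat.mul_le_mul_right _ (by norm_num)

lemma abs_of_nat {x : ℤ} {n : ℕ} (h : x.natAbs ≤ n) : |x| ≤ (n : ℤ) := by
  rw [Int.abs_eq_natAbs]; exact_mod_cast h

lemma nat_of_abs {x : ℤ} {n : ℕ} (h : |x| ≤ (n : ℤ)) : x.natAbs ≤ n := by
  rw [Int.abs_eq_natAbs] at h; exact_mod_cast h

lemma eq_of_fac {m : ℕ} {D c e r : ℤ} {f A B : ℤ[X]}
    (hfac : B ^ 2 * f = C D * A ^ 2 + C c * (C e * X + C r) ^ m) {x y : ℤ}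
    (hy : y ^ 2 = f.eval x) :
    (B.eval x * y) ^ 2 = D * (A.eval x) ^ 2 + c * (e * x + r) ^ m := by
  have h := congrArg (Polynomial.eval x) hfac
  simp only [eval_mul, eval_pow, eval_add, eval_C, eval_X] at h
  rw [← h, ← hy]; ring

theorem part1 (m : ℕ) (D : ℤ) (t₁ t₂ : ℚ) (hm : Odd m) (hm1 : 1 < m) (hD : D ≠ 0)
    (ht : t₁ ^ 2 - D * t₂ ^ 2 ≠ 0) :
    ∃ K : ℕ, ∀ (f A B : ℤ[X]) (c e r : ℤ) (M : ℕ), c ≠ 0 → e ≠ 0 → |c| ≤ M → |e| ≤ M → |r| ≤ M →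
      (∀ i, |A.coeff i| ≤ M) → B ^ 2 * f = C D * A ^ 2 + C c * (C e * X + C r) ^ m →
      2 * A.natDegree < m → Squarefree (f.map (Int.castRingHom ℚ)) →
      (∀ p : ℕ, p.Prime → p ∣ m → ∀ (t g : ℂ[X]) (ε : ℂ), g ≠ 0 → ε ≠ 0 →
        t ^ 2 ≠ g ^ 2 * f.map (Int.castRingHom ℂ) + C ε * (C (e : ℂ) * X + C (r : ℂ)) ^ (m / p)) →
      ∀ (x y : ℤ) (u v : ℚ), y ^ 2 = f.eval x →
      (∀ s : ℂ, s ^ 2 = D → ((B.eval x * y : ℤ) : ℂ) + (A.eval x : ℤ) * s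
        = (t₁ + t₂ * s) * (u + v * s) ^ m) →
      |x| ≤ ((K * M : ℕ) : ℤ) ^ Ex m := by
  obtain ⟨K, hK1, hK⟩ := kummerQ m hm hm1 D hD t₁ t₂ ht
  refine ⟨K, ?_⟩
  intro f A B c e r M hc he hcM heM hrM hAM hfac hAd hsq hpr x y u v hy hcl
  have hcM' := nat_of_abs hcM
  have hM : 1 ≤ M := by
    have := Int.natAbs_ne_zero.2 hc
    omega
  have H : Hyp m D f A B c e r M := ⟨hc, he, hcM', nat_of_abs heM, nat_of_abs hrM,
    fun i => nat_of_abs (hAM i), hfac, hAd, hsq, hpr⟩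
  have h1 := hK f A B c e r M H x (B.eval x * y) u v (eq_of_fac hfac hy)
    (fun s hs => (hcl s hs).symm)
  have h2 : x.natAbs ≤ (K * M) ^ Ex m :=
    h1.trans (Nat.pow_le_pow_right (Nat.mul_pos hK1 hM) (ex1 m))
  exact_mod_cast abs_of_nat h2

theorem part2 (m : ℕ) (S : Finset ℕ) (hm : Odd m) (hm1 : 1 < m) :
    ∃ K : ℕ, ∀ (f A B : ℤ[X]) (D c e r : ℤ) (M : ℕ), D ≠ 0 → c ≠ 0 → e ≠ 0 →
      |D| ≤ M → |c| ≤ M → |e| ≤ M → |r| ≤ M →
      (∀ i, |A.coeff i| ≤ M) → B ^ 2 * f = C D * A ^ 2 + C c * (C e * X + C r) ^ m →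
      2 * A.natDegree < m → Squarefree (f.map (Int.castRingHom ℚ)) →
      (∀ p : ℕ, p.Prime → p ∣ m → ∀ (t g : ℂ[X]) (ε : ℂ), g ≠ 0 → ε ≠ 0 →
        t ^ 2 ≠ g ^ 2 * f.map (Int.castRingHom ℂ) + C ε * (C (e : ℂ) * X + C (r : ℂ)) ^ (m / p)) →
      (∀ p : ℕ, p.Prime → (p : ℤ) ∣ D * c → p ∈ S) →
      ∀ (x y : ℤ), y ^ 2 = f.eval x →
      (∀ p : ℕ, p.Prime → (p : ℤ) ∣ A.eval x → (p : ℤ) ∣ e * x + r → p ∈ S) →
      |x| ≤ ((K * M : ℕ) : ℤ) ^ Ex m := by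
  obtain ⟨K, hK1, hK⟩ := varD m hm hm1 (S.filter Nat.Prime)
    (fun p hp => (Finset.mem_filter.1 hp).2.ne_zero)
  refine ⟨K, ?_⟩
  intro f A B D c e r M hD hc he hDM hcM heM hrM hAM hfac hAd hsq hpr hDc x y hy hal
  have hcM' := nat_of_abs hcM
  have hM : 1 ≤ M := by
    have := Int.natAbs_ne_zero.2 hc
    omega
  have H : Hyp m D f A B c e r M := ⟨hc, he, hcM', nat_of_abs heM, nat_of_abs hrM,
    fun i => nat_of_abs (hAM i), hfac, hAd, hsq, hpr⟩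
  have h1 := hK D f A B c e r M hD (nat_of_abs hDM) H
    (fun p hp hpD => Finset.mem_filter.2 ⟨hDc p hp (hpD.mul_right _), hp⟩)
    (fun p hp hpc => Finset.mem_filter.2 ⟨hDc p hp (hpc.mul_left _), hp⟩)
    x (B.eval x * y) (eq_of_fac hfac hy)
    (fun p hp hpS hpl hpA => hpS (Finset.mem_filter.2 ⟨hal p hp hpA hpl, hp⟩))
  have h2 : x.natAbs ≤ (K * M) ^ Ex m :=
    h1.trans (Nat.pow_le_pow_right (Nat.mul_pos hK1 hM) (ex2 m))
  exact_mod_cast abs_of_nat h2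

/-- no smaller relation when `deg f = m` -/
lemma order_cond (m : ℕ) (hm : Odd m) (f : ℤ[X]) (hf : f.natDegree = m) (e r : ℤ) (p : ℕ)
    (hp : p.Prime) (t g : ℂ[X]) (ε : ℂ) (hg : g ≠ 0) :
    t ^ 2 ≠ g ^ 2 * f.map (Int.castRingHom ℂ)
      + C ε * (C (e : ℂ) * X + C (r : ℂ)) ^ (m / p) := by
  intro ht
  have hm0 : 0 < m := hm.pos
  have hF : (f.map (Int.castRingHom ℂ)).natDegree = m := by
    rw [natDegree_map_eq_of_injective (RingHom.injective_int _), hf]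
  have hF0 : f.map (Int.castRingHom ℂ) ≠ 0 := by
    intro h0
    rw [h0, natDegree_zero] at hF
    omega
  have h1 : (g ^ 2 * f.map (Int.castRingHom ℂ)).natDegree = 2 * g.natDegree + m := by
    rw [natDegree_mul (pow_ne_zero _ hg) hF0, natDegree_pow, hF]
  have h2 : (C ε * (C (e : ℂ) * X + C (r : ℂ)) ^ (m / p)).natDegree ≤ m / p := by
    refine (natDegree_C_mul_le _ _).trans ?_
    refine natDegree_pow_le.trans ?_
    calc m / p * _ ≤ m / p * 1 := Nat.mul_le_mul_left _ natDegree_linear_le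
      _ = m / p := mul_one _
  have h3 : m / p < m := Nat.div_lt_self hm0 hp.one_lt
  have h4 := congrArg Polynomial.natDegree ht
  rw [natDegree_add_eq_left_of_natDegree_lt (by omega), h1, natDegree_pow] at h4
  rw [Nat.odd_iff] at hm
  omega

theorem part3 (m : ℕ) (S : Finset ℕ) (hm : Odd m) (hm1 : 1 < m) :
    ∃ K : ℕ, ∀ (f A : ℤ[X]) (D c e r : ℤ) (M : ℕ), D ≠ 0 → c ≠ 0 → e ≠ 0 →
      (∀ i, |f.coeff i| ≤ M) → f = C D * A ^ 2 + C c * (C e * X + C r) ^ m →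
      2 * A.natDegree < m → Squarefree (f.map (Int.castRingHom ℚ)) →
      (∀ p : ℕ, p.Prime → (p : ℤ) ∣ D * c → p ∈ S) →
      ∀ (x y : ℤ), y ^ 2 = f.eval x →
      (∀ p : ℕ, p.Prime → (p : ℤ) ∣ A.eval x → (p : ℤ) ∣ e * x + r → p ∈ S) →
      |x| ≤ ((K * M : ℕ) : ℤ) ^ Ex m := by
  obtain ⟨K, hK1, hK⟩ := varD m hm hm1 (S.filter Nat.Prime)
    (fun p hp => (Finset.mem_filter.1 hp).2.ne_zero)
  obtain ⟨w, hw⟩ : ∃ w : ℕ, w = 2 ^ (m + 1) * (m + 1) * (4 * m * (m + 2)) ^ m := ⟨_, rfl⟩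
  have hw1 : 1 ≤ w := by
    rw [hw]
    apply Nat.one_le_iff_ne_zero.2
    have h1 : 4 * m * (m + 2) ≠ 0 := Nat.mul_ne_zero (by omega) (by omega)
    exact Nat.mul_ne_zero (Nat.mul_ne_zero (by positivity) (by omega)) (pow_ne_zero _ h1)
  refine ⟨K * w, ?_⟩
  intro f A D c e r M hD hc he hfM hf hAd hsq hDc x y hy hal
  have hm3 : 3 ≤ m := by
    obtain ⟨k, hk⟩ := hm
    omega
  have hlead := lead_coeff m D c e r he f A hAd hf
  have hdeg : f.natDegree = m := by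
    apply le_antisymm
    · rw [hf]
      refine (natDegree_add_le _ _).trans (max_le ?_ ?_)
      · refine (natDegree_C_mul_le _ _).trans ?_
        rw [natDegree_pow]; omega
      · refine (natDegree_C_mul_le _ _).trans ?_
        rw [natDegree_pow, natDegree_linear he, mul_one]
    · apply le_natDegree_of_ne_zero
      rw [hlead]
      exact mul_ne_zero hc (pow_ne_zero _ he)
  have hA : A ≠ 0 := by
    rintro rfl
    obtain ⟨l, hl⟩ : ∃ l : ℚ[X], l = C (e : ℚ) * X + C (r : ℚ) := ⟨_, rfl⟩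
    have h1 : l * l ∣ f.map (Int.castRingHom ℚ) := by
      have h2 : f.map (Int.castRingHom ℚ) = C (c : ℚ) * l ^ m := by
        rw [hf, hl]; simp
      rw [h2, ← sq]
      exact (pow_dvd_pow l (by omega)).mul_left _
    have h3 := hsq l h1
    have he' : (e : ℚ) ≠ 0 := by exact_mod_cast he
    have h4 : l.natDegree = 1 := by rw [hl]; exact natDegree_linear he'
    have h5 := natDegree_eq_zero_of_isUnit h3
    omega
  obtain ⟨M', hM', hcM, heM, hrM, hDM, hAM⟩ := data_bound m hm3 D c e r hD hc he f A hA hAd hf M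
    (fun i => nat_of_abs (hfM i))
  have hM : 1 ≤ M := by
    have h1 := nat_of_abs (hfM m)
    have h2 : (f.coeff m).natAbs ≠ 0 := by
      rw [hlead]
      exact Int.natAbs_ne_zero.2 (mul_ne_zero hc (pow_ne_zero _ he))
    omega
  have hfac : (1 : ℤ[X]) ^ 2 * f = C D * A ^ 2 + C c * (C e * X + C r) ^ m := by
    rw [one_pow, one_mul, hf]
  have H : Hyp m D f A 1 c e r M' := ⟨hc, he, hcM, heM, hrM, hAM, hfac, hAd, hsq,
    fun p hp _ t g ε hg _ => order_cond m hm f hdeg e r p hp t g ε hg⟩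
  have h1 := hK D f A 1 c e r M' hD hDM H
    (fun p hp hpD => Finset.mem_filter.2 ⟨hDc p hp (hpD.mul_right _), hp⟩)
    (fun p hp hpc => Finset.mem_filter.2 ⟨hDc p hp (hpc.mul_left _), hp⟩)
    x y (by have := eq_of_fac hfac hy; rwa [eval_one, one_mul] at this)
    (fun p hp hpS hpl hpA => hpS (Finset.mem_filter.2 ⟨hal p hp hpA hpl, hp⟩))
  have h2 : x.natAbs ≤ (K * w * M) ^ Ex m := by
    refine h1.trans ?_
    obtain ⟨a, ha⟩ : ∃ a, a = 2 * (m + 1) ^ 2 * kE m := ⟨_, rfl⟩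
    have h3 := ex3 m
    rw [← ha] at h3 ⊢
    have h4 : K * M' ≤ (K * w * M) ^ (2 * m + 1) := by
      rw [hM', ← hw, mul_pow, ← mul_assoc]
      apply Nat.mul_le_mul_right
      exact Nat.le_self_pow (by omega) _
    calc (K * M') ^ a ≤ ((K * w * M) ^ (2 * m + 1)) ^ a := Nat.pow_le_pow_left h4 _
      _ = (K * w * M) ^ ((2 * m + 1) * a) := by rw [← pow_mul]
      _ ≤ _ := Nat.pow_le_pow_right (Nat.mul_pos (Nat.mul_pos hK1 hw1) hM) h3
  exact_mod_cast abs_of_nat h2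

theorem part4 (m : ℕ) (S : Finset ℕ) (hm : Odd m) (hm1 : 1 < m) :
    ∃ K : ℕ, ∀ (f A U V : ℤ[X]) (D c e r n : ℤ) (M : ℕ), D ≠ 0 → c ≠ 0 → e ≠ 0 →
      (∀ i, |f.coeff i| ≤ M) → f = C D * A ^ 2 + C c * (C e * X + C r) ^ m →
      2 * A.natDegree < m → Squarefree (f.map (Int.castRingHom ℚ)) →
      U * A + V * (C e * X + C r) = C n →
      (∀ p : ℕ, p.Prime → (p : ℤ) ∣ D * c * n → p ∈ S) →
      ∀ (x y : ℤ), y ^ 2 = f.eval x → |x| ≤ ((K * M : ℕ) : ℤ) ^ Ex m := by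
  obtain ⟨K, hK⟩ := part3 m S hm hm1
  refine ⟨K, ?_⟩
  intro f A U V D c e r n M hD hc he hfM hf hAd hsq hUV hS x y hy
  apply hK f A D c e r M hD hc he hfM hf hAd hsq (fun p hp h => hS p hp (h.mul_right _)) x y hy
  intro p hp hpA hpl
  apply hS p hp
  have h1 := congrArg (Polynomial.eval x) hUV
  simp only [eval_mul, eval_add, eval_C, eval_X] at h1
  rw [← h1]
  exact (dvd_add (hpA.mul_left _) (hpl.mul_left _)).mul_left _

end Pool.Agent.H16V
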