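import Pool.Agent.H16V.Irr

/-!
The plane curve of an `m`-covering: `g₀ Φ(U,V) = P(U² - D V²)` over `ℤ`.
-/

set_option autoImplicit false

open Polynomial

namespace Pool.Agent.H16V

/-- the coefficients of `(U + V √D)^n` -/
noncomputable def RI (D : ℤ) : ℕ → MvPolynomial (Fin 2) ℤ × MvPolynomial (Fin 2) ℤ
  | 0 => (1, 0)
  | n + 1 => ((RI D n).1 * MvPolynomial.X 0 + MvPolynomial.C D * (RI D n).2 * MvPolynomial.X 1,
      (RI D n).2 * MvPolynomial.X 0 + (RI D n).1 * MvPolynomial.X 1)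

lemma RI_hom (D : ℤ) (n : ℕ) : (RI D n).1.IsHomogeneous n ∧ (RI D n).2.IsHomogeneous n := by
  induction n with
  | zero => exact ⟨MvPolynomial.isHomogeneous_one _ _, MvPolynomial.isHomogeneous_zero _ _ _⟩
  | succ n ih =>
    have hc := MvPolynomial.isHomogeneous_C (Fin 2) D
    constructor
    · refine (ih.1.mul (MvPolynomial.isHomogeneous_X _ 0)).add ?_
      have := (hc.mul ih.2).mul (MvPolynomial.isHomogeneous_X ℤ (1 : Fin 2))
      rwa [zero_add] at this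
    · exact (ih.2.mul (MvPolynomial.isHomogeneous_X _ 0)).add
        (ih.1.mul (MvPolynomial.isHomogeneous_X _ 1))

lemma RI_eval {S : Type} [CommRing S] (ρ : MvPolynomial (Fin 2) ℤ →+* S) (D : ℤ) (s : S)
    (hs : s ^ 2 = (D : S)) (n : ℕ) :
    ρ (RI D n).1 + s * ρ (RI D n).2
      = (ρ (MvPolynomial.X 0) + s * ρ (MvPolynomial.X 1)) ^ n := by
  have hD : ρ (MvPolynomial.C D) = (D : S) := by
    have := eq_intCast (ρ.comp (MvPolynomial.C : ℤ →+* MvPolynomial (Fin 2) ℤ)) D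
    exact this
  induction n with
  | zero => simp [RI]
  | succ n ih =>
    rw [pow_succ, ← ih, RI, map_add, map_add, map_mul, map_mul, map_mul, map_mul, map_mul, hD, ← hs]
    ring

/-- the form `n₂ R + n₁ I` -/
noncomputable def Phi (D n1 n2 : ℤ) (m : ℕ) : MvPolynomial (Fin 2) ℤ :=
  MvPolynomial.C n2 * (RI D m).1 + MvPolynomial.C n1 * (RI D m).2

lemma Phi_hom (D n1 n2 : ℤ) (m : ℕ) : (Phi D n1 n2 m).IsHomogeneous m := by
  have h1 := (MvPolynomial.isHomogeneous_C (Fin 2) n2).mul (RI_hom D m).1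
  have h2 := (MvPolynomial.isHomogeneous_C (Fin 2) n1).mul (RI_hom D m).2
  rw [zero_add] at h1 h2
  exact h1.add h2

lemma Phi_eval {S : Type} [CommRing S] (ρ : MvPolynomial (Fin 2) ℤ →+* S) (D n1 n2 : ℤ) (s : S)
    (hs : s ^ 2 = (D : S)) (m : ℕ) :
    2 * s * ρ (Phi D n1 n2 m)
      = ((n1 : S) + n2 * s) * (ρ (MvPolynomial.X 0) + s * ρ (MvPolynomial.X 1)) ^ m
        - ((n1 : S) - n2 * s) * (ρ (MvPolynomial.X 0) - s * ρ (MvPolynomial.X 1)) ^ m := by
  have hC : ∀ a : ℤ, ρ (MvPolynomial.C a) = (a : S) := by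
    intro a
    exact eq_intCast (ρ.comp (MvPolynomial.C : ℤ →+* MvPolynomial (Fin 2) ℤ)) a
  have h1 := RI_eval ρ D s hs m
  have h2 := RI_eval ρ D (-s) (by rw [neg_sq]; exact hs) m
  have h3 : ρ (MvPolynomial.X 0) - s * ρ (MvPolynomial.X 1)
      = ρ (MvPolynomial.X 0) + -s * ρ (MvPolynomial.X 1) := by ring
  rw [h3, ← h1, ← h2, Phi, map_add, map_mul, map_mul, hC, hC]
  ring

/-- the norm form -/
noncomputable def Qf (D : ℤ) : MvPolynomial (Fin 2) ℤ :=
  MvPolynomial.X 0 ^ 2 - MvPolynomial.C D * MvPolynomial.X 1 ^ 2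

/-- the polynomial of the curve -/
noncomputable def FF (D n1 n2 g0 : ℤ) (m : ℕ) (P : ℤ[X]) : MvPolynomial (Fin 2) ℤ :=
  MvPolynomial.C g0 * Phi D n1 n2 m - aeval (Qf D) P

/-- linear change of coordinates -/
noncomputable def sg (s : ℂ) : MvPolynomial (Fin 2) ℂ →ₐ[ℂ] MvPolynomial (Fin 2) ℂ :=
  MvPolynomial.aeval ![MvPolynomial.X 0 + MvPolynomial.C s * MvPolynomial.X 1,
    MvPolynomial.X 0 - MvPolynomial.C s * MvPolynomial.X 1]

/-- its inverse -/
noncomputable def sgi (s : ℂ) : MvPolynomial (Fin 2) ℂ →ₐ[ℂ] MvPolynomial (Fin 2) ℂ :=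
  MvPolynomial.aeval ![MvPolynomial.C (1 / 2) * (MvPolynomial.X 0 + MvPolynomial.X 1),
    MvPolynomial.C (1 / (2 * s)) * (MvPolynomial.X 0 - MvPolynomial.X 1)]

lemma sg_sgi (s : ℂ) (hs : s ≠ 0) :
    (sg s).comp (sgi s) = AlgHom.id ℂ (MvPolynomial (Fin 2) ℂ) := by
  have e1 : (MvPolynomial.C (1 / 2) * MvPolynomial.C 2 : MvPolynomial (Fin 2) ℂ) = 1 := by
    rw [← MvPolynomial.C_mul, one_div, inv_mul_cancel₀ two_ne_zero, MvPolynomial.C_1]
  have e2 : (MvPolynomial.C (1 / (2 * s)) * MvPolynomial.C (2 * s) : MvPolynomial (Fin 2) ℂ) = 1 := by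
    rw [← MvPolynomial.C_mul, one_div, inv_mul_cancel₀ (mul_ne_zero two_ne_zero hs),
      MvPolynomial.C_1]
  have e3 : (MvPolynomial.C 2 : MvPolynomial (Fin 2) ℂ) = 2 := rfl
  rw [MvPolynomial.C_mul, e3] at e2
  rw [e3] at e1
  apply MvPolynomial.algHom_ext
  intro i
  fin_cases i
  · simp only [AlgHom.comp_apply, sgi, sg, MvPolynomial.aeval_X, AlgHom.id_apply, map_mul, map_add,
      MvPolynomial.algHom_C, Fin.zero_eta, Matrix.cons_val_zero, Matrix.cons_val_one,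
      MvPolynomial.algebraMap_eq]
    linear_combination (MvPolynomial.X 0) * e1
  · simp only [AlgHom.comp_apply, sgi, sg, MvPolynomial.aeval_X, AlgHom.id_apply, map_mul, map_sub,
      MvPolynomial.algHom_C, Fin.mk_one, Matrix.cons_val_zero, Matrix.cons_val_one,
      MvPolynomial.algebraMap_eq]
    linear_combination (MvPolynomial.X 1) * e2

lemma sgi_sg (s : ℂ) (hs : s ≠ 0) :
    (sgi s).comp (sg s) = AlgHom.id ℂ (MvPolynomial (Fin 2) ℂ) := by
  have e1 : (MvPolynomial.C (1 / 2) * MvPolynomial.C 2 : MvPolynomial (Fin 2) ℂ) = 1 := by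
    rw [← MvPolynomial.C_mul, one_div, inv_mul_cancel₀ two_ne_zero, MvPolynomial.C_1]
  have e2 : (MvPolynomial.C s * MvPolynomial.C (1 / (2 * s)) : MvPolynomial (Fin 2) ℂ)
      = MvPolynomial.C (1 / 2) := by
    rw [← MvPolynomial.C_mul]
    congr 1
    field_simp
  have e3 : (MvPolynomial.C 2 : MvPolynomial (Fin 2) ℂ) = 2 := rfl
  rw [e3] at e1
  apply MvPolynomial.algHom_ext
  intro i
  fin_cases i
  · simp only [AlgHom.comp_apply, sgi, sg, MvPolynomial.aeval_X, AlgHom.id_apply, map_mul, map_add,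
      MvPolynomial.algHom_C, Fin.zero_eta, Matrix.cons_val_zero, Matrix.cons_val_one,
      MvPolynomial.algebraMap_eq]
    linear_combination (MvPolynomial.X 0) * e1 + (MvPolynomial.X 0 - MvPolynomial.X 1) * e2
  · simp only [AlgHom.comp_apply, sgi, sg, MvPolynomial.aeval_X, AlgHom.id_apply, map_mul, map_sub,
      MvPolynomial.algHom_C, Fin.mk_one, Matrix.cons_val_zero, Matrix.cons_val_one,
      MvPolynomial.algebraMap_eq]
    linear_combination (MvPolynomial.X 1) * e1 - (MvPolynomial.X 0 - MvPolynomial.X 1) * e2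

/-- the change of coordinates as an equivalence -/
noncomputable def sgE (s : ℂ) (hs : s ≠ 0) :
    MvPolynomial (Fin 2) ℂ ≃ₐ[ℂ] MvPolynomial (Fin 2) ℂ :=
  AlgEquiv.ofAlgHom (sg s) (sgi s) (sg_sgi s hs) (sgi_sg s hs)

lemma sgE_apply (s : ℂ) (hs : s ≠ 0) (G : MvPolynomial (Fin 2) ℂ) : sgE s hs G = sg s G := rfl

lemma map_Qf (D : ℤ) (s : ℂ) (hs : s ^ 2 = D) :
    MvPolynomial.map (Int.castRingHom ℂ) (Qf D)
      = sg s (MvPolynomial.X 0 * MvPolynomial.X 1) := by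
  simp only [Qf, sg, map_mul, map_sub, map_pow, MvPolynomial.aeval_X, MvPolynomial.map_X,
    MvPolynomial.map_C, Matrix.cons_val_zero, Matrix.cons_val_one]
  have : MvPolynomial.C ((Int.castRingHom ℂ) D) = (MvPolynomial.C s ^ 2 : MvPolynomial (Fin 2) ℂ) := by
    rw [← map_pow, hs]; rfl
  rw [this]
  ring

lemma map_aeval_Qf (D : ℤ) (s : ℂ) (hs : s ^ 2 = D) (P : ℤ[X]) :
    MvPolynomial.map (Int.castRingHom ℂ) (aeval (Qf D) P)
      = sg s (aeval (MvPolynomial.X 0 * MvPolynomial.X 1) (P.map (Int.castRingHom ℂ))) := by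
  have h1 : (MvPolynomial.map (Int.castRingHom ℂ)).comp (aeval (Qf D) : ℤ[X] →ₐ[ℤ] _).toRingHom
      = ((sg s).toRingHom.comp (aeval (MvPolynomial.X 0 * MvPolynomial.X 1 :
        MvPolynomial (Fin 2) ℂ)).toRingHom).comp (mapRingHom (Int.castRingHom ℂ)) := by
    apply Polynomial.ringHom_ext
    · intro a
      simp
    · simp only [RingHom.comp_apply, AlgHom.toRingHom_eq_coe, RingHom.coe_coe, aeval_X,
        coe_mapRingHom, map_X]
      exact map_Qf D s hs
  exact congrArg (fun g : ℤ[X] →+* MvPolynomial (Fin 2) ℂ => g P) h1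

lemma map_Phi (D n1 n2 : ℤ) (s : ℂ) (hs : s ^ 2 = D) (m : ℕ) :
    MvPolynomial.C (2 * s) * MvPolynomial.map (Int.castRingHom ℂ) (Phi D n1 n2 m)
      = sg s (MvPolynomial.C (n1 + n2 * s) * MvPolynomial.X 0 ^ m
        - MvPolynomial.C (n1 - n2 * s) * MvPolynomial.X 1 ^ m) := by
  have h1 := Phi_eval (MvPolynomial.map (Int.castRingHom ℂ)) D n1 n2
    (MvPolynomial.C s : MvPolynomial (Fin 2) ℂ) (by rw [← map_pow, hs]; simp) m
  have h2 : (MvPolynomial.C (2 * s) : MvPolynomial (Fin 2) ℂ) = 2 * MvPolynomial.C s := by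
    rw [MvPolynomial.C_mul]; rfl
  rw [h2, h1]
  simp only [sg, map_mul, map_sub, map_add, map_pow, MvPolynomial.aeval_X, MvPolynomial.map_X,
    Matrix.cons_val_zero, Matrix.cons_val_one, MvPolynomial.algHom_C, MvPolynomial.algebraMap_eq]
  simp

end Pool.Agent.H16V
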