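import Pool.Agent.H16V.Form

/-!
Irreducibility over `ℚ`, degree and leading form of the plane curve.
-/

set_option autoImplicit false

open Polynomial

namespace Pool.Agent.H16V

lemma unit_of_map (G : MvPolynomial (Fin 2) ℚ)
    (h : IsUnit (MvPolynomial.map (algebraMap ℚ ℂ) G)) : IsUnit G := by
  rw [MvPolynomial.isUnit_iff_eq_C_of_isReduced] at h ⊢
  obtain ⟨r, hr, h⟩ := h
  refine ⟨G.coeff 0, ?_, ?_⟩
  · rw [isUnit_iff_ne_zero]
    intro h0
    have h1 := congrArg (MvPolynomial.coeff 0) h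
    rw [MvPolynomial.coeff_map, h0, map_zero, MvPolynomial.coeff_C, if_pos rfl] at h1
    rw [← h1] at hr
    exact not_isUnit_zero hr
  · ext μ
    have h1 := congrArg (MvPolynomial.coeff μ) h
    rw [MvPolynomial.coeff_map, MvPolynomial.coeff_C] at h1
    rw [MvPolynomial.coeff_C]
    split_ifs at h1 ⊢ with h2
    · rw [h2]
    · exact (map_eq_zero _).1 h1

lemma map_map_ratC (G : MvPolynomial (Fin 2) ℤ) :
    MvPolynomial.map (algebraMap ℚ ℂ) (MvPolynomial.map (Int.castRingHom ℚ) G)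
      = MvPolynomial.map (Int.castRingHom ℂ) G := by
  rw [MvPolynomial.map_map]
  congr 1

lemma irr_of_map (G : MvPolynomial (Fin 2) ℤ)
    (h : Irreducible (MvPolynomial.map (Int.castRingHom ℂ) G)) :
    Irreducible (MvPolynomial.map (Int.castRingHom ℚ) G) := by
  rw [← map_map_ratC] at h
  refine ⟨fun hu => h.not_isUnit (hu.map _), ?_⟩
  intro a b hab
  have h1 := h.isUnit_or_isUnit (a := MvPolynomial.map (algebraMap ℚ ℂ) a)
    (b := MvPolynomial.map (algebraMap ℚ ℂ) b) (by rw [hab, map_mul])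
  exact h1.imp (unit_of_map a) (unit_of_map b)

lemma sqf_of_map (G : MvPolynomial (Fin 2) ℤ)
    (h : Squarefree (MvPolynomial.map (Int.castRingHom ℂ) G)) :
    Squarefree (MvPolynomial.map (Int.castRingHom ℚ) G) := by
  rw [← map_map_ratC] at h
  intro a ha
  apply unit_of_map
  apply h
  rw [← map_mul]
  exact map_dvd _ ha

theorem irr_FF (D : ℤ) (hD : D ≠ 0) (n1 n2 g0 : ℤ) (hN : n1 ^ 2 - D * n2 ^ 2 ≠ 0) (hg : g0 ≠ 0)
    (m : ℕ) (hm : Odd m) (P : ℤ[X]) (hP : 2 * P.natDegree < m)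
    (γ : ℂ) (B f : ℂ[X]) (hγ : γ ≠ 0)
    (hfac : C (D : ℂ) * (P.map (Int.castRingHom ℂ)) ^ 2
      + C ((g0 ^ 2 * (n1 ^ 2 - D * n2 ^ 2) : ℤ) : ℂ) * X ^ m = C γ * B ^ 2 * f)
    (hsq : Squarefree f) (hp : ∀ p : ℕ, p.Prime → p ∣ m → ∀ (t e : ℂ[X]) (ε : ℂ), e ≠ 0 → ε ≠ 0 →
      t ^ 2 ≠ e ^ 2 * f + C ε * X ^ (m / p)) :
    Irreducible (MvPolynomial.map (Int.castRingHom ℚ) (FF D n1 n2 g0 m P)) := by
  apply irr_of_map
  obtain ⟨s, hs⟩ : ∃ s : ℂ, s ^ 2 = D := by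
    obtain ⟨s, hs⟩ := IsAlgClosed.exists_pow_nat_eq (D : ℂ) (n := 2) (by norm_num)
    exact ⟨s, hs⟩
  have hs0 : s ≠ 0 := by
    rintro rfl
    apply hD
    have : (D : ℂ) = 0 := by rw [← hs]; ring
    exact_mod_cast this
  have hαβ : ((n1 : ℂ) + n2 * s) * (n1 - n2 * s) = ((n1 ^ 2 - D * n2 ^ 2 : ℤ) : ℂ) := by
    push_cast
    rw [← hs]; ring
  have hαβ0 : ((n1 : ℂ) + n2 * s) * (n1 - n2 * s) ≠ 0 := by
    rw [hαβ]; exact_mod_cast hN
  have hα : (n1 : ℂ) + n2 * s ≠ 0 := left_ne_zero_of_mul hαβ0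
  have hβ : (n1 : ℂ) - n2 * s ≠ 0 := right_ne_zero_of_mul hαβ0
  have hg' : (g0 : ℂ) ≠ 0 := by exact_mod_cast hg
  obtain ⟨α, hαd⟩ : ∃ α : ℂ, α = g0 * (n1 + n2 * s) := ⟨_, rfl⟩
  have hα0 : α ≠ 0 := by rw [hαd]; exact mul_ne_zero hg' hα
  obtain ⟨β, hβd⟩ : ∃ β : ℂ, β = g0 * (n1 - n2 * s) / α := ⟨_, rfl⟩
  have hβ0 : β ≠ 0 := by rw [hβd]; exact div_ne_zero (mul_ne_zero hg' hβ) hα0
  obtain ⟨P', hP'⟩ : ∃ P' : ℂ[X], P' = C (2 * s / α) * P.map (Int.castRingHom ℂ) := ⟨_, rfl⟩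
  have hdat : Dat ℂ m β P' := by
    refine ⟨hm, two_ne_zero, hβ0, ?_, 4 * γ / α ^ 2, B, f, ?_, ?_, hsq, ?_⟩
    · have h1 : P'.natDegree ≤ P.natDegree := by
        rw [hP']
        exact (natDegree_C_mul_le _ _).trans natDegree_map_le
      omega
    · exact div_ne_zero (mul_ne_zero (by norm_num) hγ) (pow_ne_zero _ hα0)
    · have h1 : (4 * β : ℂ) = (4 / α ^ 2) * ((g0 ^ 2 * (n1 ^ 2 - D * n2 ^ 2) : ℤ) : ℂ) := by
        rw [Int.cast_mul, ← hαβ, hβd, hαd]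
        field_simp
        push_cast
        ring
      have h2 : ((2 * s / α) ^ 2 : ℂ) = (4 / α ^ 2) * D := by
        rw [← hs]; field_simp; ring
      have h3 : (4 * γ / α ^ 2 : ℂ) = (4 / α ^ 2) * γ := by ring
      rw [hP', mul_pow, ← C_pow, h2, h1, h3, C_mul, C_mul, C_mul]
      linear_combination (C (4 / α ^ 2) : ℂ[X]) * hfac
    · intro p' hp1 hp2 t e ε γ' he hε hγ' ht
      obtain ⟨w, hw⟩ := IsAlgClosed.exists_pow_nat_eq γ' (n := 2) (by norm_num)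
      have hw0 : w ≠ 0 := by
        rintro rfl
        apply hγ'
        rw [← hw]; ring
      apply hp p' hp1 hp2 t (C w * e) ε (mul_ne_zero (C_ne_zero.2 hw0) he) hε
      rw [ht, mul_pow, ← C_pow, hw, mul_assoc]
  have hirr := irr_F0 hdat
  have h4 : Irreducible (sg s (F0 m β P')) := by
    rw [← sgE_apply s hs0]
    exact (MulEquiv.irreducible_iff (sgE s hs0)).2 hirr
  have h5 : MvPolynomial.C (2 * s) * MvPolynomial.map (Int.castRingHom ℂ) (FF D n1 n2 g0 m P)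
      = MvPolynomial.C α * sg s (F0 m β P') := by
    have h6 := map_Phi D n1 n2 s hs m
    have h7 := map_aeval_Qf D s hs P
    have h8 : sg s (aeval (MvPolynomial.X 0 * MvPolynomial.X 1) P')
        = MvPolynomial.C (2 * s / α) * sg s (aeval (MvPolynomial.X 0 * MvPolynomial.X 1)
          (P.map (Int.castRingHom ℂ))) := by
      rw [hP', map_mul, map_mul, aeval_C, MvPolynomial.algebraMap_eq, MvPolynomial.algHom_C,
        MvPolynomial.algebraMap_eq]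
    have h9 : (MvPolynomial.C α * MvPolynomial.C (2 * s / α) : MvPolynomial (Fin 2) ℂ)
        = MvPolynomial.C (2 * s) := by
      rw [← MvPolynomial.C_mul]; congr 1; field_simp
    have h10 : (MvPolynomial.C α * MvPolynomial.C β : MvPolynomial (Fin 2) ℂ)
        = MvPolynomial.C (g0 : ℂ) * MvPolynomial.C (n1 - n2 * s) := by
      rw [← MvPolynomial.C_mul, ← MvPolynomial.C_mul]; congr 1; rw [hβd]; field_simp
    have h11 : (MvPolynomial.C α : MvPolynomial (Fin 2) ℂ)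
        = MvPolynomial.C (g0 : ℂ) * MvPolynomial.C (n1 + n2 * s) := by
      rw [← MvPolynomial.C_mul, hαd]
    rw [FF, map_sub, RingHom.map_mul (MvPolynomial.map (Int.castRingHom ℂ)), MvPolynomial.map_C, F0,
      map_sub, map_sub, h7, h8]
    have h12 : ((Int.castRingHom ℂ) g0) = (g0 : ℂ) := rfl
    rw [h12]
    have e1 : (MvPolynomial.C ((n1 : ℂ) - n2 * s) : MvPolynomial (Fin 2) ℂ)
        = MvPolynomial.C (n1 : ℂ) - MvPolynomial.C (n2 : ℂ) * MvPolynomial.C s := by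
      rw [MvPolynomial.C_sub, MvPolynomial.C_mul]
    have e2 : (MvPolynomial.C (2 * s) : MvPolynomial (Fin 2) ℂ)
        = MvPolynomial.C 2 * MvPolynomial.C s := MvPolynomial.C_mul
    rw [e1] at h10
    rw [e2] at h9
    simp only [map_mul, map_sub, map_pow, MvPolynomial.algHom_C, MvPolynomial.algebraMap_eq] at h6 ⊢
    linear_combination (MvPolynomial.C (g0 : ℂ)) * h6 -
      (sg s (MvPolynomial.X 0) ^ m) * h11 + (sg s (MvPolynomial.X 1) ^ m) * h10 +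
      (sg s (aeval (MvPolynomial.X 0 * MvPolynomial.X 1) (P.map (Int.castRingHom ℂ)))) * h9
  have hu1 : IsUnit (MvPolynomial.C (2 * s) : MvPolynomial (Fin 2) ℂ) :=
    (isUnit_iff_ne_zero.2 (mul_ne_zero two_ne_zero hs0)).map _
  have hu2 : IsUnit (MvPolynomial.C α : MvPolynomial (Fin 2) ℂ) :=
    (isUnit_iff_ne_zero.2 hα0).map _
  rw [← irreducible_isUnit_mul hu1, h5, irreducible_isUnit_mul hu2]
  exact h4

lemma dvd_X_pow {g : MvPolynomial (Fin 2) ℂ} {n : ℕ} (h0 : g ∣ MvPolynomial.X 0 ^ n)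
    (h1 : g ∣ MvPolynomial.X 1 ^ n) : IsUnit g := by
  obtain ⟨i, hi, hg⟩ := (dvd_prime_pow (MvPolynomial.X_prime (i := (0 : Fin 2)) (R := ℂ)) n).1 h0
  rcases Nat.eq_zero_or_pos i with h | h
  · rw [h, pow_zero] at hg
    exact associated_one_iff_isUnit.1 hg
  · exfalso
    have h2 : (MvPolynomial.X 0 : MvPolynomial (Fin 2) ℂ) ∣ MvPolynomial.X 1 ^ n :=
      ((dvd_pow_self _ h.ne').trans hg.symm.dvd).trans h1
    obtain ⟨q, hq⟩ := h2
    have h3 := congrArg (MvPolynomial.eval ![(0 : ℂ), 1]) hq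
    simp at h3

lemma sqf_form (m : ℕ) (hm : 0 < m) (α β : ℂ) (hα : α ≠ 0) (hβ : β ≠ 0) :
    Squarefree (MvPolynomial.C α * MvPolynomial.X 0 ^ m
      - MvPolynomial.C β * MvPolynomial.X 1 ^ m : MvPolynomial (Fin 2) ℂ) := by
  intro g hg
  obtain ⟨q, hq⟩ := hg
  have hm' : ((m : ℕ) : ℂ) ≠ 0 := by exact_mod_cast hm.ne'
  have h0 : g ∣ MvPolynomial.pderiv 0 (MvPolynomial.C α * MvPolynomial.X 0 ^ m
      - MvPolynomial.C β * MvPolynomial.X 1 ^ m : MvPolynomial (Fin 2) ℂ) := by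
    rw [hq]
    simp only [Derivation.leibniz, smul_eq_mul]
    exact ⟨g * MvPolynomial.pderiv 0 q + 2 * (q * MvPolynomial.pderiv 0 g), by ring⟩
  have h1 : g ∣ MvPolynomial.pderiv 1 (MvPolynomial.C α * MvPolynomial.X 0 ^ m
      - MvPolynomial.C β * MvPolynomial.X 1 ^ m : MvPolynomial (Fin 2) ℂ) := by
    rw [hq]
    simp only [Derivation.leibniz, smul_eq_mul]
    exact ⟨g * MvPolynomial.pderiv 1 q + 2 * (q * MvPolynomial.pderiv 1 g), by ring⟩
  have e0 : MvPolynomial.pderiv 0 (MvPolynomial.C α * MvPolynomial.X 0 ^ m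
      - MvPolynomial.C β * MvPolynomial.X 1 ^ m : MvPolynomial (Fin 2) ℂ)
      = MvPolynomial.C (α * m) * MvPolynomial.X 0 ^ (m - 1) := by
    simp [Derivation.leibniz_pow, MvPolynomial.pderiv_X]
    ring
  have e1 : MvPolynomial.pderiv 1 (MvPolynomial.C α * MvPolynomial.X 0 ^ m
      - MvPolynomial.C β * MvPolynomial.X 1 ^ m : MvPolynomial (Fin 2) ℂ)
      = MvPolynomial.C (-(β * m)) * MvPolynomial.X 1 ^ (m - 1) := by
    simp [Derivation.leibniz_pow, MvPolynomial.pderiv_X]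
    ring
  rw [e0] at h0
  rw [e1] at h1
  have u0 : IsUnit (MvPolynomial.C (α * m) : MvPolynomial (Fin 2) ℂ) :=
    (isUnit_iff_ne_zero.2 (mul_ne_zero hα hm')).map _
  have u1 : IsUnit (MvPolynomial.C (-(β * m)) : MvPolynomial (Fin 2) ℂ) :=
    (isUnit_iff_ne_zero.2 (neg_ne_zero.2 (mul_ne_zero hβ hm'))).map _
  exact dvd_X_pow ((u0.dvd_mul_left).1 h0) ((u1.dvd_mul_left).1 h1)

theorem sqf_Phi (D : ℤ) (hD : D ≠ 0) (n1 n2 g0 : ℤ) (hN : n1 ^ 2 - D * n2 ^ 2 ≠ 0) (hg : g0 ≠ 0)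
    (m : ℕ) (hm : 0 < m) :
    Squarefree (MvPolynomial.map (Int.castRingHom ℚ) (MvPolynomial.C g0 * Phi D n1 n2 m)) := by
  apply sqf_of_map
  obtain ⟨s, hs⟩ : ∃ s : ℂ, s ^ 2 = D := by
    obtain ⟨s, hs⟩ := IsAlgClosed.exists_pow_nat_eq (D : ℂ) (n := 2) (by norm_num)
    exact ⟨s, hs⟩
  have hs0 : s ≠ 0 := by
    rintro rfl
    apply hD
    have : (D : ℂ) = 0 := by rw [← hs]; ring
    exact_mod_cast this
  have hαβ : ((n1 : ℂ) + n2 * s) * (n1 - n2 * s) = ((n1 ^ 2 - D * n2 ^ 2 : ℤ) : ℂ) := by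
    push_cast
    rw [← hs]; ring
  have hαβ0 : ((n1 : ℂ) + n2 * s) * (n1 - n2 * s) ≠ 0 := by
    rw [hαβ]; exact_mod_cast hN
  have hα : (n1 : ℂ) + n2 * s ≠ 0 := left_ne_zero_of_mul hαβ0
  have hβ : (n1 : ℂ) - n2 * s ≠ 0 := right_ne_zero_of_mul hαβ0
  have hg' : (g0 : ℂ) ≠ 0 := by exact_mod_cast hg
  have h1 := sqf_form m hm _ _ hα hβ
  have h2 : Squarefree (sg s (MvPolynomial.C (n1 + n2 * s) * MvPolynomial.X 0 ^ m
        - MvPolynomial.C (n1 - n2 * s) * MvPolynomial.X 1 ^ m)) := by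
    intro g hg2
    have h3 : (sgE s hs0).symm g * (sgE s hs0).symm g ∣
        (MvPolynomial.C (n1 + n2 * s) * MvPolynomial.X 0 ^ m
        - MvPolynomial.C (n1 - n2 * s) * MvPolynomial.X 1 ^ m : MvPolynomial (Fin 2) ℂ) := by
      have h4 := map_dvd (sgE s hs0).symm hg2
      rw [← sgE_apply s hs0, AlgEquiv.symm_apply_apply, map_mul] at h4
      exact h4
    have h5 := h1 _ h3
    have h6 := h5.map (sgE s hs0)
    rwa [AlgEquiv.apply_symm_apply] at h6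
  rw [← map_Phi D n1 n2 s hs m] at h2
  have u1 : IsUnit (MvPolynomial.C (2 * s) : MvPolynomial (Fin 2) ℂ) :=
    (isUnit_iff_ne_zero.2 (mul_ne_zero two_ne_zero hs0)).map _
  have u2 : IsUnit (MvPolynomial.C (g0 : ℂ) : MvPolynomial (Fin 2) ℂ) :=
    (isUnit_iff_ne_zero.2 hg').map _
  rw [map_mul, MvPolynomial.map_C]
  intro g hg2
  have h7 : g * g ∣ MvPolynomial.map (Int.castRingHom ℂ) (Phi D n1 n2 m) :=
    (u2.dvd_mul_left).1 hg2
  exact h2 g (h7.mul_left _)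

lemma totalDegree_aeval_Qf (D : ℤ) (P : ℤ[X]) :
    (aeval (Qf D) P).totalDegree ≤ 2 * P.natDegree := by
  rw [aeval_eq_sum_range]
  refine (MvPolynomial.totalDegree_finsetSum _ _).trans ?_
  apply Finset.sup_le
  intro i hi
  refine (MvPolynomial.totalDegree_smul_le _ _).trans ?_
  refine (MvPolynomial.totalDegree_pow _ _).trans ?_
  have h1 : (Qf D).totalDegree ≤ 2 := by
    rw [Qf]
    refine (MvPolynomial.totalDegree_sub _ _).trans (max_le ?_ ?_)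
    · exact (MvPolynomial.totalDegree_X_pow _ _).le
    · refine (MvPolynomial.totalDegree_mul _ _).trans ?_
      rw [MvPolynomial.totalDegree_C, zero_add]
      exact (MvPolynomial.totalDegree_X_pow _ _).le
  have h2 : i ≤ P.natDegree := by
    rw [Finset.mem_range] at hi; omega
  calc i * _ ≤ P.natDegree * 2 := Nat.mul_le_mul h2 h1
    _ = _ := by ring

theorem deg_FF (D : ℤ) (hD : D ≠ 0) (n1 n2 g0 : ℤ) (hN : n1 ^ 2 - D * n2 ^ 2 ≠ 0) (hg : g0 ≠ 0)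
    (m : ℕ) (hm : 0 < m) (P : ℤ[X]) (hP : 2 * P.natDegree < m) :
    (FF D n1 n2 g0 m P).totalDegree = m ∧
      MvPolynomial.homogeneousComponent m (FF D n1 n2 g0 m P)
        = MvPolynomial.C g0 * Phi D n1 n2 m := by
  have h0 : MvPolynomial.C g0 * Phi D n1 n2 m ≠ 0 := by
    intro h0
    have h1 := sqf_Phi D hD n1 n2 g0 hN hg m hm
    rw [h0, map_zero] at h1
    exact h1.ne_zero rfl
  have h1 : (MvPolynomial.C g0 * Phi D n1 n2 m).IsHomogeneous m := by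
    have := (MvPolynomial.isHomogeneous_C (Fin 2) g0).mul (Phi_hom D n1 n2 m)
    rwa [zero_add] at this
  have h2 := h1.totalDegree h0
  have h3 : (aeval (Qf D) P).totalDegree < m := (totalDegree_aeval_Qf D P).trans_lt hP
  constructor
  · rw [FF, sub_eq_add_neg, MvPolynomial.totalDegree_add_eq_left_of_totalDegree_lt, h2]
    rw [MvPolynomial.totalDegree_neg, h2]
    exact h3
  · rw [FF, map_sub, MvPolynomial.homogeneousComponent_eq_zero _ _ h3, sub_zero,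
      MvPolynomial.homogeneousComponent_of_mem h1, if_pos rfl]

/-- the real slopes at infinity form a finite set depending only on `D, n₁, n₂, m` -/
theorem fin_roots (D : ℤ) (hD : D ≠ 0) (n1 n2 : ℤ) (hN : n1 ^ 2 - D * n2 ^ 2 ≠ 0) (m : ℕ)
    (hm : 0 < m) :
    {t : ℝ | MvPolynomial.aeval ![1, t] (Phi D n1 n2 m) = 0}.Finite := by
  obtain ⟨s, hs⟩ : ∃ s : ℂ, s ^ 2 = D := by
    obtain ⟨s, hs⟩ := IsAlgClosed.exists_pow_nat_eq (D : ℂ) (n := 2) (by norm_num)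
    exact ⟨s, hs⟩
  have hs0 : s ≠ 0 := by
    rintro rfl
    apply hD
    have : (D : ℂ) = 0 := by rw [← hs]; ring
    exact_mod_cast this
  have hαβ : ((n1 : ℂ) + n2 * s) * (n1 - n2 * s) = ((n1 ^ 2 - D * n2 ^ 2 : ℤ) : ℂ) := by
    push_cast
    rw [← hs]; ring
  have hαβ0 : ((n1 : ℂ) + n2 * s) * (n1 - n2 * s) ≠ 0 := by
    rw [hαβ]; exact_mod_cast hN
  obtain ⟨φ, hφ⟩ : ∃ φ : ℂ[X], φ = C ((n1 : ℂ) + n2 * s) * (1 + C s * X) ^ m
      - C ((n1 : ℂ) - n2 * s) * (1 - C s * X) ^ m := ⟨_, rfl⟩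
  have hφ0 : φ ≠ 0 := by
    intro h0
    have h1 := congrArg (Polynomial.eval (1 / s)) h0
    rw [hφ] at h1
    simp only [eval_sub, eval_mul, eval_C, eval_pow, eval_add, eval_one, eval_X, eval_zero] at h1
    have h2 : s * (1 / s) = 1 := by field_simp
    rw [h2, sub_self, zero_pow hm.ne', mul_zero, sub_zero] at h1
    have h3 : ((n1 : ℂ) + n2 * s) ≠ 0 := left_ne_zero_of_mul hαβ0
    exact mul_ne_zero h3 (pow_ne_zero _ (by norm_num)) h1
  apply Set.Finite.subset ((φ.roots.toFinset.finite_toSet).preimage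
    (f := (fun t : ℝ => (t : ℂ))) (Complex.ofReal_injective.injOn))
  intro t ht
  simp only [Set.mem_preimage, Finset.mem_coe, Multiset.mem_toFinset]
  rw [mem_roots hφ0, IsRoot.def, hφ]
  have h1 := Phi_eval ((algebraMap ℝ ℂ).comp
    (MvPolynomial.aeval ![1, t] : MvPolynomial (Fin 2) ℤ →ₐ[ℤ] ℝ).toRingHom) D n1 n2 s hs m
  simp only [RingHom.comp_apply, AlgHom.toRingHom_eq_coe, RingHom.coe_coe,
    MvPolynomial.aeval_X, Matrix.cons_val_zero, Matrix.cons_val_one] at h1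
  have ht' : MvPolynomial.aeval ![1, t] (Phi D n1 n2 m) = 0 := ht
  rw [ht'] at h1
  simp only [eval_sub, eval_mul, eval_C, eval_pow, eval_add, eval_one, eval_X]
  simpa using h1.symm

end Pool.Agent.H16V
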