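import Mathlib

/-!
Generic lemmas for the irreducibility of `X^m - β Y^m - P(X Y)` in two variables.
-/

set_option autoImplicit false

open Polynomial

namespace Pool.Agent.H16V

theorem two_step {K Q L : Type} [Field K] [Field Q] [Field L] (i : K →+* Q) (j : Q →+* L)
    (τ : L) (w : Q) (m : ℕ) (hτ : τ ^ m = j w)
    (H1 : ∀ q : Q[X], q.degree < m → eval₂ j τ q = 0 → q = 0)
    (H2 : ∀ a b : K, i a + w * i b = 0 → a = 0 ∧ b = 0)
    (q : K[X]) (hq : q.natDegree < 2 * m) (h : eval₂ (j.comp i) τ q = 0) : q = 0 := by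
  obtain ⟨q0, hq0⟩ : ∃ q0, q0 = q %ₘ X ^ m := ⟨_, rfl⟩
  obtain ⟨q1, hq1⟩ : ∃ q1, q1 = q /ₘ X ^ m := ⟨_, rfl⟩
  have hs : q0 + X ^ m * q1 = q := by
    rw [hq0, hq1]; exact modByMonic_add_div q (X ^ m)
  have hd0 : q0.degree < m := by
    rw [hq0]
    have := degree_modByMonic_lt q (monic_X_pow (R := K) m)
    rwa [degree_X_pow] at this
  have hd1 : q1.degree < m := by
    rw [hq1]
    refine degree_le_natDegree.trans_lt ?_
    rw [natDegree_divByMonic _ (monic_X_pow m), natDegree_X_pow]
    exact_mod_cast (by omega)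
  obtain ⟨G, hG⟩ : ∃ G : Q[X], G = q0.map i + C w * q1.map i := ⟨_, rfl⟩
  have hGd : G.degree < m := by
    rw [hG]
    refine (degree_add_le _ _).trans_lt (max_lt ?_ ?_)
    · exact degree_map_le.trans_lt hd0
    · refine (degree_mul_le _ _).trans_lt ?_
      refine (add_le_add degree_C_le degree_map_le).trans_lt ?_
      rw [zero_add]; exact hd1
  have hG0 : G = 0 := by
    apply H1 G hGd
    rw [hG, eval₂_add, eval₂_mul, eval₂_C, eval₂_map, eval₂_map, ← hτ]
    rw [← hs, eval₂_add, eval₂_mul, eval₂_pow, eval₂_X] at h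
    exact h
  have hc : ∀ n, q0.coeff n = 0 ∧ q1.coeff n = 0 := by
    intro n
    have h1 := congrArg (fun g => Polynomial.coeff g n) hG0
    simp only [hG, coeff_add, coeff_C_mul, coeff_map, coeff_zero] at h1
    exact H2 _ _ h1
  rw [← hs]
  have e0 : q0 = 0 := by ext n; simpa using (hc n).1
  have e1 : q1 = 0 := by ext n; simpa using (hc n).2
  rw [e0, e1]; simp

/-- the polynomial of the curve -/
noncomputable def F0 {k : Type} [Field k] (m : ℕ) (β : k) (P : k[X]) : MvPolynomial (Fin 2) k :=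
  MvPolynomial.X 0 ^ m - MvPolynomial.C β * MvPolynomial.X 1 ^ m -
    aeval (MvPolynomial.X 0 * MvPolynomial.X 1 : MvPolynomial (Fin 2) k) P

section

variable {k K L : Type} [Field k] [Field K] [Field L]

/-- the point of the curve over the big field -/
noncomputable def phi (a : k[X] →+* K) (i : K →+* L) (τ : L) :
    MvPolynomial (Fin 2) k →+* L :=
  MvPolynomial.eval₂Hom ((i.comp a).comp C) ![τ, i (a X) / τ]

theorem zero_of_phi (a : k[X] →+* K) (ha : Function.Injective a) (i : K →+* L) (τ : L)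
    (hτ : τ ≠ 0) (m : ℕ)
    (H : ∀ q : K[X], q.natDegree < 2 * m → eval₂ i τ q = 0 → q = 0)
    (G : MvPolynomial (Fin 2) k) (hG : G.totalDegree < m)
    (h : phi a i τ G = 0) : G = 0 := by
  obtain ⟨d, hd⟩ : ∃ d, d = G.totalDegree := ⟨_, rfl⟩
  have hle : ∀ μ ∈ G.support, μ 0 + μ 1 ≤ d := by
    intro μ hμ
    have h1 := MvPolynomial.le_totalDegree hμ
    rw [Finsupp.sum_fintype _ _ (fun _ => rfl), Fin.sum_univ_two] at h1
    rw [hd]; exact h1
  obtain ⟨q, hq⟩ : ∃ q : K[X], q = ∑ μ ∈ G.support,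
      monomial (d + μ 0 - μ 1) (a (monomial (μ 1) (G.coeff μ))) := ⟨_, rfl⟩
  have hqd : q.natDegree < 2 * m := by
    rw [hq]
    refine lt_of_le_of_lt (natDegree_sum_le_of_forall_le (n := 2 * d) _ _ ?_) (by omega)
    intro μ hμ
    refine (natDegree_monomial_le _).trans ?_
    have := hle μ hμ
    omega
  have hq0 : q = 0 := by
    apply H q hqd
    have h1 : eval₂ i τ q = τ ^ d * phi a i τ G := by
      rw [hq, eval₂_finsetSum, phi, MvPolynomial.coe_eval₂Hom, MvPolynomial.eval₂_eq',
        Finset.mul_sum]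
      apply Finset.sum_congr rfl
      intro μ hμ
      have h2 := hle μ hμ
      rw [eval₂_monomial, Fin.prod_univ_two]
      simp only [Matrix.cons_val_zero, Matrix.cons_val_one]
      have h3 : (monomial (μ 1) (G.coeff μ) : k[X]) = C (G.coeff μ) * X ^ (μ 1) :=
        (C_mul_X_pow_eq_monomial).symm
      rw [h3, map_mul, map_pow, map_mul, map_pow, div_pow]
      have h4 : τ ^ (d + μ 0 - μ 1) * τ ^ (μ 1) = τ ^ d * τ ^ (μ 0) := by
        rw [← pow_add, ← pow_add]
        congr 1
        omega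
      simp only [RingHom.coe_comp, Function.comp_apply]
      field_simp
      linear_combination (i (a (C (G.coeff μ))) * i (a X) ^ (μ 1)) * h4
    rw [h1, h, mul_zero]
  ext μ
  rw [MvPolynomial.coeff_zero]
  by_contra hμ0
  have hμ : μ ∈ G.support := MvPolynomial.mem_support_iff.2 hμ0
  have h1 := congrArg (fun g => Polynomial.coeff g (d + μ 0 - μ 1)) hq0
  simp only [hq, finsetSum_coeff, coeff_monomial, coeff_zero] at h1
  have h2 : (∑ ν ∈ G.support, if d + ν 0 - ν 1 = d + μ 0 - μ 1 then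
      (monomial (ν 1) (G.coeff ν) : k[X]) else 0) = 0 := by
    apply ha
    rw [map_sum, map_zero a, ← h1]
    apply Finset.sum_congr rfl
    intro ν _
    split_ifs <;> simp
  have h3 := congrArg (fun g => Polynomial.coeff g (μ 1)) h2
  simp only [finsetSum_coeff, coeff_zero] at h3
  rw [Finset.sum_eq_single μ] at h3
  · rw [if_pos rfl, coeff_monomial, if_pos rfl] at h3
    exact hμ0 h3
  · intro ν hν hne
    split_ifs with h4
    · rw [coeff_monomial, if_neg]
      intro h5
      apply hne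
      have h6 := hle ν hν
      have h7 := hle μ hμ
      ext i
      fin_cases i
      · change ν 0 = μ 0
        omega
      · exact h5
    · simp
  · intro h8; exact absurd hμ h8

lemma phi_F0 (a : k[X] →+* K) (i : K →+* L) (τ : L) (hτ : τ ≠ 0) (m : ℕ) (β : k) (P : k[X])
    (h : (τ ^ m) ^ 2 = i (a P) * τ ^ m + i (a (C β * X ^ m))) :
    phi a i τ (F0 m β P) = 0 := by
  have h0 : phi a i τ (MvPolynomial.X 0) = τ := by
    simp [phi]
  have h1 : phi a i τ (MvPolynomial.X 1) = i (a X) / τ := by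
    simp [phi]
  have hc : ∀ c : k, phi a i τ (MvPolynomial.C c) = i (a (C c)) := by
    intro c
    simp [phi]
  have h2 : phi a i τ (aeval (MvPolynomial.X 0 * MvPolynomial.X 1 : MvPolynomial (Fin 2) k) P)
      = i (a P) := by
    have h3 : ((phi a i τ).comp (aeval (MvPolynomial.X 0 * MvPolynomial.X 1 :
        MvPolynomial (Fin 2) k)).toRingHom) = i.comp a := by
      apply Polynomial.ringHom_ext
      · intro c
        simp only [RingHom.comp_apply, AlgHom.toRingHom_eq_coe, RingHom.coe_coe, aeval_C]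
        exact hc c
      · simp only [RingHom.comp_apply, AlgHom.toRingHom_eq_coe, RingHom.coe_coe, aeval_X]
        rw [map_mul, h0, h1]
        field_simp
    exact congrArg (fun g : k[X] →+* L => g P) h3
  obtain ⟨w, hw⟩ : ∃ w, w = τ ^ m := ⟨_, rfl⟩
  have hw0 : w ≠ 0 := by rw [hw]; exact pow_ne_zero _ hτ
  rw [F0, map_sub, map_sub, map_mul, map_pow, map_pow, h0, h1, hc, h2, div_pow]
  rw [map_mul, map_mul, map_pow, map_pow] at h
  rw [← hw] at h ⊢
  field_simp
  linear_combination h

lemma totalDegree_aeval_mul (P : k[X]) :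
    (aeval (MvPolynomial.X 0 * MvPolynomial.X 1 : MvPolynomial (Fin 2) k) P).totalDegree
      ≤ 2 * P.natDegree := by
  rw [aeval_eq_sum_range]
  refine (MvPolynomial.totalDegree_finsetSum _ _).trans ?_
  apply Finset.sup_le
  intro i hi
  refine (MvPolynomial.totalDegree_smul_le _ _).trans ?_
  refine (MvPolynomial.totalDegree_pow _ _).trans ?_
  have h1 : (MvPolynomial.X 0 * MvPolynomial.X 1 : MvPolynomial (Fin 2) k).totalDegree ≤ 2 := by
    refine (MvPolynomial.totalDegree_mul _ _).trans ?_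
    rw [MvPolynomial.totalDegree_X, MvPolynomial.totalDegree_X]
  have h2 : i ≤ P.natDegree := by
    rw [Finset.mem_range] at hi; omega
  calc i * _ ≤ P.natDegree * 2 := Nat.mul_le_mul h2 h1
    _ = _ := by ring

lemma F0_ne_zero {m : ℕ} {β : k} {P : k[X]} (hm : 0 < m) : F0 m β P ≠ 0 := by
  intro h0
  have h1 := congrArg (MvPolynomial.aeval ![(X : k[X]), 0]) h0
  rw [F0, map_sub, map_sub, map_mul, map_pow, map_pow] at h1
  have h2 : MvPolynomial.aeval ![(X : k[X]), 0]
      (aeval (MvPolynomial.X 0 * MvPolynomial.X 1 : MvPolynomial (Fin 2) k) P)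
        = C (P.eval 0) := by
    have h3 := Polynomial.aeval_algHom_apply (MvPolynomial.aeval ![(X : k[X]), 0])
      (MvPolynomial.X 0 * MvPolynomial.X 1 : MvPolynomial (Fin 2) k) P
    rw [← h3, map_mul, MvPolynomial.aeval_X, MvPolynomial.aeval_X]
    simp only [Matrix.cons_val_zero, Matrix.cons_val_one, mul_zero]
    rw [aeval_def, ← C_0, algebraMap_eq, eval₂_at_apply]
  rw [h2, MvPolynomial.aeval_X, MvPolynomial.aeval_X, map_zero] at h1
  simp only [Matrix.cons_val_zero, Matrix.cons_val_one] at h1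
  rw [zero_pow hm.ne', mul_zero, sub_zero] at h1
  exact X_pow_sub_C_ne_zero hm _ h1

theorem irr_gen (a : k[X] →+* K) (ha : Function.Injective a) (i : K →+* L) (τ : L)
    (hτ : τ ≠ 0) (m : ℕ) (hm : 0 < m) (β : k) (P : k[X]) (hP : 2 * P.natDegree < m)
    (H : ∀ q : K[X], q.natDegree < 2 * m → eval₂ i τ q = 0 → q = 0)
    (h : (τ ^ m) ^ 2 = i (a P) * τ ^ m + i (a (C β * X ^ m))) : Irreducible (F0 m β P) := by
  have h0 := F0_ne_zero (β := β) (P := P) hm
  have hd : (F0 m β P).totalDegree ≤ m := by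
    rw [F0]
    refine (MvPolynomial.totalDegree_sub _ _).trans (max_le ?_ ?_)
    · refine (MvPolynomial.totalDegree_sub _ _).trans (max_le ?_ ?_)
      · refine (MvPolynomial.totalDegree_pow _ _).trans ?_
        rw [MvPolynomial.totalDegree_X, mul_one]
      · refine (MvPolynomial.totalDegree_mul _ _).trans ?_
        rw [MvPolynomial.totalDegree_C, zero_add]
        refine (MvPolynomial.totalDegree_pow _ _).trans ?_
        rw [MvPolynomial.totalDegree_X, mul_one]
    · exact (totalDegree_aeval_mul P).trans hP.le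
  have hφ0 := phi_F0 a i τ hτ m β P h
  have key : ∀ G1 G2 : MvPolynomial (Fin 2) k, F0 m β P = G1 * G2 → phi a i τ G1 = 0 →
      IsUnit G2 := by
    intro G1 G2 hG hφ
    have hG1 : G1 ≠ 0 := by rintro rfl; exact h0 (by rw [hG, zero_mul])
    have hG2 : G2 ≠ 0 := by rintro rfl; exact h0 (by rw [hG, mul_zero])
    have h1 : m ≤ G1.totalDegree := by
      by_contra hlt
      exact hG1 (zero_of_phi a ha i τ hτ m H G1 (not_le.1 hlt) hφ)
    have h2 := MvPolynomial.totalDegree_mul_of_isDomain hG1 hG2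
    rw [← hG] at h2
    have h3 : G2.totalDegree = 0 := by omega
    rw [MvPolynomial.totalDegree_eq_zero_iff_eq_C] at h3
    rw [h3]
    apply IsUnit.map
    rw [isUnit_iff_ne_zero]
    intro h4
    rw [h4, map_zero] at h3
    exact hG2 h3
  refine ⟨?_, ?_⟩
  · intro hu
    have h1 := hu.map (phi a i τ)
    rw [hφ0] at h1
    exact not_isUnit_zero h1
  · intro G1 G2 hG
    rw [hG, map_mul] at hφ0
    rcases mul_eq_zero.1 hφ0 with h2 | h2
    · exact Or.inr (key G1 G2 hG h2)
    · exact Or.inl (key G2 G1 (by rw [hG, mul_comm]) h2)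

end

end Pool.Agent.H16V
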