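import Pool.Agent.H16V.Quad
import Pool.Agent.H16V.Gen

/-!
Irreducibility of `X^m - β Y^m - P(X Y)` in two variables.
-/

set_option autoImplicit false

open Polynomial

namespace Pool.Agent.H16V

section

variable {k : Type} [Field k] {m : ℕ} {β : k} {P : k[X]}

theorem irr_F0 (h : Dat k m β P) : Irreducible (F0 m β P) := by
  have hm : 0 < m := h.odd.pos
  have f1 : Fact (∀ r : KK k, r ^ 2 ≠
    algebraMap k[X] (KK k) (C β * X ^ m) + algebraMap k[X] (KK k) P * r) := ⟨ne_sq h⟩
  have f2 : Irreducible (X ^ m - C (QuadraticAlgebra.omega : QQ m β P) : (QQ m β P)[X]) := by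
    rw [X_pow_sub_C_irreducible_iff_forall_prime_of_odd h.odd]
    intro p hp hpm b
    exact not_pow h p hp hpm b
  have f3 : Fact (Irreducible (X ^ m - C (QuadraticAlgebra.omega : QQ m β P) : (QQ m β P)[X])) :=
    ⟨f2⟩
  obtain ⟨g, hg⟩ : ∃ g : (QQ m β P)[X], g = X ^ m - C (QuadraticAlgebra.omega : QQ m β P) :=
    ⟨_, rfl⟩
  rw [← hg] at f3
  have hroot : (AdjoinRoot.root g) ^ m = AdjoinRoot.of g QuadraticAlgebra.omega := by
    have h1 := AdjoinRoot.eval₂_root g
    have h2 : eval₂ (AdjoinRoot.of g) (AdjoinRoot.root g)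
        (X ^ m - C (QuadraticAlgebra.omega : QQ m β P)) = 0 := by
      rw [← hg]; exact h1
    rw [eval₂_sub, eval₂_pow, eval₂_X, eval₂_C, sub_eq_zero] at h2
    exact h2
  have hω : (QuadraticAlgebra.omega : QQ m β P) ≠ 0 := by
    intro h0
    have := congrArg QuadraticAlgebra.im h0
    rw [QuadraticAlgebra.omega_im, QuadraticAlgebra.im_zero] at this
    exact one_ne_zero this
  have hτ : AdjoinRoot.root g ≠ 0 := by
    intro h0
    rw [h0, zero_pow hm.ne'] at hroot
    exact hω ((map_eq_zero _).1 hroot.symm)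
  apply irr_gen (K := KK k) (L := AdjoinRoot g) (algebraMap k[X] (KK k))
    (IsFractionRing.injective k[X] (KK k))
    ((AdjoinRoot.of g).comp (algebraMap (KK k) (QQ m β P))) (AdjoinRoot.root g) hτ m hm β P h.deg
  · apply two_step (algebraMap (KK k) (QQ m β P)) (AdjoinRoot.of g) (AdjoinRoot.root g)
      QuadraticAlgebra.omega m hroot
    · intro q hq h1
      have h2 : AdjoinRoot.mk g q = 0 := by
        rw [← AdjoinRoot.aeval_eq]
        exact h1
      rw [AdjoinRoot.mk_eq_zero] at h2
      by_contra h0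
      have h3 := Polynomial.degree_le_of_dvd h2 h0
      rw [hg, degree_X_pow_sub_C hm] at h3
      exact absurd hq (not_lt.2 h3)
    · intro a b hab
      have h2 := congrArg QuadraticAlgebra.re hab
      have h3 := congrArg QuadraticAlgebra.im hab
      simp at h2 h3
      exact ⟨h2, h3⟩
  · have e1 : (AdjoinRoot.root g ^ m) ^ 2 = AdjoinRoot.of g
        (algebraMap k[X] (QQ m β P) P * QuadraticAlgebra.omega
          + algebraMap k[X] (QQ m β P) (C β * X ^ m)) := by
      rw [hroot, ← omega_sq, RingHom.map_pow]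
    have e2 : AdjoinRoot.of g (algebraMap k[X] (QQ m β P) P * QuadraticAlgebra.omega
          + algebraMap k[X] (QQ m β P) (C β * X ^ m)) =
        AdjoinRoot.of g (algebraMap k[X] (QQ m β P) P) * AdjoinRoot.of g QuadraticAlgebra.omega
        + AdjoinRoot.of g (algebraMap k[X] (QQ m β P) (C β * X ^ m)) := by
      rw [RingHom.map_add, RingHom.map_mul (AdjoinRoot.of g)]
    rw [e1, e2, ← hroot]
    rfl

end

end Pool.Agent.H16V
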