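import Pool.Agent.H16V.Core

/-!
The bound in a Kummer class.
-/

set_option autoImplicit false

open Polynomial Pool.Agent.H322R2 IntermediateField

namespace Pool.Agent.H16V

lemma num_den (m : ℕ) (hm : 0 < m) (r : ℚ) (a b : ℤ) (ha : a ≠ 0) (hb : b ≠ 0)
    (h : r ^ m * b = a) :
    r.num ^ m * b = a * (r.den : ℤ) ^ m ∧ r.num.natAbs ≤ a.natAbs ∧ r.den ≤ b.natAbs := by
  have h1 : r.num ^ m * b = a * (r.den : ℤ) ^ m := by
    have h2 : (r.den : ℚ) ≠ 0 := by exact_mod_cast r.den_ne_zero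
    have h3 : ((r.num : ℚ) / r.den) ^ m * b = a := by rw [Rat.num_div_den]; exact h
    rw [div_pow] at h3
    field_simp at h3
    rw [mul_comm a]
    exact_mod_cast h3
  have h2 := congrArg Int.natAbs h1
  rw [Int.natAbs_mul, Int.natAbs_mul, Int.natAbs_pow, Int.natAbs_pow, Int.natAbs_natCast] at h2
  have hc : (r.num.natAbs ^ m).Coprime (r.den ^ m) := Nat.Coprime.pow m m r.reduced
  refine ⟨h1, ?_, ?_⟩
  · have h4 : r.num.natAbs ^ m ∣ a.natAbs := by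
      apply hc.dvd_of_dvd_mul_right
      exact ⟨_, h2.symm⟩
    have h5 := Nat.le_of_dvd (Int.natAbs_pos.2 ha) h4
    exact (Nat.le_self_pow hm.ne' _).trans h5
  · have h4 : r.den ^ m ∣ b.natAbs := by
      apply hc.symm.dvd_of_dvd_mul_left
      exact ⟨_, by rw [h2]; ring⟩
    have h5 := Nat.le_of_dvd (Int.natAbs_pos.2 hb) h4
    exact (Nat.le_self_pow hm.ne' _).trans h5

lemma kE_pos (m : ℕ) : 1 ≤ kE m := by
  apply Nat.one_le_iff_ne_zero.2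
  rw [kE]
  exact Nat.mul_ne_zero (Nat.mul_ne_zero (by norm_num) (pow_ne_zero _ (by norm_num)))
    (pow_ne_zero _ (by omega))

theorem kummer (m : ℕ) (hm : Odd m) (hm1 : 1 < m) (D : ℤ) (hD : D ≠ 0) (n1 n2 n3 : ℤ)
    (h3 : n3 ≠ 0) (hN1 : n1 ^ 2 - D * n2 ^ 2 ≠ 0) :
    ∃ K : ℕ, 1 ≤ K ∧ ∀ (f A B : ℤ[X]) (c e r : ℤ) (M : ℕ), c ≠ 0 → e ≠ 0 → c.natAbs ≤ M →
      e.natAbs ≤ M → r.natAbs ≤ M →
      (∀ i, (A.coeff i).natAbs ≤ M) → B ^ 2 * f = C D * A ^ 2 + C c * (C e * X + C r) ^ m →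
      2 * A.natDegree < m → Squarefree (f.map (Int.castRingHom ℚ)) →
      (∀ p : ℕ, p.Prime → p ∣ m → ∀ (t g : ℂ[X]) (ε : ℂ), g ≠ 0 → ε ≠ 0 →
        t ^ 2 ≠ g ^ 2 * f.map (Int.castRingHom ℂ) + C ε * (C (e : ℂ) * X + C (r : ℂ)) ^ (m / p)) →
      ∀ (x y : ℤ) (u v : ℚ), y ^ 2 = D * (A.eval x) ^ 2 + c * (e * x + r) ^ m →
      (∀ s : ℂ, s ^ 2 = D → ((n1 : ℂ) + n2 * s) * (u + v * s) ^ m
        = n3 * (y + (A.eval x : ℤ) * s)) →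
      x.natAbs ≤ (K * M) ^ ((m + 1) ^ 2 * kE m) := by
  obtain ⟨cc, hcc1, hmain⟩ := main1
  obtain ⟨h, hh⟩ : ∃ h, m = 2 * h + 1 := by
    obtain ⟨h, hh⟩ := hm; exact ⟨h, hh⟩
  have hm0 : 0 < m := by omega
  have hT := fin_roots D hD n1 n2 hN1 m hm0
  obtain ⟨c0, hc0⟩ : ∃ c0 : ℕ, c0 = ∑ t ∈ hT.toFinset, cc ℚ⟮t⟯ + 1 := ⟨_, rfl⟩
  have hc0' : ∀ t : ℝ, MvPolynomial.aeval ![1, t] (Phi D n1 n2 m) = 0 → cc ℚ⟮t⟯ ≤ c0 := by
    intro t ht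
    have h4 : t ∈ hT.toFinset := by rw [Set.Finite.mem_toFinset]; exact ht
    have h5 : cc ℚ⟮t⟯ ≤ ∑ t ∈ hT.toFinset, cc ℚ⟮t⟯ :=
      Finset.single_le_sum (f := fun t : ℝ => cc ℚ⟮t⟯) (fun _ _ => Nat.zero_le _) h4
    omega
  obtain ⟨N, hNd⟩ : ∃ N : ℤ, N = 2 * (n1 ^ 2 - D * n2 ^ 2) * D := ⟨_, rfl⟩
  have hN : N ≠ 0 := by rw [hNd]; exact mul_ne_zero (mul_ne_zero two_ne_zero hN1) hD
  have hN' : 1 ≤ N.natAbs := Nat.one_le_iff_ne_zero.2 (Int.natAbs_ne_zero.2 hN)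
  obtain ⟨a1, ha1⟩ : ∃ a1 : ℕ, a1 = (n1 ^ 2 - D * n2 ^ 2).natAbs := ⟨_, rfl⟩
  obtain ⟨a3, ha3⟩ : ∃ a3 : ℕ, a3 = (n3 ^ 2).natAbs := ⟨_, rfl⟩
  have ha1' : 1 ≤ a1 := by rw [ha1]; exact Nat.one_le_iff_ne_zero.2 (Int.natAbs_ne_zero.2 hN1)
  have ha3' : 1 ≤ a3 := by
    rw [ha3]; exact Nat.one_le_iff_ne_zero.2 (Int.natAbs_ne_zero.2 (pow_ne_zero _ h3))
  obtain ⟨L0, hL0⟩ : ∃ L0 : ℕ, L0 = a3 ^ h * N.natAbs ^ (2 * h) * len (Phi D n1 n2 m) +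
    (h + 1) * (((n3 * N ^ m).natAbs * a1 ^ h * a3 ^ h * N.natAbs ^ (2 * h)) *
      (1 + D.natAbs) ^ h) := ⟨_, rfl⟩
  obtain ⟨K', hK'⟩ : ∃ K' : ℕ, K' = a1 * (1 + D.natAbs) * (c0 * ((m + 1) * L0)) ^ (2 * kE m) :=
    ⟨_, rfl⟩
  obtain ⟨w, hw⟩ : ∃ w : ℕ, w = (h + 1) * 2 ^ h := ⟨_, rfl⟩
  have hw1 : 1 ≤ w := by rw [hw]; exact Nat.mul_pos (by omega) (Nat.pow_pos (by norm_num))
  obtain ⟨K, hK⟩ : ∃ K : ℕ, K = (K' + 1) * w ^ ((m + 1) * kE m) := ⟨_, rfl⟩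
  have hkE : 1 ≤ kE m := kE_pos m
  have hK1 : 1 ≤ K := by
    rw [hK]; exact Nat.mul_pos (by omega) (Nat.pow_pos hw1)
  refine ⟨K, hK1, ?_⟩
  intro f A B c e r M hc he hcM heM hrM hAM hfac hAd hsq hpr x y u v hy hcl
  have hM : 1 ≤ M := by
    have := Int.natAbs_ne_zero.2 hc
    omega
  obtain ⟨M', hM'⟩ : ∃ M' : ℕ, M' = w * M ^ (h + 1) := ⟨_, rfl⟩
  have hMM' : M ≤ M' := by
    rw [hM']
    calc M = 1 * M ^ 1 := by rw [pow_one, one_mul]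
      _ ≤ w * M ^ (h + 1) := Nat.mul_le_mul hw1 (Nat.pow_le_pow_right hM (by omega))
  have hM'1 : 1 ≤ M' := hM.trans hMM'
  have heh : (e ^ h).natAbs ≤ M' := by
    rw [Int.natAbs_pow, hM']
    calc e.natAbs ^ h ≤ M ^ h := Nat.pow_le_pow_left heM h
      _ = 1 * M ^ h := by rw [one_mul]
      _ ≤ w * M ^ (h + 1) := Nat.mul_le_mul hw1 (Nat.pow_le_pow_right hM (by omega))
  obtain ⟨x', hx'⟩ : ∃ x' : ℤ, x' = e * x + r := ⟨_, rfl⟩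
  rw [← hx'] at hy
  -- the end of the proof
  have hend : x'.natAbs ≤ K' * M' ^ ((m + 1) * kE m) →
      x.natAbs ≤ (K * M) ^ ((m + 1) ^ 2 * kE m) := by
    intro hle
    have g1 : x.natAbs ≤ x'.natAbs + M := by
      have g2 : (e * x).natAbs ≤ x'.natAbs + r.natAbs := by
        have : e * x = x' - r := by rw [hx']; ring
        rw [this]; exact Int.natAbs_sub_le _ _
      have g3 : x.natAbs ≤ (e * x).natAbs := by
        rw [Int.natAbs_mul]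
        exact Nat.le_mul_of_pos_left _ (Int.natAbs_pos.2 he)
      omega
    obtain ⟨k, hk⟩ : ∃ k, k = kE m := ⟨_, rfl⟩
    rw [← hk] at hle hK hkE ⊢
    have g4 : M ≤ M' ^ ((m + 1) * k) :=
      hMM'.trans (Nat.le_self_pow (Nat.mul_ne_zero (by omega) (by omega)) _)
    have g5 : x.natAbs ≤ (K' + 1) * M' ^ ((m + 1) * k) := by
      rw [add_mul, one_mul]
      omega
    refine g5.trans ?_
    have g6 : M' ^ ((m + 1) * k) ≤ w ^ ((m + 1) * k) * M ^ ((m + 1) ^ 2 * k) := by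
      rw [hM', mul_pow, ← pow_mul]
      apply Nat.mul_le_mul_left
      apply Nat.pow_le_pow_right hM
      have g7 : h + 1 ≤ m + 1 := by omega
      calc (h + 1) * ((m + 1) * k) ≤ (m + 1) * ((m + 1) * k) := Nat.mul_le_mul_right _ g7
        _ = _ := by ring
    calc (K' + 1) * M' ^ ((m + 1) * k) ≤ (K' + 1) * (w ^ ((m + 1) * k) * M ^ ((m + 1) ^ 2 * k)) :=
          Nat.mul_le_mul_left _ g6
      _ = K * M ^ ((m + 1) ^ 2 * k) := by rw [hK]; ring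
      _ ≤ K ^ ((m + 1) ^ 2 * k) * M ^ ((m + 1) ^ 2 * k) := by
          apply Nat.mul_le_mul_right
          exact Nat.le_self_pow (Nat.mul_ne_zero (pow_ne_zero _ (by omega)) (by omega)) _
      _ = _ := by rw [mul_pow]
  apply hend
  by_cases hx0 : x' = 0
  · rw [hx0]; simp
  have hAh : A.natDegree ≤ h := by omega
  -- the norm relation
  obtain ⟨s, hs, hs0⟩ := exists_s D hD
  have e1 := hcl s hs
  have e2 := hcl (-s) (by rw [neg_sq]; exact hs)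
  have hnorm : ((n1 ^ 2 - D * n2 ^ 2 : ℤ) : ℚ) * (u ^ 2 - D * v ^ 2) ^ m
      = ((n3 ^ 2 * c : ℤ) : ℚ) * (x' : ℚ) ^ m := by
    have h4 : (((n1 ^ 2 - D * n2 ^ 2 : ℤ) : ℂ)) * ((u : ℂ) ^ 2 - D * (v : ℂ) ^ 2) ^ m
        = ((n3 ^ 2 * c : ℤ) : ℂ) * (x' : ℂ) ^ m := by
      have h5 : ((u : ℂ) ^ 2 - D * (v : ℂ) ^ 2) ^ m = (u + v * s) ^ m * (u + v * -s) ^ m := by
        rw [← mul_pow]; congr 1; rw [← hs]; ring
      have h6 : ((n1 ^ 2 - D * n2 ^ 2 : ℤ) : ℂ) = ((n1 : ℂ) + n2 * s) * (n1 + n2 * -s) := by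
        push_cast; rw [← hs]; ring
      have h7 : (y : ℂ) ^ 2 = D * ((A.eval x : ℤ) : ℂ) ^ 2 + c * x' ^ m := by exact_mod_cast hy
      rw [h5, h6]
      calc _ = (((n1 : ℂ) + n2 * s) * (u + v * s) ^ m) *
            (((n1 : ℂ) + n2 * -s) * (u + v * -s) ^ m) := by ring
        _ = (n3 * (y + (A.eval x : ℤ) * s)) * (n3 * (y + (A.eval x : ℤ) * -s)) := by rw [e1, e2]
        _ = n3 ^ 2 * (y ^ 2 - s ^ 2 * (A.eval x : ℤ) ^ 2) := by ring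
        _ = _ := by rw [hs, h7]; push_cast; ring
    exact_mod_cast h4
  obtain ⟨Q, hQ⟩ : ∃ Q : ℚ, Q = u ^ 2 - D * v ^ 2 := ⟨_, rfl⟩
  rw [← hQ] at hnorm
  have hxq : (x' : ℚ) ≠ 0 := by exact_mod_cast hx0
  have hb : n3 ^ 2 * c ≠ 0 := mul_ne_zero (pow_ne_zero _ h3) hc
  have hb' : ((n3 ^ 2 * c : ℤ) : ℚ) ≠ 0 := by exact_mod_cast hb
  have hQ0 : Q ≠ 0 := by
    intro h0
    rw [h0, zero_pow hm0.ne', mul_zero] at hnorm
    exact mul_ne_zero hb' (pow_ne_zero _ hxq) hnorm.symm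
  obtain ⟨ρ, hρ⟩ : ∃ ρ : ℚ, ρ = x' / Q := ⟨_, rfl⟩
  have hρ0 : ρ ≠ 0 := by rw [hρ]; exact div_ne_zero hxq hQ0
  have hρm : ρ ^ m * ((n3 ^ 2 * c : ℤ) : ℚ) = ((n1 ^ 2 - D * n2 ^ 2 : ℤ) : ℚ) := by
    rw [hρ, div_pow]
    field_simp
    linear_combination -hnorm
  obtain ⟨hpq, hple, hqle⟩ := num_den m hm0 ρ _ _ hN1 hb hρm
  obtain ⟨p, hpd⟩ : ∃ p, p = ρ.num := ⟨_, rfl⟩
  obtain ⟨q, hqd⟩ : ∃ q, q = ρ.den := ⟨_, rfl⟩
  rw [← hpd, ← hqd] at hpq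
  rw [← hpd, ← ha1] at hple
  rw [← hqd] at hqle
  have hp0 : p ≠ 0 := by rw [hpd]; exact Rat.num_ne_zero.2 hρ0
  have hq0 : q ≠ 0 := by rw [hqd]; exact ρ.den_ne_zero
  have hqle' : q ≤ a3 * M' := by
    refine hqle.trans ?_
    rw [Int.natAbs_mul, ← ha3]
    exact Nat.mul_le_mul_left _ (hcM.trans hMM')
  have hxr : (x' : ℚ) = p / q * (u ^ 2 - D * v ^ 2) := by
    rw [hpd, hqd, Rat.num_div_den, ← hQ, hρ]
    field_simp
  -- the integral point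
  obtain ⟨⟨U, hU⟩, ⟨V, hV⟩⟩ := denoms m hm0 D n1 n2 n3 (A.eval x) y u v s hs e1
    (by linear_combination e2)
  rw [← hNd] at hU hV
  have hpt := point m D hD n1 n2 n3 (Ash A e r h) x' (A.eval x) (e ^ h) y u v h p N U V q
    (Ash_natDegree A e r h) hN hq0 hU hV hxr (by rw [hx']; exact Ash_eval A e r x h hAh) hcl
  have hirr := irr_curve m hm D hD n1 n2 n3 c e r f A B he hN1 h3 h (by omega) p N q hp0 hAh hN
    hq0 hpq hfac hsq hpr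
  obtain ⟨g0, hg0⟩ : ∃ g0 : ℤ, g0 = e ^ h * ((q : ℤ) ^ h * N ^ (2 * h)) := ⟨_, rfl⟩
  obtain ⟨P, hP⟩ : ∃ P : ℤ[X], P = Pz (Ash A e r h) (n3 * N ^ m) N p q h := ⟨_, rfl⟩
  rw [← hg0, ← hP] at hpt hirr
  have hg00 : g0 ≠ 0 := by
    rw [hg0]
    exact mul_ne_zero (pow_ne_zero _ he)
      (mul_ne_zero (pow_ne_zero _ (by exact_mod_cast hq0)) (pow_ne_zero _ hN))
  have hPd : 2 * P.natDegree < m := by
    have := Pz_natDegree (Ash A e r h) (n3 * N ^ m) N p q h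
    rw [hP]; omega
  obtain ⟨hdeg, hlead⟩ := deg_FF D hD n1 n2 g0 hN1 hg00 m hm0 P hPd
  have hmm := hmain (FF D n1 n2 g0 m P) hirr (by rw [hdeg]; omega)
    (by rw [hdeg, hlead]; exact sqf_Phi D hD n1 n2 g0 hN1 hg00 m hm0) U V hpt
  rw [hdeg, hlead] at hmm
  obtain ⟨ℓ, hℓ⟩ : ∃ ℓ, ℓ = len (FF D n1 n2 g0 m P) := ⟨_, rfl⟩
  rw [← hℓ] at hmm
  -- the length
  have hℓle : ℓ ≤ L0 * M' ^ (h + 1) := by
    rw [hℓ, FF]
    refine (len_sub_le _ _).trans ?_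
    have l1 : len (MvPolynomial.C g0 * Phi D n1 n2 m)
        ≤ a3 ^ h * N.natAbs ^ (2 * h) * len (Phi D n1 n2 m) * M' ^ (h + 1) := by
      refine (len_mul_le _ _).trans ?_
      have l2 : g0.natAbs ≤ M' * ((a3 * M') ^ h * N.natAbs ^ (2 * h)) := by
        rw [hg0, Int.natAbs_mul, Int.natAbs_mul, Int.natAbs_pow (q : ℤ), Int.natAbs_pow N,
          Int.natAbs_natCast]
        exact Nat.mul_le_mul heh (Nat.mul_le_mul_right _ (Nat.pow_le_pow_left hqle' _))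
      calc _ ≤ (M' * ((a3 * M') ^ h * N.natAbs ^ (2 * h))) * len (Phi D n1 n2 m) :=
            Nat.mul_le_mul_right _ ((len_C_le g0).trans l2)
        _ = _ := by
            rw [mul_pow, pow_succ]; ring
    have l3 := len_aeval D (Ash A e r h) (n3 * N ^ m) N p q h M' a1 a3 hN' ha1' ha3' hM'1
      (by
        intro i
        have := Ash_coeff A e r h M hM heM hrM hAM i
        rw [hM', hw]
        exact this) hple hqle'
    rw [← hP] at l3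
    refine (Nat.add_le_add l1 l3).trans (le_of_eq ?_)
    rw [hL0, mul_pow, pow_succ]
    ring
  -- the bound for U, V
  have hUV : U.natAbs ≤ (c0 * ((m + 1) * L0) * M' ^ (h + 1)) ^ kE m ∧
      V.natAbs ≤ (c0 * ((m + 1) * L0) * M' ^ (h + 1)) ^ kE m := by
    have hb1 : ∀ c1 : ℕ, c1 ≤ c0 →
        (c1 * ((m + 1) * ℓ)) ^ kE m ≤ (c0 * ((m + 1) * L0) * M' ^ (h + 1)) ^ kE m := by
      intro c1 hc1
      apply Nat.pow_le_pow_left
      calc c1 * ((m + 1) * ℓ) ≤ c0 * ((m + 1) * (L0 * M' ^ (h + 1))) :=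
            Nat.mul_le_mul hc1 (Nat.mul_le_mul_left _ hℓle)
        _ = _ := by ring
    rcases hmm with ⟨b1, b2⟩ | ⟨t, ht, -, b1, b2⟩
    · have := hb1 1 (by omega)
      rw [one_mul] at this
      exact ⟨b1.trans this, b2.trans this⟩
    · have ht' : MvPolynomial.aeval ![1, t] (Phi D n1 n2 m) = 0 := by
        rw [map_mul, MvPolynomial.aeval_C] at ht
        rcases mul_eq_zero.1 ht with h5 | h5
        · exfalso
          rw [algebraMap_int_eq, eq_intCast] at h5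
          exact hg00 (by exact_mod_cast h5)
        · exact h5
      have := hb1 _ (hc0' t ht')
      exact ⟨b1.trans this, b2.trans this⟩
  obtain ⟨Y, hY⟩ : ∃ Y, Y = (c0 * ((m + 1) * L0) * M' ^ (h + 1)) ^ kE m := ⟨_, rfl⟩
  rw [← hY] at hUV
  -- the bound for x'
  have hxU : x' * ((q : ℤ) * N ^ 2) = p * (U ^ 2 - D * V ^ 2) := by
    have hq' : (q : ℚ) ≠ 0 := by exact_mod_cast hq0
    have h5 : (x' : ℚ) * ((q : ℚ) * N ^ 2) = p * (U ^ 2 - D * V ^ 2) := by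
      rw [hxr, ← hU, ← hV]
      field_simp
    exact_mod_cast h5
  have hx1 : x'.natAbs ≤ a1 * (1 + D.natAbs) * Y ^ 2 := by
    have h6 := congrArg Int.natAbs hxU
    rw [Int.natAbs_mul x', Int.natAbs_mul p] at h6
    have h7 : x'.natAbs ≤ x'.natAbs * ((q : ℤ) * N ^ 2).natAbs := by
      apply Nat.le_mul_of_pos_right
      apply Int.natAbs_pos.2
      exact mul_ne_zero (by exact_mod_cast hq0) (pow_ne_zero _ hN)
    have h8 : (U ^ 2 - D * V ^ 2).natAbs ≤ (1 + D.natAbs) * Y ^ 2 := by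
      refine (Int.natAbs_sub_le _ _).trans ?_
      rw [Int.natAbs_mul, Int.natAbs_pow, Int.natAbs_pow]
      have h9 := Nat.pow_le_pow_left hUV.1 2
      have h10 := Nat.mul_le_mul_left D.natAbs (Nat.pow_le_pow_left hUV.2 2)
      calc _ ≤ Y ^ 2 + D.natAbs * Y ^ 2 := Nat.add_le_add h9 h10
        _ = _ := by ring
    calc x'.natAbs ≤ p.natAbs * (U ^ 2 - D * V ^ 2).natAbs := h7.trans h6.le
      _ ≤ a1 * ((1 + D.natAbs) * Y ^ 2) := Nat.mul_le_mul hple h8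
      _ = _ := by ring
  refine hx1.trans ?_
  obtain ⟨k, hk⟩ : ∃ k, k = kE m := ⟨_, rfl⟩
  rw [← hk] at hY hK' ⊢
  have hY2 : Y ^ 2 = (c0 * ((m + 1) * L0)) ^ (2 * k) * M' ^ ((m + 1) * k) := by
    have h11 : (h + 1) * (k * 2) = (m + 1) * k := by rw [hh]; ring
    rw [hY, ← pow_mul, mul_pow, ← pow_mul, h11, mul_comm k 2]
  rw [hY2, ← mul_assoc, hK']

end Pool.Agent.H16V
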