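import Pool.Agent.H322R2.Final1

/-!
The length of a polynomial in two variables.
-/

set_option autoImplicit false

open Pool.Agent.H322R2

namespace Pool.Agent.H16V

lemma len_eq_sum {F : MvPolynomial (Fin 2) ℤ} {s : Finset (Fin 2 →₀ ℕ)} (h : F.support ⊆ s) :
    len F = ∑ μ ∈ s, (F.coeff μ).natAbs := by
  unfold len
  apply Finset.sum_subset h
  intro μ _ hμ
  rw [MvPolynomial.notMem_support_iff] at hμ
  simp [hμ]

lemma len_add_le (F G : MvPolynomial (Fin 2) ℤ) : len (F + G) ≤ len F + len G := by
  classical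
  have h1 : (F + G).support ⊆ F.support ∪ G.support := MvPolynomial.support_add
  rw [len_eq_sum h1, len_eq_sum (Finset.subset_union_left (s₁ := F.support) (s₂ := G.support)),
    len_eq_sum (Finset.subset_union_right (s₁ := F.support) (s₂ := G.support)),
    ← Finset.sum_add_distrib]
  apply Finset.sum_le_sum
  intro μ _
  rw [MvPolynomial.coeff_add]
  exact Int.natAbs_add_le _ _

lemma len_neg (F : MvPolynomial (Fin 2) ℤ) : len (-F) = len F := by
  unfold len
  rw [MvPolynomial.support_neg]
  apply Finset.sum_congr rfl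
  intro μ _
  rw [MvPolynomial.coeff_neg, Int.natAbs_neg]

lemma len_sub_le (F G : MvPolynomial (Fin 2) ℤ) : len (F - G) ≤ len F + len G := by
  rw [sub_eq_add_neg]
  refine (len_add_le _ _).trans ?_
  rw [len_neg]

lemma len_zero : len 0 = 0 := by simp [len]

lemma len_sum_le {ι : Type} (s : Finset ι) (f : ι → MvPolynomial (Fin 2) ℤ) :
    len (∑ i ∈ s, f i) ≤ ∑ i ∈ s, len (f i) := by
  classical
  induction s using Finset.induction_on with
  | empty => simp [len_zero]
  | insert i s hi ih =>
    rw [Finset.sum_insert hi, Finset.sum_insert hi]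
    exact (len_add_le _ _).trans (Nat.add_le_add_left ih _)

lemma len_monomial_le (μ : Fin 2 →₀ ℕ) (a : ℤ) :
    len (MvPolynomial.monomial μ a) ≤ a.natAbs := by
  classical
  rw [len_eq_sum (s := {μ}) (MvPolynomial.support_monomial_subset), Finset.sum_singleton,
    MvPolynomial.coeff_monomial, if_pos rfl]

lemma len_mul_le (F G : MvPolynomial (Fin 2) ℤ) : len (F * G) ≤ len F * len G := by
  have h1 : F * G = ∑ μ ∈ F.support, ∑ ν ∈ G.support,
      MvPolynomial.monomial (μ + ν) (F.coeff μ * G.coeff ν) := by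
    conv_lhs => rw [F.as_sum, G.as_sum]
    rw [Finset.sum_mul_sum]
    apply Finset.sum_congr rfl
    intro μ _
    apply Finset.sum_congr rfl
    intro ν _
    rw [MvPolynomial.monomial_mul]
  rw [h1]
  refine (len_sum_le _ _).trans ?_
  have h2 : len F * len G = ∑ μ ∈ F.support, ∑ ν ∈ G.support,
      (F.coeff μ).natAbs * (G.coeff ν).natAbs := by
    unfold len
    rw [Finset.sum_mul_sum]
  rw [h2]
  apply Finset.sum_le_sum
  intro μ _
  refine (len_sum_le _ _).trans ?_
  apply Finset.sum_le_sum
  intro ν _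
  refine (len_monomial_le _ _).trans ?_
  rw [Int.natAbs_mul]

lemma len_C_le (a : ℤ) : len (MvPolynomial.C a) ≤ a.natAbs := len_monomial_le 0 a

lemma len_X_le (i : Fin 2) : len (MvPolynomial.X i) ≤ 1 := len_monomial_le _ 1

lemma len_pow_le (F : MvPolynomial (Fin 2) ℤ) (n : ℕ) : len (F ^ n) ≤ len F ^ n := by
  induction n with
  | zero =>
    rw [pow_zero, pow_zero]
    exact len_C_le 1
  | succ n ih =>
    rw [pow_succ, pow_succ]
    exact (len_mul_le _ _).trans (Nat.mul_le_mul_right _ ih)

end Pool.Agent.H16V
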