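import Pool.Agent.H16V.Form2
import Pool.Agent.H16V.Len

/-!
The rescaled polynomial and its length.
-/

set_option autoImplicit false

open Polynomial Pool.Agent.H322R2

namespace Pool.Agent.H16V

/-- the rescaled polynomial -/
noncomputable def Pz (A : ℤ[X]) (κ N p : ℤ) (q h : ℕ) : ℤ[X] :=
  ∑ j ∈ Finset.range (h + 1),
    C (κ * A.coeff j * p ^ j * (q : ℤ) ^ (h - j) * N ^ (2 * (h - j))) * X ^ j

lemma Pz_natDegree (A : ℤ[X]) (κ N p : ℤ) (q h : ℕ) : (Pz A κ N p q h).natDegree ≤ h := by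
  apply natDegree_sum_le_of_forall_le
  intro j hj
  refine (natDegree_C_mul_X_pow_le _ _).trans ?_
  rw [Finset.mem_range] at hj; omega

lemma Pz_coeff (A : ℤ[X]) (κ N p : ℤ) (q h n : ℕ) : (Pz A κ N p q h).coeff n =
    if n ≤ h then κ * A.coeff n * p ^ n * (q : ℤ) ^ (h - n) * N ^ (2 * (h - n)) else 0 := by
  rw [Pz, finsetSum_coeff]
  simp only [coeff_C_mul_X_pow]
  rw [Finset.sum_ite_eq]
  simp only [Finset.mem_range, Nat.lt_succ_iff]

lemma Pz_map (A : ℤ[X]) (κ N p : ℤ) (q h : ℕ) (hA : A.natDegree ≤ h) (hN : N ≠ 0) (hq : q ≠ 0) :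
    (Pz A κ N p q h).map (Int.castRingHom ℂ)
      = C ((κ : ℂ) * ((q : ℂ) ^ h * (N : ℂ) ^ (2 * h))) *
        (A.map (Int.castRingHom ℂ)).comp (C ((p : ℂ) / (q * N ^ 2)) * X) := by
  have hN' : (N : ℂ) ≠ 0 := by exact_mod_cast hN
  have hq' : (q : ℂ) ≠ 0 := by exact_mod_cast hq
  ext n
  rw [coeff_map, Pz_coeff, coeff_C_mul, comp_C_mul_X_coeff, coeff_map]
  split_ifs with h1
  · simp only [eq_intCast]
    push_cast
    have e1 : (q : ℂ) ^ h = q ^ (h - n) * q ^ n := by rw [← pow_add]; congr 1; omega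
    have e2 : (N : ℂ) ^ (2 * h) = N ^ (2 * (h - n)) * (N ^ 2) ^ n := by
      rw [← pow_mul, ← pow_add]; congr 1; omega
    rw [e1, e2, div_pow, mul_pow]
    field_simp
  · have h2 : A.coeff n = 0 := coeff_eq_zero_of_natDegree_lt (by omega)
    rw [h2]; simp

lemma len_Qf (D : ℤ) : len (Qf D) ≤ 1 + D.natAbs := by
  rw [Qf]
  refine (len_sub_le _ _).trans ?_
  have h1 : len (MvPolynomial.X 0 ^ 2) ≤ 1 := by
    refine (len_pow_le _ _).trans ?_
    exact (Nat.pow_le_pow_left (len_X_le 0) 2).trans (by norm_num)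
  have h2 : len (MvPolynomial.X 1 ^ 2) ≤ 1 := by
    refine (len_pow_le _ _).trans ?_
    exact (Nat.pow_le_pow_left (len_X_le 1) 2).trans (by norm_num)
  have h3 : len (MvPolynomial.C D * MvPolynomial.X 1 ^ 2) ≤ D.natAbs := by
    refine (len_mul_le _ _).trans ?_
    calc _ ≤ D.natAbs * 1 := Nat.mul_le_mul (len_C_le D) h2
      _ = _ := mul_one _
  exact Nat.add_le_add h1 h3

lemma len_aeval (D : ℤ) (A : ℤ[X]) (κ N p : ℤ) (q h M n1 n3 : ℕ) (hN : 1 ≤ N.natAbs)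
    (hn1 : 1 ≤ n1) (hn3 : 1 ≤ n3) (hM : 1 ≤ M) (hA : ∀ i, (A.coeff i).natAbs ≤ M)
    (hp : p.natAbs ≤ n1) (hq : q ≤ n3 * M) :
    len (aeval (Qf D) (Pz A κ N p q h)) ≤ (h + 1) *
      ((κ.natAbs * M * n1 ^ h * (n3 * M) ^ h * N.natAbs ^ (2 * h)) * (1 + D.natAbs) ^ h) := by
  have h1 : aeval (Qf D) (Pz A κ N p q h) = ∑ j ∈ Finset.range (h + 1),
      MvPolynomial.C (κ * A.coeff j * p ^ j * (q : ℤ) ^ (h - j) * N ^ (2 * (h - j)))
        * (Qf D) ^ j := by
    rw [Pz, map_sum]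
    apply Finset.sum_congr rfl
    intro j _
    rw [map_mul, aeval_C, map_pow, aeval_X, MvPolynomial.algebraMap_eq]
  rw [h1]
  refine (len_sum_le _ _).trans ?_
  have h2 : ∀ j ∈ Finset.range (h + 1), len (MvPolynomial.C (κ * A.coeff j * p ^ j *
      (q : ℤ) ^ (h - j) * N ^ (2 * (h - j))) * (Qf D) ^ j) ≤
      (κ.natAbs * M * n1 ^ h * (n3 * M) ^ h * N.natAbs ^ (2 * h)) * (1 + D.natAbs) ^ h := by
    intro j hj
    rw [Finset.mem_range] at hj
    refine (len_mul_le _ _).trans ?_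
    apply Nat.mul_le_mul
    · refine (len_C_le _).trans ?_
      rw [Int.natAbs_mul, Int.natAbs_mul, Int.natAbs_mul, Int.natAbs_mul, Int.natAbs_pow,
        Int.natAbs_pow, Int.natAbs_pow, Int.natAbs_natCast]
      apply Nat.mul_le_mul
      · apply Nat.mul_le_mul
        · apply Nat.mul_le_mul
          · exact Nat.mul_le_mul le_rfl (hA j)
          · calc p.natAbs ^ j ≤ n1 ^ j := Nat.pow_le_pow_left hp j
              _ ≤ n1 ^ h := Nat.pow_le_pow_right hn1 (by omega)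
        · calc q ^ (h - j) ≤ (n3 * M) ^ (h - j) := Nat.pow_le_pow_left hq _
            _ ≤ (n3 * M) ^ h := Nat.pow_le_pow_right (Nat.mul_pos hn3 hM) (by omega)
      · exact Nat.pow_le_pow_right hN (by omega)
    · refine (len_pow_le _ _).trans ?_
      calc len (Qf D) ^ j ≤ (1 + D.natAbs) ^ j := Nat.pow_le_pow_left (len_Qf D) j
        _ ≤ (1 + D.natAbs) ^ h := Nat.pow_le_pow_right (by omega) (by omega)
  calc _ ≤ ∑ j ∈ Finset.range (h + 1), (κ.natAbs * M * n1 ^ h * (n3 * M) ^ h *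
        N.natAbs ^ (2 * h)) * (1 + D.natAbs) ^ h := Finset.sum_le_sum h2
    _ = _ := by rw [Finset.sum_const, Finset.card_range, smul_eq_mul]

lemma sep_C (f : ℤ[X]) (hf : Squarefree (f.map (Int.castRingHom ℚ))) :
    (f.map (Int.castRingHom ℂ)).Separable := by
  have h1 : (f.map (Int.castRingHom ℚ)).Separable := PerfectField.separable_iff_squarefree.2 hf
  have h3 := h1.map (f := algebraMap ℚ ℂ)
  rw [Polynomial.map_map] at h3
  exact h3

lemma sqf_comp (f : ℤ[X]) (hf : Squarefree (f.map (Int.castRingHom ℚ))) (r b : ℂ) (hr : r ≠ 0) :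
    Squarefree ((f.map (Int.castRingHom ℂ)).comp (C r * X - C b)) := by
  have h2 := sep_C f hf
  have h3 : ((f.map (Int.castRingHom ℂ)).comp (C r * X - C b)).Separable := by
    have h4 := h2
    rw [separable_def] at h4 ⊢
    have h5 := h4.map (compRingHom (C r * X - C b))
    rw [coe_compRingHom_apply, coe_compRingHom_apply] at h5
    rw [derivative_comp, derivative_sub, derivative_C_mul, derivative_X, derivative_C, sub_zero,
      mul_one]
    exact (isCoprime_mul_unit_left_right (isUnit_C.2 (isUnit_iff_ne_zero.2 hr)) _ _).2 h5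
  exact h3.squarefree

/-- `e^h A((X - r)/e)` -/
noncomputable def Ash (A : ℤ[X]) (e r : ℤ) (h : ℕ) : ℤ[X] :=
  ∑ j ∈ Finset.range (h + 1), C (A.coeff j * e ^ (h - j)) * (X - C r) ^ j

lemma Ash_natDegree (A : ℤ[X]) (e r : ℤ) (h : ℕ) : (Ash A e r h).natDegree ≤ h := by
  apply natDegree_sum_le_of_forall_le
  intro j hj
  refine (natDegree_C_mul_le _ _).trans ?_
  rw [natDegree_pow, natDegree_X_sub_C, mul_one]
  rw [Finset.mem_range] at hj; omega

lemma Ash_map (A : ℤ[X]) (e r : ℤ) (h : ℕ) (hA : A.natDegree ≤ h) (he : e ≠ 0) :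
    (Ash A e r h).map (Int.castRingHom ℂ)
      = C ((e : ℂ) ^ h) * (A.map (Int.castRingHom ℂ)).comp (C (1 / (e : ℂ)) * (X - C (r : ℂ))) := by
  have he' : (e : ℂ) ≠ 0 := by exact_mod_cast he
  conv_rhs => rw [A.as_sum_range_C_mul_X_pow' (n := h + 1) (by omega)]
  rw [Ash, Polynomial.map_sum, Polynomial.map_sum, Polynomial.sum_comp, Finset.mul_sum]
  apply Finset.sum_congr rfl
  intro j hj
  rw [Finset.mem_range] at hj
  simp only [Polynomial.map_mul, Polynomial.map_pow, Polynomial.map_sub, map_C, map_X, mul_comp,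
    pow_comp, C_comp, X_comp]
  rw [mul_pow, ← C_pow]
  have h1 : ((e : ℂ) ^ h) * (1 / (e : ℂ)) ^ j = e ^ (h - j) := by
    have e1 : (e : ℂ) ^ h = e ^ (h - j) * e ^ j := by rw [← pow_add]; congr 1; omega
    rw [e1, one_div, inv_pow]
    field_simp
  have h2 : (C ((Int.castRingHom ℂ) (A.coeff j * e ^ (h - j))) : ℂ[X])
      = C ((Int.castRingHom ℂ) (A.coeff j)) * (C ((e : ℂ) ^ h) * C ((1 / (e : ℂ)) ^ j)) := by
    rw [← C_mul, ← C_mul, h1]
    simp
  rw [h2]
  simp only [eq_intCast]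
  ring

lemma Ash_eval (A : ℤ[X]) (e r x : ℤ) (h : ℕ) (hA : A.natDegree ≤ h) :
    (Ash A e r h).eval (e * x + r) = e ^ h * A.eval x := by
  conv_rhs => rw [A.as_sum_range_C_mul_X_pow' (n := h + 1) (by omega)]
  rw [Ash, eval_finsetSum, eval_finsetSum, Finset.mul_sum]
  apply Finset.sum_congr rfl
  intro j hj
  rw [Finset.mem_range] at hj
  simp only [eval_mul, eval_C, eval_pow, eval_sub, eval_X]
  have e1 : e ^ h = e ^ (h - j) * e ^ j := by rw [← pow_add]; congr 1; omega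
  rw [e1]
  have e2 : e * x + r - r = e * x := by ring
  rw [e2, mul_pow]
  ring

lemma Ash_coeff (A : ℤ[X]) (e r : ℤ) (h M : ℕ) (hM : 1 ≤ M) (he : e.natAbs ≤ M)
    (hr : r.natAbs ≤ M) (hA : ∀ i, (A.coeff i).natAbs ≤ M) (i : ℕ) :
    ((Ash A e r h).coeff i).natAbs ≤ (h + 1) * 2 ^ h * M ^ (h + 1) := by
  rw [Ash, finsetSum_coeff]
  refine (Int.natAbs_sum_le _ _).trans ?_
  have h1 : ∀ j ∈ Finset.range (h + 1),
      ((C (A.coeff j * e ^ (h - j)) * (X - C r) ^ j : ℤ[X]).coeff i).natAbs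
        ≤ 2 ^ h * M ^ (h + 1) := by
    intro j hj
    rw [Finset.mem_range] at hj
    rw [sub_eq_add_neg, ← C_neg, coeff_C_mul, coeff_X_add_C_pow, Int.natAbs_mul, Int.natAbs_mul,
      Int.natAbs_mul, Int.natAbs_pow, Int.natAbs_pow, Int.natAbs_neg, Int.natAbs_natCast]
    have h2 : j.choose i ≤ 2 ^ h :=
      (Nat.choose_le_two_pow j i).trans (Nat.pow_le_pow_right (by norm_num) (by omega))
    have h3 : r.natAbs ^ (j - i) ≤ M ^ j :=
      (Nat.pow_le_pow_left hr _).trans (Nat.pow_le_pow_right hM (by omega))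
    have h4 : e.natAbs ^ (h - j) ≤ M ^ (h - j) := Nat.pow_le_pow_left he _
    calc _ ≤ (M * M ^ (h - j)) * (M ^ j * 2 ^ h) :=
          Nat.mul_le_mul (Nat.mul_le_mul (hA j) h4) (Nat.mul_le_mul h3 h2)
      _ = 2 ^ h * (M ^ (1 + (h - j) + j)) := by rw [pow_add, pow_add]; ring
      _ = _ := by congr 2; omega
  calc _ ≤ ∑ j ∈ Finset.range (h + 1), 2 ^ h * M ^ (h + 1) := Finset.sum_le_sum h1
    _ = _ := by rw [Finset.sum_const, Finset.card_range, smul_eq_mul]; ring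

end Pool.Agent.H16V
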