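import Mathlib

/-!
The quadratic extension `K₁ = K(ω)`, `ω² = P ω + β X^m` of `K = k(X)`, and the irreducibility of
`Z^m - ω` over it, when `P² + 4 β X^m = γ B² f` with `f` squarefree and there is no relation
`t² = γ' e² f + ε X^(m/p)` for a prime `p` dividing the odd number `m`.
-/

set_option autoImplicit false

open Polynomial

namespace Pool.Agent.H16V

section

variable {k : Type} [Field k]

/-- the hypotheses on the polynomials -/
structure Dat (k : Type) [Field k] (m : ℕ) (β : k) (P : k[X]) : Prop where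
  odd : Odd m
  two : (2 : k) ≠ 0
  b0 : β ≠ 0
  deg : 2 * P.natDegree < m
  ex : ∃ (γ : k) (B f : k[X]), γ ≠ 0 ∧ P ^ 2 + C (4 * β) * X ^ m = C γ * B ^ 2 * f ∧
    Squarefree f ∧ ∀ p : ℕ, p.Prime → p ∣ m → ∀ (t e : k[X]) (ε γ' : k), e ≠ 0 → ε ≠ 0 → γ' ≠ 0 →
      t ^ 2 ≠ C γ' * (e ^ 2 * f) + C ε * X ^ (m / p)

variable {m : ℕ} {β : k} {P : k[X]}

lemma Dat.four (h : Dat k m β P) : (4 * β : k) ≠ 0 := by
  have : (4 : k) = 2 * 2 := by norm_num
  rw [this]
  exact mul_ne_zero (mul_ne_zero h.two h.two) h.b0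

lemma Dat.natDegree (h : Dat k m β P) : (P ^ 2 + C (4 * β) * X ^ m).natDegree = m := by
  have h1 : (C (4 * β) * X ^ m : k[X]).natDegree = m := natDegree_C_mul_X_pow _ _ h.four
  rw [natDegree_add_eq_right_of_natDegree_lt]
  · exact h1
  · rw [h1, natDegree_pow]; exact h.deg

/-- the base field -/
abbrev KK (k : Type) [Field k] := FractionRing k[X]

/-- the quadratic extension -/
abbrev QQ (m : ℕ) (β : k) (P : k[X]) :=
  QuadraticAlgebra (KK k) (algebraMap k[X] (KK k) (C β * X ^ m)) (algebraMap k[X] (KK k) P)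

lemma ne_sq (h : Dat k m β P) (r : KK k) :
    r ^ 2 ≠ algebraMap k[X] (KK k) (C β * X ^ m) + algebraMap k[X] (KK k) P * r := by
  intro hr
  obtain ⟨e, he⟩ : ∃ e : KK k, e = 2 * r - algebraMap k[X] (KK k) P := ⟨_, rfl⟩
  have h1 : e ^ 2 = algebraMap k[X] (KK k) (P ^ 2 + C (4 * β) * X ^ m) := by
    have h4 : (C (4 * β) : k[X]) = 4 * C β := by rw [C_mul]; rfl
    rw [he, h4, mul_assoc, map_add, map_pow, map_mul (algebraMap k[X] (KK k)) 4, map_ofNat]
    linear_combination 4 * hr
  obtain ⟨e', he'⟩ := IsIntegrallyClosed.exists_algebraMap_eq_of_isIntegral_pow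
    (R := k[X]) (x := e) (n := 2) (by norm_num) (by rw [h1]; exact isIntegral_algebraMap)
  rw [← he', ← map_pow] at h1
  have h2 := IsFractionRing.injective k[X] (KK k) h1
  have h3 := congrArg Polynomial.natDegree h2
  rw [h.natDegree, natDegree_pow] at h3
  have := h.odd
  rw [← h3] at this
  exact (Nat.not_odd_iff_even.2 (even_two_mul _)) this

lemma omega_sq : (QuadraticAlgebra.omega : QQ m β P) ^ 2
    = algebraMap k[X] (QQ m β P) P * QuadraticAlgebra.omega
      + algebraMap k[X] (QQ m β P) (C β * X ^ m) := by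
  rw [IsScalarTower.algebraMap_apply k[X] (KK k) (QQ m β P),
    IsScalarTower.algebraMap_apply k[X] (KK k) (QQ m β P) (C β * X ^ m)]
  ext
  · rw [sq, QuadraticAlgebra.omega_mul_omega_eq_mk]
    simp [-map_mul, -map_pow]
  · rw [sq, QuadraticAlgebra.omega_mul_omega_eq_mk]
    simp [-map_mul, -map_pow]

lemma integral_omega : IsIntegral k[X] (QuadraticAlgebra.omega : QQ m β P) := by
  refine ⟨(X ^ 2 - (C P * X + C (C β * X ^ m)) : k[X][X]), ?_, ?_⟩
  · apply monic_X_pow_sub
    refine (degree_add_le _ _).trans_lt ?_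
    apply max_lt
    · refine (degree_C_mul_X_le _).trans_lt ?_
      norm_num
    · exact degree_C_le.trans_lt (by norm_num)
  · simp only [eval₂_sub, eval₂_add, eval₂_mul, eval₂_pow, eval₂_X, eval₂_C]
    rw [omega_sq]
    simp only [map_mul, map_pow]
    ring

lemma integral_star_omega : IsIntegral k[X] (star (QuadraticAlgebra.omega : QQ m β P)) := by
  have h1 : star (QuadraticAlgebra.omega : QQ m β P)
      = algebraMap k[X] (QQ m β P) P - QuadraticAlgebra.omega := by
    rw [IsScalarTower.algebraMap_apply k[X] (KK k) (QQ m β P)]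
    ext <;> simp
  rw [h1]
  exact isIntegral_algebraMap.sub integral_omega

theorem not_pow (h : Dat k m β P) (p : ℕ) (hp : p.Prime) (hpm : p ∣ m) (z : QQ m β P) :
    z ^ p ≠ QuadraticAlgebra.omega := by
  intro hz
  obtain ⟨γ, B, f, hγ, hfac, hsq, hdeg⟩ := h.ex
  have hp0 : 0 < p := hp.pos
  have hdeg := hdeg p hp hpm
  -- the norm
  have hn1 : (QuadraticAlgebra.norm z) ^ p = algebraMap k[X] (KK k) (-(C β * X ^ m)) := by
    rw [← map_pow, hz, QuadraticAlgebra.norm_def]
    simp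
  obtain ⟨ν, hν⟩ := IsIntegrallyClosed.exists_algebraMap_eq_of_isIntegral_pow
    (R := k[X]) (x := QuadraticAlgebra.norm z) (n := p) hp0
    (by rw [hn1]; exact isIntegral_algebraMap)
  have hν1 : ν ^ p = -(C β * X ^ m) := by
    apply IsFractionRing.injective k[X] (KK k)
    rw [map_pow, hν, hn1]
  obtain ⟨ε, hε, hνε⟩ : ∃ ε : k, ε ≠ 0 ∧ ν = C ε * X ^ (m / p) := by
    have h3 : ν ∣ X ^ m := by
      have h4 : ν ∣ C β * X ^ m := by
        rw [← dvd_neg, ← hν1]
        exact dvd_pow_self _ hp0.ne'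
      have hu : IsUnit (C β) := isUnit_C.2 (isUnit_iff_ne_zero.2 h.b0)
      exact (hu.dvd_mul_left).1 h4
    obtain ⟨i, hi, hass⟩ := (dvd_prime_pow prime_X m).1 h3
    obtain ⟨u, hu⟩ := hass.symm
    obtain ⟨ε, hε, hεu⟩ := Polynomial.isUnit_iff.1 u.isUnit
    have hε0 : ε ≠ 0 := hε.ne_zero
    have h5 : ν = C ε * X ^ i := by rw [← hu, ← hεu, mul_comm]
    have h6 := congrArg Polynomial.natDegree hν1
    rw [natDegree_pow, natDegree_neg, natDegree_C_mul_X_pow _ _ h.b0, h5,
      natDegree_C_mul_X_pow _ _ hε0] at h6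
    refine ⟨ε, hε0, ?_⟩
    rw [h5, ← h6, Nat.mul_div_cancel_left _ hp0]
  -- the trace
  have hz1 : IsIntegral k[X] z := IsIntegral.of_pow hp0 (by rw [hz]; exact integral_omega)
  have hz2 : IsIntegral k[X] (star z) := IsIntegral.of_pow hp0 (by
    rw [← star_pow, hz]; exact integral_star_omega)
  have hz3 : IsIntegral k[X] (QuadraticAlgebra.trace z) := by
    have h4 := hz1.add hz2
    rw [← QuadraticAlgebra.algebraMap_trace_eq_add_star] at h4
    exact (isIntegral_algebraMap_iff (QuadraticAlgebra.algebraMap_injective)).1 h4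
  obtain ⟨t, ht⟩ := IsIntegrallyClosed.isIntegral_iff.1 hz3
  -- the discriminant
  have hd : (algebraMap k[X] (KK k) t) ^ 2 - 4 * algebraMap k[X] (KK k) ν
      = algebraMap k[X] (KK k) (C γ * B ^ 2 * f) * z.im ^ 2 := by
    have h4 : (C (4 * β) : k[X]) = 4 * C β := by rw [C_mul]; rfl
    rw [← hfac, h4, mul_assoc, map_add, map_pow, map_mul (algebraMap k[X] (KK k)) 4, map_ofNat,
      ht, hν, QuadraticAlgebra.trace_def, QuadraticAlgebra.norm_def]
    ring
  have him : z.im ≠ 0 := by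
    intro h0
    have h5 : z = algebraMap (KK k) (QQ m β P) z.re := by
      ext
      · simp
      · simp [h0]
    rw [h5, ← map_pow] at hz
    have := congrArg QuadraticAlgebra.im hz
    rw [QuadraticAlgebra.algebraMap_im, QuadraticAlgebra.omega_im] at this
    exact zero_ne_one this
  have hf0 : f ≠ 0 := hsq.ne_zero
  have hB0 : B ≠ 0 := by
    rintro rfl
    have h6 := h.natDegree
    rw [hfac] at h6
    simp at h6
    have := h.odd
    rw [← h6] at this
    simp at this
  -- e = B * im z is a polynomial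
  obtain ⟨g, hg⟩ : ∃ g : k[X], algebraMap k[X] (KK k) g
      = algebraMap k[X] (KK k) (B * f) * z.im := by
    apply IsIntegrallyClosed.exists_algebraMap_eq_of_isIntegral_pow (n := 2) (by norm_num)
    have h6 : (algebraMap k[X] (KK k) (B * f) * z.im) ^ 2
        = algebraMap k[X] (KK k) (C γ⁻¹ * (t ^ 2 - 4 * ν) * f) := by
      have h7 : algebraMap k[X] (KK k) (C γ⁻¹) * algebraMap k[X] (KK k) (C γ) = 1 := by
        rw [← map_mul, ← C_mul, inv_mul_cancel₀ hγ, C_1, map_one]
      simp only [map_mul, map_pow, map_sub, map_ofNat] at hd ⊢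
      linear_combination (-(algebraMap k[X] (KK k) (C γ⁻¹)) * algebraMap k[X] (KK k) f) * hd -
        (algebraMap k[X] (KK k) B ^ 2 * algebraMap k[X] (KK k) f ^ 2 * z.im ^ 2) * h7
    rw [h6]
    exact isIntegral_algebraMap
  have hg2 : C γ * g ^ 2 = (t ^ 2 - 4 * ν) * f := by
    apply IsFractionRing.injective k[X] (KK k)
    simp only [map_mul, map_pow, map_sub, map_ofNat] at hd hg ⊢
    rw [hg]
    linear_combination (-algebraMap k[X] (KK k) f) * hd
  have hfg : f ∣ g := by
    have h8 : f ∣ g ^ 2 := by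
      have h9 : f ∣ C γ * g ^ 2 := ⟨t ^ 2 - 4 * ν, by rw [hg2]; ring⟩
      have hu : IsUnit (C γ) := isUnit_C.2 (isUnit_iff_ne_zero.2 hγ)
      exact (hu.dvd_mul_left).1 h9
    exact (hsq.dvd_pow_iff_dvd (by norm_num)).1 h8
  obtain ⟨e, rfl⟩ := hfg
  have he0 : e ≠ 0 := by
    rintro rfl
    rw [mul_zero, map_zero] at hg
    rcases mul_eq_zero.1 hg.symm with h10 | h10
    · rw [map_eq_zero_iff _ (IsFractionRing.injective k[X] (KK k))] at h10
      exact mul_ne_zero hB0 hf0 h10
    · exact him h10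
  have hfin : t ^ 2 = C γ * (e ^ 2 * f) + 4 * ν := by
    have h11 : f * (t ^ 2 - (C γ * (e ^ 2 * f) + 4 * ν)) = 0 := by
      linear_combination (-1 : k[X]) * hg2
    rcases mul_eq_zero.1 h11 with h12 | h12
    · exact absurd h12 hf0
    · exact sub_eq_zero.1 h12
  have h4k : (4 : k) ≠ 0 := by
    have : (4 : k) = 2 * 2 := by norm_num
    rw [this]
    exact mul_ne_zero h.two h.two
  apply hdeg t e (4 * ε) γ he0 (mul_ne_zero h4k hε) hγ
  rw [hfin, hνε]
  have : (C (4 * ε) : k[X]) = 4 * C ε := by rw [C_mul]; rfl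
  rw [this, mul_assoc]

end

end Pool.Agent.H16V
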