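import Mathlib

/-!
Finiteness of the `m`-Selmer group `K(S, m)` of a number field (integral version); adapted from
`Pool.Agent.H437R2.Man.MWSel` (which is the case `m = 2`).
-/

set_option autoImplicit false

open IsDedekindDomain NumberField
open scoped nonZeroDivisors

namespace Pool.Agent.H16V

/-- every multiset is `m` times a multiset plus a multiset with small multiplicities. -/
lemma multiset_div {α : Type*} [DecidableEq α] (m : ℕ) (hm : 0 < m) (s : Multiset α) :
    ∃ t d : Multiset α, s = m • t + d ∧ ∀ a, d.count a < m := by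
  induction s using Multiset.induction_on with
  | empty => exact ⟨0, 0, by simp, fun a => by simpa using hm⟩
  | cons p s ih =>
    obtain ⟨t, d, hs, hd⟩ := ih
    by_cases hp : d.count p + 1 < m
    · refine ⟨t, p ::ₘ d, ?_, ?_⟩
      · rw [hs, Multiset.add_cons]
      · intro a
        rw [Multiset.count_cons]
        split_ifs with h
        · rw [h]; exact hp
        · exact hd a
    · have hpm : d.count p = m - 1 := by
        have := hd p
        omega
      have hle : Multiset.replicate (m - 1) p ≤ d := by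
        rw [← hpm]; exact Multiset.le_count_iff_replicate_le.1 le_rfl
      obtain ⟨d', hd'⟩ := Multiset.le_iff_exists_add.1 hle
      refine ⟨p ::ₘ t, d', ?_, ?_⟩
      · rw [hs, hd']
        ext a
        simp only [Multiset.count_cons, Multiset.count_add, Multiset.count_nsmul,
          Multiset.count_replicate]
        by_cases h : a = p
        · subst h
          simp only [if_true]
          obtain ⟨k, rfl⟩ : ∃ k, m = k + 1 := ⟨m - 1, by omega⟩
          simp
          ring
        · have h' : ¬ p = a := fun h'' => h h''.symm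
          simp [h, h']
      · intro a
        have h1 := hd a
        rw [hd', Multiset.count_add] at h1
        omega

variable {K : Type} [Field K] [NumberField K]

/-- structure of ideals whose orders away from `S` are divisible by `m` -/
lemma ideal_div (m : ℕ) (hm : 0 < m) (S : Set (HeightOneSpectrum (𝓞 K))) (hS : S.Finite) :
    ∃ D : Finset (Ideal (𝓞 K)), ∀ I : Ideal (𝓞 K), I ≠ 0 →
      (∀ v : HeightOneSpectrum (𝓞 K), v ∉ S →
        m ∣ ((UniqueFactorizationMonoid.normalizedFactors I).count v.asIdeal)) →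
      ∃ d ∈ D, ∃ J : Ideal (𝓞 K), J ≠ 0 ∧ I = J ^ m * d := by
  classical
  set S' : Finset (Ideal (𝓞 K)) := hS.toFinset.image (fun v => v.asIdeal) with hS'
  refine ⟨(Fintype.piFinset (fun _ : S' => Finset.range m)).image
    (fun g => ∏ x : S', (x : Ideal (𝓞 K)) ^ g x), fun I hI hev => ?_⟩
  obtain ⟨t, d, hs, hd⟩ := multiset_div m hm (UniqueFactorizationMonoid.normalizedFactors I)
  have hpr : ∀ p ∈ UniqueFactorizationMonoid.normalizedFactors I, Prime p := fun p hp =>
    UniqueFactorizationMonoid.prime_of_normalized_factor p hp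
  have hdS : ∀ p ∈ d, p ∈ S' := by
    intro p hp
    have hpI : p ∈ UniqueFactorizationMonoid.normalizedFactors I := by
      rw [hs]; exact Multiset.mem_add.mpr (Or.inr hp)
    have hpp : Prime p := hpr p hpI
    let v : HeightOneSpectrum (𝓞 K) := ⟨p, Ideal.isPrime_of_prime hpp, hpp.ne_zero⟩
    by_contra hn
    have hv : v ∉ S := by
      intro hv
      apply hn
      rw [hS', Finset.mem_image]
      exact ⟨v, by simpa using hv, rfl⟩
    have h1 := hev v hv
    rw [hs] at h1
    have h3 : Multiset.count v.asIdeal (m • t + d) = m * Multiset.count p t + Multiset.count p d := by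
      change Multiset.count p (m • t + d) = _
      rw [Multiset.count_add, Multiset.count_nsmul]
    rw [h3] at h1
    have h4 : m ∣ Multiset.count p d := (Nat.dvd_add_right (dvd_mul_right m _)).1 h1
    have h5 : 0 < Multiset.count p d := Multiset.count_pos.2 hp
    exact absurd (Nat.le_of_dvd h5 h4) (not_le.2 (hd p))
  refine ⟨d.prod, ?_, t.prod, ?_, ?_⟩
  · rw [Finset.mem_image]
    refine ⟨fun x => d.count (x : Ideal (𝓞 K)), ?_, ?_⟩
    · rw [Fintype.mem_piFinset]
      intro x
      rw [Finset.mem_range]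
      exact hd _
    · rw [Finset.prod_multiset_count]
      have h1 : d.toFinset ⊆ S' := by
        intro p hp
        exact hdS p (Multiset.mem_toFinset.mp hp)
      rw [Finset.prod_subset h1]
      · exact (Finset.prod_attach S' (fun x => x ^ d.count x))
      · intro p _ hp
        rw [Multiset.mem_toFinset] at hp
        rw [Multiset.count_eq_zero_of_notMem hp, pow_zero]
  · intro h0
    rw [Multiset.prod_eq_zero_iff] at h0
    have : (0 : Ideal (𝓞 K)) ∈ UniqueFactorizationMonoid.normalizedFactors I := by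
      rw [hs]
      refine Multiset.mem_add.mpr (Or.inl ?_)
      rw [Multiset.mem_nsmul]
      exact ⟨hm.ne', h0⟩
    exact (hpr _ this).ne_zero rfl
  · have h2 : (UniqueFactorizationMonoid.normalizedFactors I).prod = I := by
      have := UniqueFactorizationMonoid.prod_normalizedFactors hI
      exact associated_iff_eq.mp this
    conv_lhs => rw [← h2, hs]
    rw [Multiset.prod_add, Multiset.prod_nsmul]

/-- finiteness of units modulo `m`-th powers -/
lemma units_pow (K : Type) [Field K] [NumberField K] (m : ℕ) (hm : 0 < m) :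
    ∃ T : Finset (𝓞 K)ˣ, ∀ u : (𝓞 K)ˣ, ∃ t ∈ T, ∃ w : (𝓞 K)ˣ, u = t * w ^ m := by
  classical
  have : Group.FG (𝓞 K)ˣ := Group.fg_iff_monoid_fg.mpr inferInstance
  have h := Subgroup.finiteIndex_range_powMonoidHom_of_fg (𝓞 K)ˣ (n := m) hm.ne'
  have : Finite ((𝓞 K)ˣ ⧸ (powMonoidHom (α := (𝓞 K)ˣ) m).range) :=
    Subgroup.finite_quotient_of_finiteIndex
  have := Fintype.ofFinite ((𝓞 K)ˣ ⧸ (powMonoidHom (α := (𝓞 K)ˣ) m).range)
  refine ⟨Finset.univ.image (fun q : (𝓞 K)ˣ ⧸ (powMonoidHom (α := (𝓞 K)ˣ) m).range => q.out),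
    fun u => ?_⟩
  refine ⟨(QuotientGroup.mk (s := (powMonoidHom (α := (𝓞 K)ˣ) m).range) u).out,
    Finset.mem_image_of_mem _ (Finset.mem_univ _), ?_⟩
  have h1 : QuotientGroup.mk (s := (powMonoidHom (α := (𝓞 K)ˣ) m).range)
      (QuotientGroup.mk (s := (powMonoidHom (α := (𝓞 K)ˣ) m).range) u).out =
      QuotientGroup.mk u := QuotientGroup.out_eq' _
  rw [QuotientGroup.eq] at h1
  obtain ⟨w, hw⟩ := h1
  refine ⟨w, ?_⟩
  rw [powMonoidHom_apply] at hw
  rw [hw, mul_inv_cancel_left]

/-- integral version of the finiteness of `K(S,m)`. -/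
lemma sel_int (m : ℕ) (hm : 0 < m) (S : Set (HeightOneSpectrum (𝓞 K))) (hS : S.Finite) :
    ∃ T : Finset (𝓞 K), (∀ t ∈ T, t ≠ 0) ∧ ∀ a : 𝓞 K, a ≠ 0 →
      (∀ v : HeightOneSpectrum (𝓞 K), v ∉ S →
        m ∣ ((UniqueFactorizationMonoid.normalizedFactors (Ideal.span {a})).count v.asIdeal)) →
      ∃ t ∈ T, ∃ x y : 𝓞 K, x ≠ 0 ∧ y ≠ 0 ∧ x ^ m * a = t * y ^ m := by
  classical
  obtain ⟨D, hD⟩ := ideal_div m hm S hS
  obtain ⟨U, hU⟩ := units_pow K m hm
  -- the relation between integers and (ideal, class)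
  let Rel : Ideal (𝓞 K) × ClassGroup (𝓞 K) → 𝓞 K → Prop := fun c a =>
    a ≠ 0 ∧ ∃ J : (Ideal (𝓞 K))⁰, Ideal.span {a} = (J : Ideal (𝓞 K)) ^ m * c.1 ∧
      ClassGroup.mk0 J = c.2
  let rep : Ideal (𝓞 K) × ClassGroup (𝓞 K) → 𝓞 K := fun c =>
    if h : ∃ a, Rel c a then Classical.choose h else 1
  have hrep0 : ∀ c, rep c ≠ 0 := by
    intro c
    simp only [rep]
    split_ifs with h
    · exact (Classical.choose_spec h).1
    · exact one_ne_zero
  let T : Finset (𝓞 K) := ((D ×ˢ (Finset.univ : Finset (ClassGroup (𝓞 K)))) ×ˢ U).image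
    (fun c => rep c.1 * (c.2 : 𝓞 K))
  refine ⟨T, ?_, ?_⟩
  · intro t ht
    simp only [T, Finset.mem_image] at ht
    obtain ⟨c, -, rfl⟩ := ht
    exact mul_ne_zero (hrep0 _) (Units.ne_zero _)
  · intro a ha hev
    have hI : Ideal.span {a} ≠ (0 : Ideal (𝓞 K)) := by simpa using ha
    obtain ⟨d, hd, J, hJ, hIJ⟩ := hD _ hI hev
    set J' : (Ideal (𝓞 K))⁰ := ⟨J, mem_nonZeroDivisors_iff_ne_zero.mpr hJ⟩ with hJ'
    have hR : Rel (d, ClassGroup.mk0 J') a := ⟨ha, J', hIJ, rfl⟩
    have hex : ∃ a, Rel (d, ClassGroup.mk0 J') a := ⟨a, hR⟩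
    have hrepe : rep (d, ClassGroup.mk0 J') = Classical.choose hex := by
      simp only [rep]
      rw [dif_pos hex]
    obtain ⟨hb0, J2, hJ2, hcl⟩ := Classical.choose_spec hex
    rw [← hrepe] at hb0 hJ2
    set b := rep (d, ClassGroup.mk0 J') with hb
    obtain ⟨x, y, hx, hy, hxy⟩ := ClassGroup.mk0_eq_mk0_iff.mp hcl
    -- x J2 = y J
    have h1 : Ideal.span {y ^ m * a} = Ideal.span {x ^ m * b} := by
      rw [← Ideal.span_singleton_mul_span_singleton, ← Ideal.span_singleton_mul_span_singleton,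
        ← Ideal.span_singleton_pow, ← Ideal.span_singleton_pow, hIJ, hJ2]
      have h2 : (Ideal.span {y} * (J' : Ideal (𝓞 K))) = Ideal.span {x} * (J2 : Ideal (𝓞 K)) :=
        hxy.symm
      calc Ideal.span {y} ^ m * (J ^ m * d) = (Ideal.span {y} * J) ^ m * d := by
            rw [mul_pow, mul_assoc]
        _ = (Ideal.span {x} * (J2 : Ideal (𝓞 K))) ^ m * d := by rw [← h2]
        _ = _ := by rw [mul_pow, mul_assoc]
    rw [Ideal.span_singleton_eq_span_singleton] at h1
    obtain ⟨u, hu⟩ := h1.symm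
    obtain ⟨t, ht, w, hw⟩ := hU u
    refine ⟨b * (t : 𝓞 K), ?_, y, x * (w : 𝓞 K), hy, mul_ne_zero hx (Units.ne_zero _), ?_⟩
    · simp only [T, Finset.mem_image]
      refine ⟨((d, ClassGroup.mk0 J'), t), ?_, rfl⟩
      simp only [Finset.mem_product, Finset.mem_univ, and_true]
      exact ⟨hd, ht⟩
    · rw [← hu, hw]
      push_cast
      ring

end Pool.Agent.H16V
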